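import Mathlib

/-!
A combinatorial sieve for many residue classes modulo every prime (pure sieve).
-/

namespace Pool.Agent.H532.UN

open Finset

/-- the `s < S` with `s % q ∉ Om q` for all `q ∈ Q` -/
def avs (Q : Finset ℕ) (Om : ℕ → Finset ℕ) (S : ℕ) : Finset ℕ :=
  (range S).filter (fun s => ∀ q ∈ Q, s % q ∉ Om q)

/-- the classes for `t`, `s = c + q t` -/
def tw (Om : ℕ → Finset ℕ) (c q : ℕ) (p : ℕ) : Finset ℕ :=
  (range p).filter (fun t => (c + q * t) % p ∈ Om p)

/-- the number of `t` with `c + q t < S` -/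
def nt (S c q : ℕ) : ℕ := (S + (q - 1 - c)) / q

lemma nt_iff {S c q t : ℕ} (hc : c < q) : t < nt S c q ↔ c + q * t < S := by
  unfold nt
  rw [Nat.lt_div_iff_mul_lt (by omega)]
  have e : q * t = t * q := mul_comm _ _
  rw [e]
  constructor
  · intro h; omega
  · intro h; omega

lemma nt_le (S c q : ℕ) (hc : c < q) : (nt S c q : ℝ) ≤ S / q + 1 := by
  have hq : (0 : ℝ) < q := by
    have : 0 < q := by omega
    exact_mod_cast this
  have h1 : (nt S c q : ℝ) ≤ ((S + (q - 1 - c) : ℕ) : ℝ) / q := Nat.cast_div_le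
  have h2 : ((S + (q - 1 - c) : ℕ) : ℝ) ≤ S + q := by
    have : S + (q - 1 - c) ≤ S + q := by omega
    exact_mod_cast this
  calc (nt S c q : ℝ) ≤ _ := h1
    _ ≤ (S + q) / q := by gcongr
    _ = S / q + 1 := by field_simp

lemma le_nt (S c q : ℕ) (hc : c < q) : (S : ℝ) / q - 1 ≤ nt S c q := by
  have hq : (0 : ℝ) < q := by
    have : 0 < q := by omega
    exact_mod_cast this
  have h1 : ¬ (nt S c q < nt S c q) := lt_irrefl _
  rw [nt_iff hc] at h1
  have h2 : S ≤ c + q * nt S c q := by omega
  have h3 : (S : ℝ) ≤ c + q * nt S c q := by exact_mod_cast h2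
  have h4 : (c : ℝ) ≤ q := by exact_mod_cast hc.le
  rw [sub_le_iff_le_add, div_le_iff₀ hq]
  nlinarith

/-- the affine map is a bijection of the residues -/
lemma card_tw (Om : ℕ → Finset ℕ) (c q p : ℕ) (hp : 0 < p) (hqp : Nat.Coprime q p)
    (hOm : Om p ⊆ range p) : (tw Om c q p).card = (Om p).card := by
  have hinj : Set.InjOn (fun t => (c + q * t) % p) (range p : Set ℕ) := by
    intro t ht t' ht' h
    have h1 : c + q * t ≡ c + q * t' [MOD p] := h
    have h2 : q * t ≡ q * t' [MOD p] := Nat.ModEq.add_left_cancel' c h1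
    have h3 : t ≡ t' [MOD p] := Nat.ModEq.cancel_left_of_coprime (by rwa [Nat.gcd_comm]) h2
    exact Nat.ModEq.eq_of_lt_of_lt h3 (mem_range.1 ht) (mem_range.1 ht')
  have hmap : Set.MapsTo (fun t => (c + q * t) % p) (range p : Set ℕ) (range p : Set ℕ) := by
    intro t _
    exact mem_coe.2 (mem_range.2 (Nat.mod_lt _ hp))
  have hsurj : Set.SurjOn (fun t => (c + q * t) % p) (range p : Set ℕ) (range p : Set ℕ) :=
    Finset.surjOn_of_injOn_of_card_le _ hmap hinj le_rfl
  refine card_bij (fun t _ => (c + q * t) % p) ?_ ?_ ?_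
  · intro t ht; exact (mem_filter.1 ht).2
  · intro t ht t' ht' h
    exact hinj (mem_coe.2 (mem_filter.1 ht).1) (mem_coe.2 (mem_filter.1 ht').1) h
  · intro r hr
    obtain ⟨t, ht, h⟩ := hsurj (mem_coe.2 (hOm hr))
    exact ⟨t, mem_filter.2 ⟨mem_coe.1 ht, by
      have : (c + q * t) % p = r := h
      rw [this]; exact hr⟩, h⟩

lemma tw_subset (Om : ℕ → Finset ℕ) (c q p : ℕ) : tw Om c q p ⊆ range p := filter_subset _ _

/-- the survivors in one residue class -/
lemma avs_class (Q : Finset ℕ) (Om : ℕ → Finset ℕ) (S c q : ℕ) (hc : c < q)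
    (hQ : ∀ p ∈ Q, 0 < p) :
    ((avs Q Om S).filter (fun s => s % q = c)).card = (avs Q (tw Om c q) (nt S c q)).card := by
  symm
  have key : ∀ t, ∀ p ∈ Q, (t % p ∈ tw Om c q p ↔ (c + q * t) % p ∈ Om p) := by
    intro t p hp
    unfold tw
    rw [mem_filter, mem_range]
    have h1 : (c + q * (t % p)) % p = (c + q * t) % p := by
      have : c + q * (t % p) ≡ c + q * t [MOD p] :=
        Nat.ModEq.add_left c (Nat.ModEq.mul_left q (Nat.mod_modEq t p))
      exact this
    rw [h1]
    exact ⟨fun h => h.2, fun h => ⟨Nat.mod_lt _ (hQ p hp), h⟩⟩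
  refine card_bij (fun t _ => c + q * t) ?_ ?_ ?_
  · intro t ht
    obtain ⟨h1, h2⟩ := mem_filter.1 ht
    refine mem_filter.2 ⟨mem_filter.2 ⟨mem_range.2 ((nt_iff hc).1 (mem_range.1 h1)), ?_⟩, ?_⟩
    · intro p hp h3
      exact h2 p hp ((key t p hp).2 h3)
    · rw [Nat.add_mul_mod_self_left, Nat.mod_eq_of_lt hc]
  · intro t _ t' _ h
    have hq : 0 < q := by omega
    have : q * t = q * t' := by omega
    exact Nat.eq_of_mul_eq_mul_left hq this
  · intro s hs
    obtain ⟨h1, h2⟩ := mem_filter.1 hs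
    obtain ⟨h3, h4⟩ := mem_filter.1 h1
    have e : c + q * (s / q) = s := by
      rw [← h2]; exact Nat.mod_add_div s q
    refine ⟨s / q, mem_filter.2 ⟨mem_range.2 ((nt_iff hc).2 (by rw [e]; exact mem_range.1 h3)), ?_⟩, e⟩
    intro p hp h5
    have := (key (s / q) p hp).1 h5
    rw [e] at this
    exact h4 p hp this

/-- the sum of `|Om q| / q` -/
noncomputable def GG (Q : Finset ℕ) (Om : ℕ → Finset ℕ) : ℝ := ∑ q ∈ Q, ((Om q).card : ℝ) / q

/-- the sum of `|Om q|` -/
def HH (Q : Finset ℕ) (Om : ℕ → Finset ℕ) : ℕ := ∑ q ∈ Q, (Om q).card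

/-- the product of `1 - |Om q| / q` -/
noncomputable def PP (Q : Finset ℕ) (Om : ℕ → Finset ℕ) : ℝ := ∏ q ∈ Q, (1 - ((Om q).card : ℝ) / q)

lemma PP_mem (Q : Finset ℕ) (Om : ℕ → Finset ℕ) (hQ : ∀ q ∈ Q, q.Prime)
    (hOm : ∀ q ∈ Q, Om q ⊆ range q) : 0 ≤ PP Q Om ∧ PP Q Om ≤ 1 := by
  have h : ∀ q ∈ Q, 0 ≤ 1 - ((Om q).card : ℝ) / q ∧ 1 - ((Om q).card : ℝ) / q ≤ 1 := by
    intro q hq
    have h0 : (0 : ℝ) < q := by exact_mod_cast (hQ q hq).pos
    have h1 : ((Om q).card : ℝ) ≤ q := by
      have := card_le_card (hOm q hq)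
      rw [card_range] at this
      exact_mod_cast this
    constructor
    · rw [sub_nonneg, div_le_one h0]; exact h1
    · have : 0 ≤ ((Om q).card : ℝ) / q := by positivity
      linarith
  exact ⟨prod_nonneg fun q hq => (h q hq).1, prod_le_one (fun q hq => (h q hq).1)
    fun q hq => (h q hq).2⟩

lemma pow_add_ge (a b : ℝ) (ha : 0 ≤ a) (hb : 0 ≤ b) (r : ℕ) :
    a ^ (r + 1) + (r + 1) * b * a ^ r ≤ (a + b) ^ (r + 1) := by
  induction r with
  | zero => simp
  | succ r ih =>
    have h0 : 0 ≤ a + b := by positivity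
    calc a ^ (r + 1 + 1) + ((r + 1 : ℕ) + 1) * b * a ^ (r + 1)
        ≤ (a ^ (r + 1) + (r + 1) * b * a ^ r) * (a + b) := by
          push_cast
          have h1 : 0 ≤ (r + 1) * b * a ^ r * b := by positivity
          have e : (a ^ (r + 1) + (r + 1) * b * a ^ r) * (a + b) =
            a ^ (r + 1 + 1) + ((r : ℝ) + 1 + 1) * b * a ^ (r + 1) + (r + 1) * b * a ^ r * b := by
            ring
          linarith
      _ ≤ (a + b) ^ (r + 1) * (a + b) := by gcongr
      _ = (a + b) ^ (r + 1 + 1) := by ring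

/-- The pure sieve. -/
theorem bonf (Q : Finset ℕ) (hQ : ∀ q ∈ Q, q.Prime) : ∀ (r S : ℕ) (Om : ℕ → Finset ℕ),
    (∀ q ∈ Q, Om q ⊆ range q) →
    |((avs Q Om S).card : ℝ) - S * PP Q Om| ≤ S * (GG Q Om ^ r / r.factorial) +
      ((1 + 3 * (HH Q Om : ℝ)) ^ r - 1) := by
  induction Q using Finset.induction_on with
  | empty =>
    intro r S Om _
    simp only [avs, PP, GG, HH, notMem_empty, false_imp_iff, implies_true, filter_true, card_range,
      prod_empty, mul_one, sub_self, abs_zero, sum_empty, Nat.cast_zero, mul_zero, add_zero,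
      one_pow]
    positivity
  | insert q Q hqQ ih =>
    have ih' := ih fun p hp => hQ p (mem_insert_of_mem hp)
    have hqp := hQ q (mem_insert_self _ _)
    have hq0 : 0 < q := hqp.pos
    have hq0' : (0 : ℝ) < q := by exact_mod_cast hq0
    intro r S Om hOm
    have hOmQ : ∀ p ∈ Q, Om p ⊆ range p := fun p hp => hOm p (mem_insert_of_mem hp)
    have hOmq := hOm q (mem_insert_self _ _)
    have hPQ := PP_mem Q Om (fun p hp => hQ p (mem_insert_of_mem hp)) hOmQ
    have hP := PP_mem (insert q Q) Om hQ hOm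
    cases r with
    | zero =>
      have h1 : ((avs (insert q Q) Om S).card : ℝ) ≤ S := by
        have : (avs (insert q Q) Om S).card ≤ (range S).card := card_filter_le _ _
        rw [card_range] at this
        exact_mod_cast this
      have h2 : (0 : ℝ) ≤ (avs (insert q Q) Om S).card := Nat.cast_nonneg _
      have h3 : (S : ℝ) * PP (insert q Q) Om ≤ S * 1 := by gcongr; exact hP.2
      have h4 : 0 ≤ (S : ℝ) * PP (insert q Q) Om := mul_nonneg (Nat.cast_nonneg _) hP.1
      simp only [pow_zero, Nat.factorial_zero, Nat.cast_one, div_one, mul_one, sub_self, add_zero]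
      rw [abs_le]
      constructor <;> linarith
    | succ r =>
      -- the decomposition
      have hdec : (avs (insert q Q) Om S).card + ∑ c ∈ Om q, (avs Q (tw Om c q) (nt S c q)).card =
          (avs Q Om S).card := by
        have h1 : avs (insert q Q) Om S = (avs Q Om S).filter (fun s => s % q ∉ Om q) := by
          unfold avs
          ext s
          simp only [mem_filter, mem_insert, forall_eq_or_imp]
          tauto
        have h2 : ∑ c ∈ Om q, (avs Q (tw Om c q) (nt S c q)).card =
            ((avs Q Om S).filter (fun s => s % q ∈ Om q)).card := by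
          rw [sum_congr rfl fun c hc => (avs_class Q Om S c q (mem_range.1 (hOmq hc))
            (fun p hp => (hQ p (mem_insert_of_mem hp)).pos)).symm]
          rw [card_eq_sum_card_fiberwise (f := fun s => s % q) (t := Om q)
            (s := (avs Q Om S).filter (fun s => s % q ∈ Om q))
            (fun s hs => mem_coe.2 (mem_filter.1 (mem_coe.1 hs)).2)]
          refine sum_congr rfl fun c hc => ?_
          congr 1
          ext s
          simp only [mem_filter]
          constructor
          · rintro ⟨h3, h4⟩; exact ⟨⟨h3, by rw [h4]; exact hc⟩, h4⟩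
          · rintro ⟨⟨h3, _⟩, h4⟩; exact ⟨h3, h4⟩
        rw [h1, h2, add_comm]
        exact card_filter_add_card_filter_not (s := avs Q Om S) (fun s => s % q ∈ Om q)
      have hcardtw : ∀ c, ∀ p ∈ Q, (tw Om c q p).card = (Om p).card := by
        intro c p hp
        have hpp := hQ p (mem_insert_of_mem hp)
        refine card_tw Om c q p hpp.pos ?_ (hOmQ p hp)
        exact (Nat.coprime_primes hqp hpp).2 fun h => hqQ (h ▸ hp)
      have hPt : ∀ c, PP Q (tw Om c q) = PP Q Om := fun c =>
        prod_congr rfl fun p hp => by rw [hcardtw c p hp]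
      have hGt : ∀ c, GG Q (tw Om c q) = GG Q Om := fun c =>
        sum_congr rfl fun p hp => by rw [hcardtw c p hp]
      have hHt : ∀ c, HH Q (tw Om c q) = HH Q Om := fun c =>
        sum_congr rfl fun p hp => by rw [hcardtw c p hp]
      set G := GG Q Om with hG
      set H := HH Q Om with hH
      set g : ℝ := ((Om q).card : ℝ) / q with hg
      have hg0 : 0 ≤ g := by positivity
      have hG0 : 0 ≤ G := by rw [hG]; exact sum_nonneg fun p _ => by positivity
      have hGH : G ≤ H := by
        rw [hG, hH, GG, HH]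
        push_cast
        refine sum_le_sum fun p hp => ?_
        have : (1 : ℝ) ≤ p := by exact_mod_cast (hQ p (mem_insert_of_mem hp)).one_lt.le
        exact div_le_self (Nat.cast_nonneg _) this
      have hGi : GG (insert q Q) Om = G + g := by
        rw [GG, sum_insert hqQ, add_comm]; rfl
      have hHi : (HH (insert q Q) Om : ℝ) = H + (Om q).card := by
        rw [HH, sum_insert hqQ, add_comm, Nat.cast_add, hH, HH]
      have hPi : PP (insert q Q) Om = (1 - g) * PP Q Om := by
        rw [PP, prod_insert hqQ]; rfl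
      have hmain : ((avs (insert q Q) Om S).card : ℝ) - S * PP (insert q Q) Om =
          ((avs Q Om S).card - S * PP Q Om) -
          ∑ c ∈ Om q, (((avs Q (tw Om c q) (nt S c q)).card : ℝ) - S / q * PP Q Om) := by
        have h1 : ((avs (insert q Q) Om S).card : ℝ) +
            ∑ c ∈ Om q, ((avs Q (tw Om c q) (nt S c q)).card : ℝ) = (avs Q Om S).card := by
          exact_mod_cast hdec
        rw [sum_sub_distrib, sum_const, nsmul_eq_mul, hPi, hg, ← h1]
        field_simp
        ring
      have hterm : ∀ c ∈ Om q, |((avs Q (tw Om c q) (nt S c q)).card : ℝ) - S / q * PP Q Om| ≤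
          S / q * (G ^ r / r.factorial) + (1 + 3 * (H : ℝ)) ^ r + H ^ r := by
        intro c hc
        have hcq := mem_range.1 (hOmq hc)
        have h1 := ih' r (nt S c q) (tw Om c q) (fun p _ => tw_subset Om c q p)
        rw [hPt, hGt, hHt] at h1
        have h2 := nt_le S c q hcq
        have h3 := le_nt S c q hcq
        have h4 : |(nt S c q : ℝ) * PP Q Om - S / q * PP Q Om| ≤ 1 := by
          rw [← sub_mul, abs_mul, abs_of_nonneg hPQ.1]
          have : |(nt S c q : ℝ) - S / q| ≤ 1 := by
            rw [abs_le]; constructor <;> linarith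
          calc |(nt S c q : ℝ) - S / q| * PP Q Om ≤ 1 * 1 :=
                mul_le_mul this hPQ.2 hPQ.1 zero_le_one
            _ = 1 := one_mul _
        have hGr : 0 ≤ G ^ r / r.factorial := by positivity
        have h5 : (nt S c q : ℝ) * (G ^ r / r.factorial) ≤
            S / q * (G ^ r / r.factorial) + H ^ r := by
          have h6 : G ^ r / r.factorial ≤ (H : ℝ) ^ r := by
            have h7 : (1 : ℝ) ≤ r.factorial := by exact_mod_cast Nat.one_le_iff_ne_zero.2 (Nat.factorial_ne_zero r)
            calc G ^ r / r.factorial ≤ G ^ r := div_le_self (by positivity) h7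
              _ ≤ (H : ℝ) ^ r := by gcongr
          calc (nt S c q : ℝ) * (G ^ r / r.factorial) ≤ (S / q + 1) * (G ^ r / r.factorial) := by
                gcongr
            _ ≤ _ := by linarith
        calc |((avs Q (tw Om c q) (nt S c q)).card : ℝ) - S / q * PP Q Om|
            = |(((avs Q (tw Om c q) (nt S c q)).card : ℝ) - nt S c q * PP Q Om) +
              (nt S c q * PP Q Om - S / q * PP Q Om)| := by ring_nf
          _ ≤ _ + _ := abs_add_le _ _
          _ ≤ ((nt S c q : ℝ) * (G ^ r / r.factorial) + ((1 + 3 * (H : ℝ)) ^ r - 1)) + 1 := by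
              linarith
          _ ≤ _ := by linarith
      have hsum : |∑ c ∈ Om q, (((avs Q (tw Om c q) (nt S c q)).card : ℝ) - S / q * PP Q Om)| ≤
          (Om q).card * (S / q * (G ^ r / r.factorial) + (1 + 3 * (H : ℝ)) ^ r + H ^ r) := by
        refine (abs_sum_le_sum_abs _ _).trans ?_
        refine (sum_le_sum hterm).trans (le_of_eq ?_)
        rw [sum_const, nsmul_eq_mul]
      have h0 := ih' (r + 1) S Om hOmQ
      rw [hmain, hGi, hHi]
      refine (abs_sub _ _).trans ?_
      refine (add_le_add h0 hsum).trans ?_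
      have hS0 : (0 : ℝ) ≤ S := Nat.cast_nonneg _
      have a1 := pow_add_ge G g hG0 hg0 r
      have a2 := pow_add_ge (1 + 3 * (H : ℝ)) (3 * (Om q).card) (by positivity) (by positivity) r
      have a3 : (H : ℝ) ^ r ≤ (1 + 3 * (H : ℝ)) ^ r := by
        have : (0 : ℝ) ≤ H := Nat.cast_nonneg _
        gcongr
        linarith
      have a4 : (0 : ℝ) ≤ (Om q).card := Nat.cast_nonneg _
      have e1 : (Om q).card * (S / q * (G ^ r / r.factorial)) = S * (g * G ^ r / r.factorial) := by
        rw [hg]; field_simp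
      have b1 : S * (G ^ (r + 1) / (r + 1).factorial) + S * (g * G ^ r / r.factorial) ≤
          S * ((G + g) ^ (r + 1) / (r + 1).factorial) := by
        rw [← mul_add]
        refine mul_le_mul_of_nonneg_left ?_ hS0
        have hf : ((r + 1).factorial : ℝ) = (r + 1) * r.factorial := by
          rw [Nat.factorial_succ]; push_cast; ring
        have hf0 : (0 : ℝ) < r.factorial := by exact_mod_cast Nat.factorial_pos r
        have e2 : g * G ^ r / r.factorial = ((r + 1) * g * G ^ r) / (r + 1).factorial := by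
          rw [hf]; field_simp
        rw [e2, ← add_div]
        gcongr
      have b2 : ((1 + 3 * (H : ℝ)) ^ (r + 1) - 1) +
          (Om q).card * ((1 + 3 * (H : ℝ)) ^ r + H ^ r) ≤
          (1 + 3 * (H + (Om q).card : ℝ)) ^ (r + 1) - 1 := by
        have e3 : (1 + 3 * (H + (Om q).card : ℝ)) = (1 + 3 * (H : ℝ)) + 3 * (Om q).card := by ring
        rw [e3]
        have c1 : ((Om q).card : ℝ) * ((1 + 3 * (H : ℝ)) ^ r + H ^ r) ≤
            (r + 1) * (3 * (Om q).card) * (1 + 3 * (H : ℝ)) ^ r := by
          have c2 : (0 : ℝ) ≤ (1 + 3 * (H : ℝ)) ^ r := by positivity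
          have c3 : (0 : ℝ) ≤ r := Nat.cast_nonneg _
          calc ((Om q).card : ℝ) * ((1 + 3 * (H : ℝ)) ^ r + H ^ r) ≤
              (Om q).card * ((1 + 3 * (H : ℝ)) ^ r + (1 + 3 * (H : ℝ)) ^ r) := by gcongr
            _ ≤ (r + 1) * (3 * (Om q).card) * (1 + 3 * (H : ℝ)) ^ r := by
              have : 0 ≤ ((Om q).card : ℝ) * (1 + 3 * (H : ℝ)) ^ r := by positivity
              nlinarith
        linarith
      have e4 : ((Om q).card : ℝ) * (S / q * (G ^ r / r.factorial) + (1 + 3 * (H : ℝ)) ^ r + H ^ r) =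
          (Om q).card * (S / q * (G ^ r / r.factorial)) +
          (Om q).card * ((1 + 3 * (H : ℝ)) ^ r + H ^ r) := by ring
      rw [e4, e1]
      linarith

end Pool.Agent.H532.UN
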