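import Mathlib
import Pool.Agent.H532.RM.Bin2

/-!
Factorial moments of the number of survivors.
-/

namespace Pool.Agent.H532.UN

open Finset MeasureTheory Function Pool.Agent.H532.RM
open scoped ENNReal

variable {ι : Type}

/-- the classes which remove a member of `T` -/
def UT (Om : ι → ℕ → Finset ℕ) (T : Finset ι) (p : ℕ) : Finset ℕ := T.biUnion (fun x => Om x p)

/-- The probability that no class of `U` is chosen. -/
lemma box_bound (ν : ℕ → Measure ℕ) [∀ p, IsProbabilityMeasure (ν p)] (U : ℕ → Finset ℕ)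
    (P : Finset ℕ) (hν : ∀ p ∈ P, UnifOn (ν p) p) (hP : ∀ p ∈ P, 0 < p)
    (hU : ∀ p ∈ P, U p ⊆ range p) : ∀ x : ℕ → ℕ,
    lmarginal ν P (fun a => if ∀ p ∈ P, a p ∉ U p then (1 : ℝ≥0∞) else 0) x ≤
      ENNReal.ofReal (Real.exp (-(∑ p ∈ P, ((U p).card : ℝ) / p))) := by
  induction P using Finset.induction_on with
  | empty => intro x; simp
  | insert p P hp ih =>
    intro x
    have ih' := ih (fun q hq => hν q (mem_insert_of_mem hq))
      (fun q hq => hP q (mem_insert_of_mem hq)) (fun q hq => hU q (mem_insert_of_mem hq))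
    have hp0 := hP p (mem_insert_self _ _)
    have hp0' : (0 : ℝ) < p := by exact_mod_cast hp0
    have hUp := hU p (mem_insert_self _ _)
    have hm : Measurable (fun a : ℕ → ℕ =>
        if ∀ q ∈ insert p P, a q ∉ U q then (1 : ℝ≥0∞) else 0) := by
      have hd : DepOn (insert p P) (fun a : ℕ → ℕ =>
        if ∀ q ∈ insert p P, a q ∉ U q then (1 : ℝ≥0∞) else 0) := by
        intro a b hab
        have : (∀ q ∈ insert p P, a q ∉ U q) ↔ (∀ q ∈ insert p P, b q ∉ U q) :=
          forall₂_congr fun q hq => by rw [hab q hq]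
        simp only [this]
      exact hd.measurable
    rw [lmarginal_insert _ hm hp x, hν p (mem_insert_self _ _)]
    set E : ℝ := Real.exp (-(∑ q ∈ P, ((U q).card : ℝ) / q)) with hE
    have hE0 : 0 ≤ E := (Real.exp_pos _).le
    have hr : ∀ r ∈ range p, lmarginal ν P (fun a =>
        if ∀ q ∈ insert p P, a q ∉ U q then (1 : ℝ≥0∞) else 0) (update x p r) ≤
        if r ∈ U p then 0 else ENNReal.ofReal E := by
      intro r _
      have hpr : ∀ y : P → ℕ, updateFinset (update x p r) P y p = r := by
        intro y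
        rw [updateFinset_def]; simp [hp]
      split_ifs with h
      · unfold lmarginal
        have : ∀ y : P → ℕ, (if ∀ q ∈ insert p P, updateFinset (update x p r) P y q ∉ U q
            then (1 : ℝ≥0∞) else 0) = 0 := by
          intro y
          rw [if_neg]
          intro h2
          have := h2 p (mem_insert_self _ _)
          rw [hpr y] at this
          exact this h
        rw [lintegral_congr this, lintegral_zero]
      · refine le_trans (le_of_eq ?_) (ih' (update x p r))
        unfold lmarginal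
        refine lintegral_congr fun y => ?_
        have : (∀ q ∈ insert p P, updateFinset (update x p r) P y q ∉ U q) ↔
            (∀ q ∈ P, updateFinset (update x p r) P y q ∉ U q) := by
          rw [forall_mem_insert]
          constructor
          · exact fun h => h.2
          · intro h2
            exact ⟨by rw [hpr y]; exact h, h2⟩
        simp only [this]
    have hcard : ∑ r ∈ range p, (if r ∈ U p then (0 : ℝ≥0∞) else ENNReal.ofReal E) =
        ENNReal.ofReal ((p - (U p).card) * E) := by
      rw [sum_ite, sum_const_zero, zero_add, sum_const, nsmul_eq_mul]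
      have h1 : (range p).filter (fun r => r ∉ U p) = range p \ U p := by
        ext r; simp
      have h2 : (range p \ U p).card = p - (U p).card := by
        rw [card_sdiff_of_subset hUp, card_range]
      have h3 : (U p).card ≤ p := by
        have := card_le_card hUp
        rwa [card_range] at this
      rw [h1, h2, ← ENNReal.ofReal_natCast, ← ENNReal.ofReal_mul (Nat.cast_nonneg _)]
      rw [Nat.cast_sub h3]
    calc (∑ r ∈ range p, lmarginal ν P (fun a =>
        if ∀ q ∈ insert p P, a q ∉ U q then (1 : ℝ≥0∞) else 0) (update x p r)) / p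
        ≤ (∑ r ∈ range p, (if r ∈ U p then (0 : ℝ≥0∞) else ENNReal.ofReal E)) / p := by
          gcongr with r hr'
          exact hr r hr'
      _ = ENNReal.ofReal ((p - (U p).card) * E / p) := by
          rw [hcard, ENNReal.ofReal_div_of_pos hp0', ENNReal.ofReal_natCast]
      _ ≤ ENNReal.ofReal (Real.exp (-(∑ q ∈ insert p P, ((U q).card : ℝ) / q))) := by
          refine ENNReal.ofReal_le_ofReal ?_
          rw [sum_insert hp, neg_add, Real.exp_add, ← hE]
          have h1 := Real.add_one_le_exp (-(((U p).card : ℝ) / p))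
          have h2 : (p - ((U p).card : ℝ)) * E / p = (-(((U p).card : ℝ) / p) + 1) * E := by
            field_simp; ring
          rw [h2]
          gcongr

lemma subset_surv_iff [DecidableEq ι] (Om : ι → ℕ → Finset ℕ) (P : Finset ℕ) (a : ℕ → ℕ) (S T : Finset ι)
    (hT : T ⊆ S) : T ⊆ surv Om P a S ↔ ∀ p ∈ P, a p ∉ UT Om T p := by
  unfold surv UT
  constructor
  · intro h p hp h1
    obtain ⟨x, hx, h2⟩ := mem_biUnion.1 h1
    exact (mem_filter.1 (h hx)).2 p hp h2
  · intro h x hx
    exact mem_filter.2 ⟨hT hx, fun p hp h1 => h p hp (mem_biUnion.2 ⟨x, hx, h1⟩)⟩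

/-- Upper tail of the number of the survivors by factorial moments. -/
theorem fact_tail [DecidableEq ι] (ν : ℕ → Measure ℕ) [∀ p, IsProbabilityMeasure (ν p)]
    (Om : ι → ℕ → Finset ℕ) (P : Finset ℕ) (hν : ∀ p ∈ P, UnifOn (ν p) p) (hP : ∀ p ∈ P, 0 < p)
    (S : Finset ι) (hOm : ∀ x ∈ S, ∀ p ∈ P, Om x p ⊆ range p) (q : ℕ) (hq : 1 ≤ q) (s e0 : ℝ)
    (hT : ∀ T ⊆ S, T.card = q → q * s - e0 ≤ ∑ p ∈ P, ((UT Om T p).card : ℝ) / p) (b : ℝ)
    (hb : q + 2 * (S.card * Real.exp (-s)) ≤ b) (x : ℕ → ℕ) :
    lmarginal ν P (fun a => if b ≤ ((surv Om P a S).card : ℝ) then (1 : ℝ≥0∞) else 0) x ≤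
      ENNReal.ofReal (Real.exp e0 * (1 / 2) ^ q) := by
  have hq' : (1 : ℝ) ≤ q := by exact_mod_cast hq
  rcases S.eq_empty_or_nonempty with rfl | hS
  · have h1 : ∀ a : ℕ → ℕ, (if b ≤ ((surv Om P a (∅ : Finset ι)).card : ℝ) then (1 : ℝ≥0∞) else 0) = 0 := by
      intro a
      rw [if_neg]
      simp only [surv, filter_empty, card_empty, Nat.cast_zero, not_le]
      simp only [card_empty, Nat.cast_zero, zero_mul, mul_zero, add_zero] at hb
      linarith
    unfold lmarginal
    rw [lintegral_congr fun y => h1 (updateFinset x P y), lintegral_zero]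
    exact zero_le
  set lam : ℝ := S.card * Real.exp (-s) with hlam
  have hc0 : (0 : ℝ) < S.card := by exact_mod_cast hS.card_pos
  have hlam0 : 0 < lam := by rw [hlam]; positivity
  set c : ℝ := q.factorial / (2 * lam) ^ q with hc
  have hf0 : (0 : ℝ) < q.factorial := by exact_mod_cast Nat.factorial_pos q
  have hc1 : 0 < c := by rw [hc]; positivity
  have hpt : ∀ a : ℕ → ℕ, (if b ≤ ((surv Om P a S).card : ℝ) then (1 : ℝ≥0∞) else 0) ≤
      ENNReal.ofReal c * ∑ T ∈ powersetCard q S,
        (if ∀ p ∈ P, a p ∉ UT Om T p then (1 : ℝ≥0∞) else 0) := by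
    intro a
    split_ifs with h
    · set n := (surv Om P a S).card with hn
      have h1 : ∑ T ∈ powersetCard q S,
          (if ∀ p ∈ P, a p ∉ UT Om T p then (1 : ℝ≥0∞) else 0) = (n.choose q : ℕ) := by
        rw [← sum_filter, sum_const, nsmul_eq_mul, mul_one]
        congr 1
        have h2 : (powersetCard q S).filter (fun T => ∀ p ∈ P, a p ∉ UT Om T p) =
            powersetCard q (surv Om P a S) := by
          ext T
          rw [mem_filter, mem_powersetCard, mem_powersetCard]
          constructor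
          · rintro ⟨⟨h3, h4⟩, h5⟩
            exact ⟨(subset_surv_iff Om P a S T h3).2 h5, h4⟩
          · rintro ⟨h3, h4⟩
            have h6 : T ⊆ S := h3.trans (filter_subset _ _)
            exact ⟨⟨h6, h4⟩, (subset_surv_iff Om P a S T h6).1 h3⟩
        rw [h2, card_powersetCard]
      rw [h1, ← ENNReal.ofReal_natCast, ← ENNReal.ofReal_mul hc1.le, ENNReal.one_le_ofReal]
      have hnb : (q : ℝ) + 2 * lam ≤ n := hb.trans h
      have hqn : q ≤ n := by
        have : (q : ℝ) ≤ n := by linarith
        exact_mod_cast this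
      have h3 : (n + 1 - q) ^ q ≤ n.descFactorial q := Nat.pow_sub_le_descFactorial n q
      have h4 : n.descFactorial q = q.factorial * n.choose q := Nat.descFactorial_eq_factorial_mul_choose n q
      have h5 : (2 * lam) ^ q ≤ q.factorial * (n.choose q : ℝ) := by
        calc (2 * lam) ^ q ≤ ((n + 1 - q : ℕ) : ℝ) ^ q := by
              have : 2 * lam ≤ ((n + 1 - q : ℕ) : ℝ) := by
                rw [Nat.cast_sub (by omega)]
                push_cast
                linarith
              gcongr
          _ ≤ (n.descFactorial q : ℝ) := by exact_mod_cast h3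
          _ = _ := by rw [h4]; push_cast; ring
      rw [hc, div_mul_eq_mul_div, le_div_iff₀ (by positivity), one_mul]
      exact h5
    · exact zero_le
  have hms : ∀ T, Measurable (fun a : ℕ → ℕ => if ∀ p ∈ P, a p ∉ UT Om T p then (1 : ℝ≥0∞) else 0) := by
    intro T
    have hd : DepOn P (fun a : ℕ → ℕ => if ∀ p ∈ P, a p ∉ UT Om T p then (1 : ℝ≥0∞) else 0) := by
      intro a b hab
      have : (∀ p ∈ P, a p ∉ UT Om T p) ↔ (∀ p ∈ P, b p ∉ UT Om T p) :=
        forall₂_congr fun p hp => by rw [hab p hp]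
      simp only [this]
    exact hd.measurable
  have hup : Measurable (fun y : (i : P) → ℕ => updateFinset x P y) := measurable_updateFinset
  calc lmarginal ν P (fun a => if b ≤ ((surv Om P a S).card : ℝ) then (1 : ℝ≥0∞) else 0) x
      ≤ lmarginal ν P (fun a => ENNReal.ofReal c * ∑ T ∈ powersetCard q S,
        (if ∀ p ∈ P, a p ∉ UT Om T p then (1 : ℝ≥0∞) else 0)) x := lmarginal_mono hpt x
    _ = ENNReal.ofReal c * ∑ T ∈ powersetCard q S, lmarginal ν P (fun a =>
        if ∀ p ∈ P, a p ∉ UT Om T p then (1 : ℝ≥0∞) else 0) x := by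
        unfold lmarginal
        rw [lintegral_const_mul, lintegral_finsetSum]
        · intro T _
          exact (hms T).comp hup
        · exact (Finset.measurable_sum _ fun T _ => hms T).comp hup
    _ ≤ ENNReal.ofReal c * ∑ T ∈ powersetCard q S, ENNReal.ofReal (Real.exp (-(q * s - e0))) := by
        gcongr with T hT'
        obtain ⟨h1, h2⟩ := mem_powersetCard.1 hT'
        refine (box_bound ν (UT Om T) P hν hP (fun p hp => ?_) x).trans
          (ENNReal.ofReal_le_ofReal (Real.exp_le_exp.2 (neg_le_neg (hT T h1 h2))))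
        intro r hr
        obtain ⟨y, hy, h3⟩ := mem_biUnion.1 hr
        exact hOm y (h1 hy) p hp h3
    _ = ENNReal.ofReal (c * ((S.card.choose q : ℕ) * Real.exp (-(q * s - e0)))) := by
        rw [sum_const, card_powersetCard, nsmul_eq_mul, ENNReal.ofReal_mul hc1.le,
          ENNReal.ofReal_mul (Nat.cast_nonneg _), ENNReal.ofReal_natCast]
    _ ≤ ENNReal.ofReal (Real.exp e0 * (1 / 2) ^ q) := by
        refine ENNReal.ofReal_le_ofReal ?_
        have h1 : ((S.card.choose q : ℕ) : ℝ) ≤ (S.card : ℝ) ^ q / q.factorial :=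
          Nat.choose_le_pow_div q S.card
        have h2 : Real.exp (-(q * s - e0)) = Real.exp e0 * Real.exp (-s) ^ q := by
          rw [← Real.exp_nat_mul, ← Real.exp_add]; congr 1; ring
        calc c * ((S.card.choose q : ℕ) * Real.exp (-(q * s - e0)))
            ≤ c * ((S.card : ℝ) ^ q / q.factorial * Real.exp (-(q * s - e0))) := by gcongr
          _ = Real.exp e0 * ((S.card * Real.exp (-s)) ^ q / (2 * lam) ^ q) := by
              rw [h2, hc, mul_pow]
              field_simp
              rw [mul_pow]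
          _ = Real.exp e0 * (1 / 2) ^ q := by
              rw [← hlam, ← div_pow]
              have : lam / (2 * lam) = 1 / 2 := by field_simp
              rw [this]

/-- Coincidences modulo `p`. -/
lemma card_image_ge (E : Finset ℕ) (f : ℕ → ℕ) : E.card ≤ (E.image f).card +
    ((E ×ˢ E).filter (fun e => e.1 < e.2 ∧ f e.1 = f e.2)).card := by
  set E1 := E.filter (fun e => ∀ e' ∈ E, e' < e → f e' ≠ f e) with hE1
  set E2 := E.filter (fun e => ¬ ∀ e' ∈ E, e' < e → f e' ≠ f e) with hE2
  have h0 : E.card = E1.card + E2.card := (card_filter_add_card_filter_not _).symm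
  have h1 : E1.card ≤ (E.image f).card := by
    refine card_le_card_of_injOn f (fun e he => mem_coe.2 (mem_image_of_mem f (mem_filter.1 (mem_coe.1 he)).1)) ?_
    intro e he e' he' h
    have a1 := mem_filter.1 (mem_coe.1 he)
    have a2 := mem_filter.1 (mem_coe.1 he')
    rcases lt_trichotomy e e' with h2 | h2 | h2
    · exact absurd h (a2.2 e a1.1 h2)
    · exact h2
    · exact absurd h.symm (a1.2 e' a2.1 h2)
  have h2 : E2.card ≤ ((E ×ˢ E).filter (fun e => e.1 < e.2 ∧ f e.1 = f e.2)).card := by
    have h3 : E2 ⊆ ((E ×ˢ E).filter (fun e => e.1 < e.2 ∧ f e.1 = f e.2)).image Prod.snd := by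
      intro e he
      obtain ⟨a1, a2⟩ := mem_filter.1 he
      push Not at a2
      obtain ⟨e', b1, b2, b3⟩ := a2
      exact mem_image.2 ⟨(e', e), mem_filter.2 ⟨mem_product.2 ⟨b1, a1⟩, b2, b3⟩, rfl⟩
    exact (card_le_card h3).trans card_image_le
  omega

lemma coll_sum {P : Finset ℕ} {W J : ℕ} (hW : 0 < W) (hP : ∀ p ∈ P, p.Prime ∧ W < p)
    (E : ℕ → Finset ℕ) (E0 : Finset ℕ) (hE : ∀ p ∈ P, E p ⊆ E0) (hJ : ∀ e ∈ E0, e < 2 ^ J) :
    ∑ p ∈ P, ((E p).card : ℝ) / p - (E0.card : ℝ) ^ 2 * J / W ≤
      ∑ p ∈ P, (((E p).image (· % p)).card : ℝ) / p := by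
  have hW' : (0 : ℝ) < W := by exact_mod_cast hW
  set C : ℕ → ℕ := fun p => ((E0 ×ˢ E0).filter (fun e => e.1 < e.2 ∧ e.1 % p = e.2 % p)).card
    with hC
  have h1 : ∀ p ∈ P, ((E p).card : ℝ) / p ≤ (((E p).image (· % p)).card : ℝ) / p + C p / W := by
    intro p hp
    have hp0 : (0 : ℝ) < p := by exact_mod_cast (hP p hp).1.pos
    have hWp : (W : ℝ) ≤ p := by exact_mod_cast (hP p hp).2.le
    have h2 := card_image_ge (E p) (· % p)
    have h3 : ((E p ×ˢ E p).filter (fun e => e.1 < e.2 ∧ e.1 % p = e.2 % p)).card ≤ C p :=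
      card_le_card (filter_subset_filter _ (product_subset_product (hE p hp) (hE p hp)))
    have h4 : ((E p).card : ℝ) ≤ ((E p).image (· % p)).card + C p := by
      exact_mod_cast h2.trans (Nat.add_le_add_left h3 _)
    calc ((E p).card : ℝ) / p ≤ (((E p).image (· % p)).card + C p) / p := by gcongr
      _ = (((E p).image (· % p)).card : ℝ) / p + C p / p := add_div _ _ _
      _ ≤ _ := by gcongr
  have h2 : ∑ p ∈ P, C p ≤ E0.card ^ 2 * J := by
    rw [hC]
    have h3 : ∑ p ∈ P, ((E0 ×ˢ E0).filter (fun e => e.1 < e.2 ∧ e.1 % p = e.2 % p)).card =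
        ∑ e ∈ E0 ×ˢ E0, (P.filter (fun p => e.1 < e.2 ∧ e.1 % p = e.2 % p)).card := by
      simp only [card_filter]
      exact sum_comm
    rw [h3]
    calc ∑ e ∈ E0 ×ˢ E0, (P.filter (fun p => e.1 < e.2 ∧ e.1 % p = e.2 % p)).card
        ≤ ∑ e ∈ E0 ×ˢ E0, J := by
          refine sum_le_sum fun e he => ?_
          obtain ⟨he1, he2⟩ := mem_product.1 he
          rcases Nat.lt_or_ge e.1 e.2 with h | h
          · refine le_trans (card_le_card ?_) (card_primes_dvd (fun p hp => (hP p hp).1)
              (d := e.2 - e.1) (J := J) (by omega) (by have := hJ _ he2; omega))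
            intro p hp
            obtain ⟨h4, _, h5⟩ := mem_filter.1 hp
            exact mem_filter.2 ⟨h4, (Nat.modEq_iff_dvd' h.le).1 h5⟩
          · have : P.filter (fun p => e.1 < e.2 ∧ e.1 % p = e.2 % p) = ∅ := by
              refine filter_eq_empty_iff.2 fun p _ h6 => ?_
              omega
            rw [this]; simp
      _ = E0.card ^ 2 * J := by rw [sum_const, card_product, smul_eq_mul, sq]
  have h3 : ∑ p ∈ P, ((E p).card : ℝ) / p ≤
      ∑ p ∈ P, (((E p).image (· % p)).card : ℝ) / p + (∑ p ∈ P, C p : ℕ) / W := by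
    calc ∑ p ∈ P, ((E p).card : ℝ) / p ≤
        ∑ p ∈ P, ((((E p).image (· % p)).card : ℝ) / p + C p / W) := sum_le_sum h1
      _ = _ := by rw [sum_add_distrib, ← sum_div]; push_cast; rfl
  have h4 : ((∑ p ∈ P, C p : ℕ) : ℝ) / W ≤ (E0.card : ℝ) ^ 2 * J / W := by
    have : ((∑ p ∈ P, C p : ℕ) : ℝ) ≤ (E0.card : ℝ) ^ 2 * J := by exact_mod_cast h2
    gcongr
  linarith

end Pool.Agent.H532.UN
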