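import Mathlib
import Pool.Agent.H532.UN.Fact

/-!
The number of survivors as a martingale: lower tail under bounds for the random residue classes.
-/

namespace Pool.Agent.H532.UN

open Finset MeasureTheory Function Pool.Agent.H532.RM
open scoped ENNReal

variable {ι : Type}

/-- the survivors of the primes below `p` -/
def sb (Om : ι → ℕ → Finset ℕ) (P : Finset ℕ) (a : ℕ → ℕ) (S : Finset ι) (p : ℕ) : Finset ι :=
  surv Om (P.filter (· < p)) a S

/-- the number of those which the class `r` modulo `p` removes -/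
noncomputable def Kp (Om : ι → ℕ → Finset ℕ) (P : Finset ℕ) (a : ℕ → ℕ) (S : Finset ι)
    (p r : ℕ) : ℝ := (((sb Om P a S p).filter (fun n => r ∈ Om n p)).card : ℝ)

/-- `∏ (1 - κ / q)` over `q ≤ p` -/
noncomputable def rp (κ : ℕ) (P : Finset ℕ) (p : ℕ) : ℝ := rho κ (P.filter (· ≤ p))

/-- the increment -/
noncomputable def Dp (Om : ι → ℕ → Finset ℕ) (κ : ℕ) (P : Finset ℕ) (a : ℕ → ℕ) (S : Finset ι)
    (p r : ℕ) : ℝ := (κ / p * ((sb Om P a S p).card : ℝ) - Kp Om P a S p r) / rp κ P p

/-- the classes modulo `p` are not too large -/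
def Gd (Om : ι → ℕ → Finset ℕ) (κ : ℕ) (P : Finset ℕ) (c : ℕ → ℝ) (a : ℕ → ℕ) (S : Finset ι)
    (p : ℕ) : Prop := ∀ r ∈ range p, Kp Om P a S p r ≤ c p * rp κ P p

open Classical in
/-- the truncated martingale -/
noncomputable def Fp (Om : ι → ℕ → Finset ℕ) (κ : ℕ) (P : Finset ℕ) (c : ℕ → ℝ) (a : ℕ → ℕ)
    (S : Finset ι) : ℝ := ∑ p ∈ P, if Gd Om κ P c a S p then Dp Om κ P a S p (a p) else 0

lemma surv_congr (Om : ι → ℕ → Finset ℕ) (P : Finset ℕ) (a b : ℕ → ℕ) (S : Finset ι)
    (h : ∀ p ∈ P, a p = b p) : surv Om P a S = surv Om P b S := by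
  unfold surv
  refine filter_congr fun n _ => forall₂_congr fun p hp => by rw [h p hp]

lemma sb_insert (Om : ι → ℕ → Finset ℕ) (P : Finset ℕ) (a : ℕ → ℕ) (S : Finset ι) (p q : ℕ)
    (hp : ∀ x ∈ P, x < p) (hq : q ≤ p) : sb Om (insert p P) a S q = sb Om P a S q := by
  unfold sb
  congr 1
  ext x
  simp only [mem_filter, mem_insert]
  constructor
  · rintro ⟨rfl | h, h2⟩
    · omega
    · exact ⟨h, h2⟩
  · rintro ⟨h, h2⟩; exact ⟨Or.inr h, h2⟩

lemma sb_top (Om : ι → ℕ → Finset ℕ) (P : Finset ℕ) (a : ℕ → ℕ) (S : Finset ι) (p : ℕ)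
    (hp : ∀ x ∈ P, x < p) : sb Om P a S p = surv Om P a S := by
  unfold sb
  congr 1
  exact filter_true_of_mem hp

lemma rp_insert_lt (κ : ℕ) (P : Finset ℕ) (p q : ℕ) (hq : q < p) :
    rp κ (insert p P) q = rp κ P q := by
  unfold rp
  congr 1
  ext x
  simp only [mem_filter, mem_insert]
  constructor
  · rintro ⟨rfl | h, h2⟩
    · omega
    · exact ⟨h, h2⟩
  · rintro ⟨h, h2⟩; exact ⟨Or.inr h, h2⟩

lemma rp_top (κ : ℕ) (P : Finset ℕ) (p : ℕ) (hp : ∀ x ∈ P, x < p) :
    rp κ (insert p P) p = (1 - (κ : ℝ) / p) * rho κ P := by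
  unfold rp
  have hpn : p ∉ P := fun h => lt_irrefl _ (hp p h)
  rw [← rho_insert κ hpn]
  congr 1
  refine filter_true_of_mem fun x hx => ?_
  rcases mem_insert.1 hx with rfl | h
  · exact le_rfl
  · exact (hp x h).le

/-- telescoping -/
lemma telescope (Om : ι → ℕ → Finset ℕ) (κ : ℕ) (P : Finset ℕ) (a : ℕ → ℕ) (S : Finset ι) :
    (∀ p ∈ P, 0 < p ∧ 4 * κ ≤ p) →
    ((surv Om P a S).card : ℝ) / rho κ P = S.card + ∑ p ∈ P, Dp Om κ P a S p (a p) := by
  induction P using Finset.induction_on_max with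
  | empty => intro _; simp [surv, rho]
  | insert p P hp ih =>
    intro hbig
    have hpn : p ∉ P := fun h => lt_irrefl _ (hp p h)
    have hb' : ∀ q ∈ P, 0 < q ∧ 4 * κ ≤ q := fun q hq => hbig q (mem_insert_of_mem hq)
    have hbp := hbig p (mem_insert_self _ _)
    have h1 : ∑ q ∈ insert p P, Dp Om κ (insert p P) a S q (a q) =
        Dp Om κ (insert p P) a S p (a p) + ∑ q ∈ P, Dp Om κ P a S q (a q) := by
      rw [sum_insert hpn]
      congr 1
      refine sum_congr rfl fun q hq => ?_
      unfold Dp Kp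
      rw [sb_insert Om P a S p q hp (hp q hq).le, rp_insert_lt κ P p q (hp q hq)]
    have h2 : ((surv Om (insert p P) a S).card : ℝ) =
        (surv Om P a S).card - Kp Om (insert p P) a S p (a p) := by
      unfold Kp
      rw [sb_insert Om P a S p p hp le_rfl, sb_top Om P a S p hp, ← card_split Om p (a p)]
      congr 2
      unfold surv
      ext n
      simp only [mem_filter, mem_insert, forall_eq_or_imp]
      tauto
    rw [h1, h2, ← add_assoc, add_comm (S.card : ℝ), add_assoc, ← ih hb', rho_insert κ hpn]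
    unfold Dp
    rw [rp_top κ P p hp, sb_insert Om P a S p p hp le_rfl, sb_top Om P a S p hp]
    have hρ := rho_pos κ P hb'
    have hp0 : (0 : ℝ) < p := by exact_mod_cast hbp.1
    have hk : 0 < 1 - (κ : ℝ) / p := by
      rw [sub_pos, div_lt_one hp0]
      have h3 : (4 * κ : ℝ) ≤ p := by exact_mod_cast hbp.2
      have h4 : (0 : ℝ) ≤ κ := Nat.cast_nonneg _
      rcases h4.eq_or_lt with h0 | h0
      · rw [← h0]; exact hp0
      · linarith
    generalize (κ : ℝ) / p = t at hk ⊢
    generalize rho κ P = u at hρ ⊢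
    field_simp
    ring

/-- one step -/
lemma mart_step (p : ℕ) (hp : 0 < p) (A c θ : ℝ) (hθ : 0 ≤ θ) (hθc : θ * c ≤ 1)
    (X : ℕ → ℝ) (h0 : ∀ r ∈ range p, 0 ≤ X r) (h1 : ∀ r ∈ range p, X r ≤ c)
    (hs : ∑ r ∈ range p, X r = p * A) :
    ∑ r ∈ range p, Real.exp (-(θ * (A - X r))) ≤ p * Real.exp (θ ^ 2 * c ^ 2) := by
  have hp' : (0 : ℝ) < p := by exact_mod_cast hp
  have hA0 : 0 ≤ A := by
    have : 0 ≤ (p : ℝ) * A := by rw [← hs]; exact sum_nonneg h0
    exact nonneg_of_mul_nonneg_right this hp'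
  have hAc : A ≤ c := by
    have : (p : ℝ) * A ≤ p * c := by
      rw [← hs]
      refine (sum_le_sum h1).trans ?_
      rw [sum_const, card_range, nsmul_eq_mul]
    exact le_of_mul_le_mul_left this hp'
  have hterm : ∀ r ∈ range p, Real.exp (-(θ * (A - X r))) ≤
      1 - θ * (A - X r) + θ ^ 2 * c ^ 2 := by
    intro r hr
    have h2 : |A - X r| ≤ c := by
      rw [abs_le]; constructor
      · have := h1 r hr; linarith
      · have := h0 r hr; linarith
    have h3 : |-(θ * (A - X r))| ≤ 1 := by
      rw [abs_neg, abs_mul, abs_of_nonneg hθ]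
      exact (mul_le_mul_of_nonneg_left h2 hθ).trans hθc
    have h4 := Real.abs_exp_sub_one_sub_id_le h3
    have h5 := (abs_le.1 h4).2
    have h6 : (-(θ * (A - X r))) ^ 2 ≤ θ ^ 2 * c ^ 2 := by
      have : (-(θ * (A - X r))) ^ 2 = θ ^ 2 * (A - X r) ^ 2 := by ring
      rw [this]
      have h7 : (A - X r) ^ 2 ≤ c ^ 2 := sq_le_sq' (by linarith [(abs_le.1 h2).1]) (abs_le.1 h2).2
      gcongr
    linarith
  refine (sum_le_sum hterm).trans ?_
  have h5 : ∑ r ∈ range p, (1 - θ * (A - X r) + θ ^ 2 * c ^ 2) = p * (1 + θ ^ 2 * c ^ 2) := by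
    rw [sum_add_distrib, sum_sub_distrib, ← mul_sum, sum_sub_distrib, hs]
    simp only [sum_const, card_range, nsmul_eq_mul, mul_one, sub_self, mul_zero]
    ring
  rw [h5]
  have := Real.add_one_le_exp (θ ^ 2 * c ^ 2)
  have h6 : (1 + θ ^ 2 * c ^ 2) ≤ Real.exp (θ ^ 2 * c ^ 2) := by linarith
  gcongr

lemma dep_Fp (Om : ι → ℕ → Finset ℕ) (κ : ℕ) (P : Finset ℕ) (c : ℕ → ℝ) (S : Finset ι) :
    DepOn P (fun a => Fp Om κ P c a S) := by
  intro a b hab
  unfold Fp
  refine sum_congr rfl fun p hp => ?_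
  have h1 : sb Om P a S p = sb Om P b S p :=
    surv_congr Om _ a b S fun q hq => hab q (mem_filter.1 hq).1
  unfold Gd Dp Kp
  rw [h1, hab p hp]

lemma sum_Kp (Om : ι → ℕ → Finset ℕ) (κ : ℕ) (P : Finset ℕ) (a : ℕ → ℕ) (S : Finset ι) (p : ℕ)
    (hOm : ∀ n ∈ S, Om n p ⊆ range p ∧ (Om n p).card = κ) :
    ∑ r ∈ range p, Kp Om P a S p r = κ * (sb Om P a S p).card := by
  unfold Kp
  exact sum_hit Om p κ _ fun n hn => hOm n (mem_filter.1 hn).1

/-- The exponential moment of the truncated martingale. -/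
theorem mart_mgf (ν : ℕ → Measure ℕ) [∀ p, IsProbabilityMeasure (ν p)]
    (Om : ι → ℕ → Finset ℕ) (κ : ℕ) (c : ℕ → ℝ) (θ : ℝ) (hθ : 0 ≤ θ) (S : Finset ι)
    (P : Finset ℕ) :
    (∀ p ∈ P, UnifOn (ν p) p) → (∀ p ∈ P, 0 < p ∧ 4 * κ ≤ p) → (∀ p ∈ P, θ * c p ≤ 1) →
    (∀ n ∈ S, ∀ p ∈ P, Om n p ⊆ range p ∧ (Om n p).card = κ) → ∀ x : ℕ → ℕ,
    lmarginal ν P (fun a => ENNReal.ofReal (Real.exp (-(θ * Fp Om κ P c a S)))) x ≤
      ENNReal.ofReal (Real.exp (θ ^ 2 * ∑ p ∈ P, c p ^ 2)) := by
  classical
  induction P using Finset.induction_on_max with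
  | empty => intro _ _ _ _ x; simp [Fp]
  | insert p P hp ih =>
    intro hν hbig hc hOm x
    have hpn : p ∉ P := fun h => lt_irrefl _ (hp p h)
    have hbp := hbig p (mem_insert_self _ _)
    have hp0 : (0 : ℝ) < p := by exact_mod_cast hbp.1
    have ih' := ih (fun q hq => hν q (mem_insert_of_mem hq))
      (fun q hq => hbig q (mem_insert_of_mem hq)) (fun q hq => hc q (mem_insert_of_mem hq))
      (fun n hn q hq => hOm n hn q (mem_insert_of_mem hq))
    have hm : Measurable (fun a : ℕ → ℕ =>
        ENNReal.ofReal (Real.exp (-(θ * Fp Om κ (insert p P) c a S)))) := by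
      have hd : DepOn (insert p P) (fun a : ℕ → ℕ =>
        ENNReal.ofReal (Real.exp (-(θ * Fp Om κ (insert p P) c a S)))) := by
        intro a b hab
        have := dep_Fp Om κ (insert p P) c S a b hab
        simp only at this ⊢
        rw [this]
      exact hd.measurable
    rw [lmarginal_insert' _ hm hpn]
    have hinner : ∀ a : ℕ → ℕ, ∫⁻ r, ENNReal.ofReal (Real.exp (-(θ *
        Fp Om κ (insert p P) c (update a p r) S))) ∂(ν p) ≤
        ENNReal.ofReal (Real.exp (θ ^ 2 * c p ^ 2)) *
          ENNReal.ofReal (Real.exp (-(θ * Fp Om κ P c a S))) := by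
      intro a
      rw [hν p (mem_insert_self _ _)]
      have hsame : ∀ r q, q ≤ p → sb Om (insert p P) (update a p r) S q = sb Om P a S q := by
        intro r q hq
        rw [sb_insert Om P _ S p q hp hq]
        refine surv_congr Om _ _ _ S fun y hy => ?_
        have : y ≠ p := fun h => hpn (h ▸ (mem_filter.1 hy).1)
        rw [update_of_ne this]
      have hF : ∀ r, Fp Om κ (insert p P) c (update a p r) S = Fp Om κ P c a S +
          (if Gd Om κ (insert p P) c a S p then Dp Om κ (insert p P) a S p r else 0) := by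
        intro r
        unfold Fp
        rw [sum_insert hpn, add_comm]
        congr 1
        · refine sum_congr rfl fun q hq => ?_
          have hqp := hp q hq
          have hne : q ≠ p := hqp.ne
          have e1 : Gd Om κ (insert p P) c (update a p r) S q ↔ Gd Om κ P c a S q := by
            unfold Gd Kp
            rw [hsame r q hqp.le, rp_insert_lt κ P p q hqp]
          have e2 : Dp Om κ (insert p P) (update a p r) S q (update a p r q) =
              Dp Om κ P a S q (a q) := by
            unfold Dp Kp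
            rw [hsame r q hqp.le, rp_insert_lt κ P p q hqp, update_of_ne hne]
          rw [e2]
          simp only [e1]
        · have e1 : Gd Om κ (insert p P) c (update a p r) S p ↔ Gd Om κ (insert p P) c a S p := by
            unfold Gd Kp
            rw [hsame r p le_rfl, sb_insert Om P a S p p hp le_rfl]
          have e2 : Dp Om κ (insert p P) (update a p r) S p (update a p r p) =
              Dp Om κ (insert p P) a S p r := by
            unfold Dp Kp
            rw [hsame r p le_rfl, sb_insert Om P a S p p hp le_rfl, update_self]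
          rw [e2]
          simp only [e1]
      have hsum : ∑ r ∈ range p, Real.exp (-(θ * Fp Om κ (insert p P) c (update a p r) S)) ≤
          p * (Real.exp (θ ^ 2 * c p ^ 2) * Real.exp (-(θ * Fp Om κ P c a S))) := by
        have e0 : ∀ r, Real.exp (-(θ * Fp Om κ (insert p P) c (update a p r) S)) =
            Real.exp (-(θ * Fp Om κ P c a S)) * Real.exp (-(θ *
            (if Gd Om κ (insert p P) c a S p then Dp Om κ (insert p P) a S p r else 0))) := by
          intro r
          rw [hF r, ← Real.exp_add]; congr 1; ring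
        simp only [e0]
        rw [← mul_sum]
        have key : ∑ r ∈ range p, Real.exp (-(θ *
            (if Gd Om κ (insert p P) c a S p then Dp Om κ (insert p P) a S p r else 0))) ≤
            p * Real.exp (θ ^ 2 * c p ^ 2) := by
          split_ifs with hG
          · have hrp0 : 0 < rp κ (insert p P) p := rho_pos κ _ fun q hq =>
              hbig q (mem_filter.1 hq).1
            have e1 : ∀ r, Dp Om κ (insert p P) a S p r =
                κ / p * ((sb Om (insert p P) a S p).card : ℝ) / rp κ (insert p P) p -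
                Kp Om (insert p P) a S p r / rp κ (insert p P) p := by
              intro r; unfold Dp; rw [sub_div]
            simp only [e1]
            refine mart_step p hbp.1 _ (c p) θ hθ (hc p (mem_insert_self _ _))
              (fun r => Kp Om (insert p P) a S p r / rp κ (insert p P) p) ?_ ?_ ?_
            · intro r _
              have : 0 ≤ Kp Om (insert p P) a S p r := Nat.cast_nonneg _
              positivity
            · intro r hr
              rw [div_le_iff₀ hrp0]
              exact hG r hr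
            · rw [← sum_div, sum_Kp Om κ (insert p P) a S p
                (fun n hn => hOm n hn p (mem_insert_self _ _))]
              field_simp
          · have h1 : (1 : ℝ) ≤ Real.exp (θ ^ 2 * c p ^ 2) := Real.one_le_exp (by positivity)
            simp only [mul_zero, neg_zero, Real.exp_zero, sum_const, card_range, nsmul_eq_mul,
              mul_one]
            nlinarith
        calc Real.exp (-(θ * Fp Om κ P c a S)) * _ ≤
            Real.exp (-(θ * Fp Om κ P c a S)) * (p * Real.exp (θ ^ 2 * c p ^ 2)) := by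
              gcongr
          _ = _ := by ring
      calc (∑ r ∈ range p, ENNReal.ofReal (Real.exp (-(θ *
            Fp Om κ (insert p P) c (update a p r) S)))) / p
          = ENNReal.ofReal ((∑ r ∈ range p, Real.exp (-(θ *
            Fp Om κ (insert p P) c (update a p r) S))) / p) := by
            rw [ENNReal.ofReal_div_of_pos hp0, ENNReal.ofReal_sum_of_nonneg
              (fun _ _ => (Real.exp_pos _).le), ENNReal.ofReal_natCast]
        _ ≤ ENNReal.ofReal (Real.exp (θ ^ 2 * c p ^ 2) * Real.exp (-(θ * Fp Om κ P c a S))) := by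
            refine ENNReal.ofReal_le_ofReal ?_
            rw [div_le_iff₀ hp0]
            linarith
        _ = _ := ENNReal.ofReal_mul (Real.exp_pos _).le
    calc lmarginal ν P (fun a => ∫⁻ r, ENNReal.ofReal (Real.exp (-(θ *
        Fp Om κ (insert p P) c (update a p r) S))) ∂(ν p)) x
        ≤ lmarginal ν P (fun a => ENNReal.ofReal (Real.exp (θ ^ 2 * c p ^ 2)) *
          ENNReal.ofReal (Real.exp (-(θ * Fp Om κ P c a S)))) x := lmarginal_mono hinner x
      _ = ENNReal.ofReal (Real.exp (θ ^ 2 * c p ^ 2)) * lmarginal ν P (fun a =>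
          ENNReal.ofReal (Real.exp (-(θ * Fp Om κ P c a S)))) x := by
          unfold lmarginal
          rw [lintegral_const_mul]
          have hd : DepOn P (fun a : ℕ → ℕ =>
            ENNReal.ofReal (Real.exp (-(θ * Fp Om κ P c a S)))) := by
            intro a b hab
            have := dep_Fp Om κ P c S a b hab
            simp only at this ⊢
            rw [this]
          exact hd.measurable.comp measurable_updateFinset
      _ ≤ ENNReal.ofReal (Real.exp (θ ^ 2 * c p ^ 2)) *
          ENNReal.ofReal (Real.exp (θ ^ 2 * ∑ q ∈ P, c q ^ 2)) := by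
          gcongr
          exact ih' x
      _ = ENNReal.ofReal (Real.exp (θ ^ 2 * ∑ q ∈ insert p P, c q ^ 2)) := by
          rw [← ENNReal.ofReal_mul (Real.exp_pos _).le, ← Real.exp_add, sum_insert hpn, mul_add]

/-- Lower tail of the number of the survivors. -/
theorem mart_tail (ν : ℕ → Measure ℕ) [∀ p, IsProbabilityMeasure (ν p)]
    (Om : ι → ℕ → Finset ℕ) (κ : ℕ) (c : ℕ → ℝ) (θ δ : ℝ) (hθ : 0 ≤ θ) (S : Finset ι)
    (P : Finset ℕ) (hν : ∀ p ∈ P, UnifOn (ν p) p) (hbig : ∀ p ∈ P, 0 < p ∧ 4 * κ ≤ p)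
    (hc : ∀ p ∈ P, θ * c p ≤ 1)
    (hOm : ∀ n ∈ S, ∀ p ∈ P, Om n p ⊆ range p ∧ (Om n p).card = κ) (x : ℕ → ℕ)
    (E : (ℕ → ℕ) → Prop) [DecidablePred E]
    (hE : ∀ a, E a → (∀ p ∈ P, Gd Om κ P c a S p) ∧
      ((surv Om P a S).card : ℝ) ≤ rho κ P * (S.card - δ)) :
    lmarginal ν P (fun a => if E a then 1 else 0) x ≤
      ENNReal.ofReal (Real.exp (-(θ * δ) + θ ^ 2 * ∑ p ∈ P, c p ^ 2)) := by
  classical
  have hρ := rho_pos κ P hbig
  have hpt : ∀ a : ℕ → ℕ, (if E a then (1 : ℝ≥0∞) else 0) ≤
      ENNReal.ofReal (Real.exp (-(θ * δ))) *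
        ENNReal.ofReal (Real.exp (-(θ * Fp Om κ P c a S))) := by
    intro a
    split_ifs with h
    · obtain ⟨h1, h2⟩ := hE a h
      have h3 : Fp Om κ P c a S = ((surv Om P a S).card : ℝ) / rho κ P - S.card := by
        rw [telescope Om κ P a S hbig]
        unfold Fp
        rw [add_sub_cancel_left]
        exact sum_congr rfl fun p hp => if_pos (h1 p hp)
      have h4 : ((surv Om P a S).card : ℝ) / rho κ P ≤ S.card - δ := by
        rw [div_le_iff₀ hρ]; linarith
      rw [← ENNReal.ofReal_mul (Real.exp_pos _).le, ← Real.exp_add, ENNReal.one_le_ofReal,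
        Real.one_le_exp_iff, h3]
      nlinarith
    · exact zero_le
  refine (lmarginal_mono hpt x).trans ?_
  have e : lmarginal ν P (fun a => ENNReal.ofReal (Real.exp (-(θ * δ))) *
        ENNReal.ofReal (Real.exp (-(θ * Fp Om κ P c a S)))) x =
      ENNReal.ofReal (Real.exp (-(θ * δ))) * lmarginal ν P (fun a =>
        ENNReal.ofReal (Real.exp (-(θ * Fp Om κ P c a S)))) x := by
    unfold lmarginal
    rw [lintegral_const_mul]
    have hd : DepOn P (fun a : ℕ → ℕ =>
      ENNReal.ofReal (Real.exp (-(θ * Fp Om κ P c a S)))) := by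
      intro a b hab
      have := dep_Fp Om κ P c S a b hab
      simp only at this ⊢
      rw [this]
    exact hd.measurable.comp measurable_updateFinset
  rw [e]
  have h1 := mart_mgf ν Om κ c θ hθ S P hν hbig hc hOm x
  refine (mul_le_mul' le_rfl h1).trans (le_of_eq ?_)
  rw [← ENNReal.ofReal_mul (Real.exp_pos _).le, ← Real.exp_add]

end Pool.Agent.H532.UN
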