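import Mathlib
import Pool.Agent.H532.UN.Bonf
import Pool.Agent.H532.UN.Mart

/-!
Positions in an arithmetic progression at which a pattern survives.
-/

namespace Pool.Agent.H532.UN

open Finset MeasureTheory Function Pool.Agent.H532.RM
open scoped ENNReal

lemma mem_tw_mod (Om : ℕ → Finset ℕ) (c q t p : ℕ) (hp : 0 < p) :
    t % p ∈ tw Om c q p ↔ (c + q * t) % p ∈ Om p := by
  unfold tw
  rw [mem_filter, mem_range]
  have h1 : (c + q * (t % p)) % p = (c + q * t) % p := by
    have : c + q * (t % p) ≡ c + q * t [MOD p] :=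
      Nat.ModEq.add_left c (Nat.ModEq.mul_left q (Nat.mod_modEq t p))
    exact this
  rw [h1]
  exact ⟨fun h => h.2, fun h => ⟨Nat.mod_lt _ hp, h⟩⟩

/-- the residues `r` with `r + i = a q` modulo `q` for an `i` in `A` -/
def Ng (A : Finset ℕ) (a : ℕ → ℕ) (q : ℕ) : Finset ℕ := A.image (fun i => (a q + (q - i)) % q)

lemma mem_Ng {A : Finset ℕ} {a : ℕ → ℕ} {q : ℕ} (hA : ∀ i ∈ A, i < q) (x : ℕ) :
    x % q ∈ Ng A a q ↔ ∃ i ∈ A, (x + i) % q = a q % q := by
  unfold Ng
  rw [mem_image]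
  refine exists_congr fun i => and_congr_right fun hi => ?_
  have hiq := hA i hi
  constructor
  · intro h
    have h1 : a q + (q - i) ≡ x [MOD q] := h
    have h2 := h1.add_right i
    have e : a q + (q - i) + i = a q + q := by omega
    rw [e] at h2
    have h3 : x + i ≡ a q + q [MOD q] := h2.symm
    have h4 : a q + q ≡ a q [MOD q] := by simp [Nat.ModEq]
    exact h3.trans h4
  · intro h
    have h1 : x + i ≡ a q [MOD q] := h
    have h2 := h1.add_right (q - i)
    have e : x + i + (q - i) = x + q := by omega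
    rw [e] at h2
    have h4 : x + q ≡ x [MOD q] := by simp [Nat.ModEq]
    exact h2.symm.trans h4

lemma card_Ng {A : Finset ℕ} {a : ℕ → ℕ} {q : ℕ} (hA : ∀ i ∈ A, 0 < i ∧ i < q) :
    (Ng A a q).card = A.card := by
  unfold Ng
  refine card_image_of_injOn ?_
  intro i hi i' hi' h
  have h0 := hA i (mem_coe.1 hi)
  have h0' := hA i' (mem_coe.1 hi')
  have h1 : a q + (q - i) ≡ a q + (q - i') [MOD q] := h
  have h2 := Nat.ModEq.add_left_cancel' _ h1
  have h3 := Nat.ModEq.eq_of_lt_of_lt h2 (by omega) (by omega)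
  omega

lemma Ng_subset {A : Finset ℕ} {a : ℕ → ℕ} {q : ℕ} (hq : 0 < q) : Ng A a q ⊆ range q := by
  intro r hr
  obtain ⟨i, _, rfl⟩ := mem_image.1 hr
  exact mem_range.2 (Nat.mod_lt _ hq)

/-- the `t < T` such that the pattern `A` at `B + M t` survives the classes `a q`, `q ∈ Q` -/
def Sg (A : Finset ℕ) (a : ℕ → ℕ) (B M : ℕ) (Q : Finset ℕ) (T : ℕ) : Finset ℕ :=
  avs Q (tw (Ng A a) B M) T

lemma mem_Sg {A : Finset ℕ} {a : ℕ → ℕ} {B M : ℕ} {Q : Finset ℕ} {T t : ℕ}
    (hA : ∀ q ∈ Q, ∀ i ∈ A, i < q) (hQ : ∀ q ∈ Q, 0 < q) : t ∈ Sg A a B M Q T ↔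
    t < T ∧ ∀ q ∈ Q, ∀ i ∈ A, (B + M * t + i) % q ≠ a q % q := by
  unfold Sg avs
  rw [mem_filter, mem_range]
  refine and_congr_right fun _ => forall₂_congr fun q hq => ?_
  rw [mem_tw_mod _ _ _ _ _ (hQ q hq), mem_Ng (hA q hq)]
  push Not
  rfl

/-- hypotheses for the sieve of positions -/
structure PosOK (A : Finset ℕ) (M : ℕ) (Q : Finset ℕ) : Prop where
  pr : ∀ q ∈ Q, q.Prime
  lt : ∀ q ∈ Q, ∀ i ∈ A, 0 < i ∧ i < q
  cop : ∀ q ∈ Q, Nat.Coprime M q

lemma PosOK.card {A : Finset ℕ} {M : ℕ} {Q : Finset ℕ} (h : PosOK A M Q) (a : ℕ → ℕ) (B : ℕ) :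
    ∀ q ∈ Q, (tw (Ng A a) B M q).card = A.card := fun q hq => by
  rw [card_tw _ _ _ _ (h.pr q hq).pos (h.cop q hq) (Ng_subset (h.pr q hq).pos),
    card_Ng (h.lt q hq)]

/-- the sum of `1 / q` -/
noncomputable def ss (Q : Finset ℕ) : ℝ := ∑ q ∈ Q, 1 / (q : ℝ)

lemma ss_nonneg (Q : Finset ℕ) : 0 ≤ ss Q := sum_nonneg fun q _ => by positivity

lemma sum_div_eq (h : ℕ) (Q : Finset ℕ) : ∑ q ∈ Q, (h : ℝ) / q = h * ss Q := by
  rw [ss, mul_sum]; exact sum_congr rfl fun q _ => by rw [mul_one_div]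

/-- the number of positions -/
theorem Sg_card {A : Finset ℕ} {M : ℕ} {Q : Finset ℕ} (h : PosOK A M Q) (a : ℕ → ℕ) (B T r : ℕ) :
    |((Sg A a B M Q T).card : ℝ) - T * rho A.card Q| ≤
      T * ((A.card * ss Q) ^ r / r.factorial) + ((1 + 3 * (A.card * Q.card : ℝ)) ^ r - 1) := by
  have h1 := bonf Q h.pr r T (tw (Ng A a) B M) (fun q _ => tw_subset _ _ _ _)
  have hc := h.card a B
  have e1 : PP Q (tw (Ng A a) B M) = rho A.card Q := prod_congr rfl fun q hq => by rw [hc q hq]
  have e2 : GG Q (tw (Ng A a) B M) = A.card * ss Q := by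
    rw [← sum_div_eq]
    exact sum_congr rfl fun q hq => by rw [hc q hq]
  have e3 : HH Q (tw (Ng A a) B M) = Q.card * A.card := by
    unfold HH
    rw [sum_congr rfl hc, sum_const, smul_eq_mul]
  rw [e1, e2, e3] at h1
  have e4 : ((Q.card * A.card : ℕ) : ℝ) = A.card * Q.card := by push_cast; ring
  rw [e4] at h1
  exact h1

/-- the number of positions in a residue class modulo another prime -/
theorem Sg_class {A : Finset ℕ} {M : ℕ} {Q : Finset ℕ} (h : PosOK A M Q) (a : ℕ → ℕ)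
    (B T r p : ℕ) (hp : p.Prime) (hpQ : p ∉ Q) (hpM : Nat.Coprime M p) (r0 : ℕ) :
    (((Sg A a B M Q T).filter (fun t => (B + M * t) % p = r0)).card : ℝ) ≤
      (T / p + 1) * (rho A.card Q + (A.card * ss Q) ^ r / r.factorial) +
        ((1 + 3 * (A.card * Q.card : ℝ)) ^ r - 1) := by
  have hp0 := hp.pos
  have hRHS : 0 ≤ (T / p + 1 : ℝ) * (rho A.card Q + (A.card * ss Q) ^ r / r.factorial) +
        ((1 + 3 * (A.card * Q.card : ℝ)) ^ r - 1) := by
    have h1 : 0 ≤ rho A.card Q := by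
      have := (PP_mem Q (Ng A a) h.pr fun q hq => Ng_subset (h.pr q hq).pos).1
      have e : PP Q (Ng A a) = rho A.card Q := prod_congr rfl fun q hq => by
        rw [card_Ng (h.lt q hq)]
      rwa [e] at this
    have h2 : 0 ≤ ((A.card : ℝ) * ss Q) ^ r / r.factorial := by
      have := ss_nonneg Q
      positivity
    have h3 : (1 : ℝ) ≤ (1 + 3 * (A.card * Q.card : ℝ)) ^ r := one_le_pow₀ (by
      have : (0 : ℝ) ≤ 3 * (A.card * Q.card : ℝ) := by positivity
      linarith)
    have h4 : (0 : ℝ) ≤ T / p + 1 := by positivity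
    have h5 := mul_nonneg h4 (add_nonneg h1 h2)
    linarith
  rcases ((Sg A a B M Q T).filter (fun t => (B + M * t) % p = r0)).eq_empty_or_nonempty with he | ⟨t0, ht0⟩
  · rw [he]; simpa using hRHS
  set c := t0 % p with hc
  have hcp : c < p := Nat.mod_lt _ hp0
  have hsub : (Sg A a B M Q T).filter (fun t => (B + M * t) % p = r0) ⊆
      (Sg A a B M Q T).filter (fun t => t % p = c) := by
    intro t ht
    obtain ⟨h1, h2⟩ := mem_filter.1 ht
    refine mem_filter.2 ⟨h1, ?_⟩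
    have h3 := (mem_filter.1 ht0).2
    have h4 : B + M * t ≡ B + M * t0 [MOD p] := h2.trans h3.symm
    have h5 := Nat.ModEq.add_left_cancel' _ h4
    exact Nat.ModEq.cancel_left_of_coprime (by rwa [Nat.gcd_comm]) h5
  have h1 := card_le_card hsub
  have h2 := avs_class Q (tw (Ng A a) B M) T c p hcp (fun q hq => (h.pr q hq).pos)
  have hcard : ∀ q ∈ Q, (tw (tw (Ng A a) B M) c p q).card = A.card := by
    intro q hq
    have hqp : Nat.Coprime p q := (Nat.coprime_primes hp (h.pr q hq)).2 fun h' => hpQ (h' ▸ hq)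
    rw [card_tw _ _ _ _ (h.pr q hq).pos hqp (tw_subset _ _ _ _), h.card a B q hq]
  have h3 := bonf Q h.pr r (nt T c p) (tw (tw (Ng A a) B M) c p) (fun q _ => tw_subset _ _ _ _)
  have e1 : PP Q (tw (tw (Ng A a) B M) c p) = rho A.card Q :=
    prod_congr rfl fun q hq => by rw [hcard q hq]
  have e2 : GG Q (tw (tw (Ng A a) B M) c p) = A.card * ss Q := by
    rw [← sum_div_eq]
    exact sum_congr rfl fun q hq => by rw [hcard q hq]
  have e3 : HH Q (tw (tw (Ng A a) B M) c p) = Q.card * A.card := by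
    unfold HH
    rw [sum_congr rfl hcard, sum_const, smul_eq_mul]
  rw [e1, e2, e3] at h3
  have e4 : ((Q.card * A.card : ℕ) : ℝ) = A.card * Q.card := by push_cast; ring
  rw [e4] at h3
  have h4 := (abs_le.1 h3).2
  have h5 := nt_le T c p hcp
  have h6 : 0 ≤ rho A.card Q := by
    have := (PP_mem Q (Ng A a) h.pr fun q hq => Ng_subset (h.pr q hq).pos).1
    have e : PP Q (Ng A a) = rho A.card Q := prod_congr rfl fun q hq => by
      rw [card_Ng (h.lt q hq)]
    rwa [e] at this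
  have h7 : 0 ≤ ((A.card : ℝ) * ss Q) ^ r / r.factorial := by
    have := ss_nonneg Q
    positivity
  have h8 : (((Sg A a B M Q T).filter (fun t => (B + M * t) % p = r0)).card : ℝ) ≤
      (avs Q (tw (tw (Ng A a) B M) c p) (nt T c p)).card := by
    rw [← h2]
    exact_mod_cast h1
  calc (((Sg A a B M Q T).filter (fun t => (B + M * t) % p = r0)).card : ℝ)
      ≤ (avs Q (tw (tw (Ng A a) B M) c p) (nt T c p)).card := h8
    _ ≤ (nt T c p : ℝ) * (rho A.card Q + (A.card * ss Q) ^ r / r.factorial) +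
        ((1 + 3 * (A.card * Q.card : ℝ)) ^ r - 1) := by linarith
    _ ≤ _ := by gcongr

/-- the classes modulo `p` which remove the pattern `Ap p` at `B + M t` -/
def OmA (Ap : ℕ → Finset ℕ) (B M t p : ℕ) : Finset ℕ := (Ap p).image (fun i => (B + M * t + i) % p)

lemma OmA_subset (Ap : ℕ → Finset ℕ) (B M t p : ℕ) (hp : 0 < p) : OmA Ap B M t p ⊆ range p := by
  intro r hr
  obtain ⟨i, _, rfl⟩ := mem_image.1 hr
  exact mem_range.2 (Nat.mod_lt _ hp)

lemma OmA_card (Ap : ℕ → Finset ℕ) (B M t p : ℕ) (hp : ∀ i ∈ Ap p, i < p) :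
    (OmA Ap B M t p).card = (Ap p).card := by
  refine card_image_of_injOn ?_
  intro d hd e he h
  have h1 : B + M * t + d ≡ B + M * t + e [MOD p] := h
  have h2 : d ≡ e [MOD p] := Nat.ModEq.add_left_cancel' _ h1
  exact Nat.ModEq.eq_of_lt_of_lt h2 (hp d hd) (hp e he)

/-- few coincidences between different windows -/
lemma coll_UT {P : Finset ℕ} {W J k : ℕ} (hW : 0 < W) (hP : ∀ p ∈ P, p.Prime ∧ W < p)
    (Ap : ℕ → Finset ℕ) (A0 : Finset ℕ) (hA : ∀ p ∈ P, Ap p ⊆ A0) (hA0 : ∀ i ∈ A0, 0 < i ∧ i ≤ k)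
    (B M : ℕ) (hM : k ≤ M) (T : Finset ℕ) (hT : ∀ t ∈ T, B + M * t + k < 2 ^ J) :
    ∑ p ∈ P, (T.card * (Ap p).card : ℝ) / p - (T.card * A0.card : ℝ) ^ 2 * J / W ≤
      ∑ p ∈ P, ((UT (OmA Ap B M) T p).card : ℝ) / p := by
  classical
  set E : ℕ → Finset ℕ := fun p => T.biUnion (fun t => (Ap p).image (fun i => B + M * t + i))
    with hE
  set E0 : Finset ℕ := T.biUnion (fun t => A0.image (fun i => B + M * t + i)) with hE0
  have hcard : ∀ A : Finset ℕ, A ⊆ A0 →
      (T.biUnion (fun t => A.image (fun i => B + M * t + i))).card = T.card * A.card := by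
    intro A hAA
    rw [card_biUnion]
    · rw [sum_congr rfl fun t _ => card_image_of_injective A (add_right_injective (B + M * t)),
        sum_const, smul_eq_mul]
    · intro t _ t' _ hne
      rw [Function.onFun, Finset.disjoint_left]
      intro n hn hn'
      obtain ⟨i, hi, rfl⟩ := mem_image.1 hn
      obtain ⟨i', hi', h⟩ := mem_image.1 hn'
      have b1 := hA0 i (hAA hi)
      have b2 := hA0 i' (hAA hi')
      rcases Nat.lt_or_gt_of_ne hne with h1 | h1
      · have : M * t + M ≤ M * t' := by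
          have : M * (t + 1) ≤ M * t' := Nat.mul_le_mul_left M h1
          linarith
        omega
      · have : M * t' + M ≤ M * t := by
          have : M * (t' + 1) ≤ M * t := Nat.mul_le_mul_left M h1
          linarith
        omega
  have h1 := coll_sum hW hP E E0 (fun p hp => by
    rw [hE, hE0]
    exact biUnion_mono fun t _ => image_subset_image (hA p hp)) (J := J) (fun e he => by
    obtain ⟨t, ht, h2⟩ := mem_biUnion.1 he
    obtain ⟨i, hi, rfl⟩ := mem_image.1 h2
    have := hT t ht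
    have := hA0 i hi
    omega)
  have e1 : ∀ p ∈ P, (E p).image (· % p) = UT (OmA Ap B M) T p := by
    intro p _
    rw [hE]
    simp only [UT, OmA, biUnion_image, image_image]
    rfl
  rw [hE0, hcard A0 (Subset.refl _)] at h1
  have e2 : ∑ p ∈ P, ((E p).card : ℝ) / p = ∑ p ∈ P, (T.card * (Ap p).card : ℝ) / p := by
    refine sum_congr rfl fun p hp => ?_
    rw [hE]
    simp only
    rw [hcard (Ap p) (hA p hp)]
    push_cast
    rfl
  have e3 : ∑ p ∈ P, (((E p).image (· % p)).card : ℝ) / p =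
      ∑ p ∈ P, ((UT (OmA Ap B M) T p).card : ℝ) / p := sum_congr rfl fun p hp => by rw [e1 p hp]
  rw [e2, e3] at h1
  push_cast at h1
  exact h1

/-- the members of a class -/
lemma class_sum (A : Finset ℕ) (B M p r : ℕ) (S : Finset ℕ) (C : ℝ)
    (hA : ∀ i ∈ A, i < p)
    (hC : ∀ r0, ((S.filter (fun t => (B + M * t) % p = r0)).card : ℝ) ≤ C) :
    ((S.filter (fun t => r ∈ OmA (fun _ => A) B M t p)).card : ℝ) ≤ A.card * C := by
  have h1 : S.filter (fun t => r ∈ OmA (fun _ => A) B M t p) ⊆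
      A.biUnion (fun i => S.filter (fun t => (B + M * t) % p = (r + (p - i)) % p)) := by
    intro t ht
    obtain ⟨h1, h2⟩ := mem_filter.1 ht
    obtain ⟨i, hi, h3⟩ := mem_image.1 h2
    refine mem_biUnion.2 ⟨i, hi, mem_filter.2 ⟨h1, ?_⟩⟩
    have hip := hA i hi
    have h4 : r + (p - i) ≡ B + M * t + i + (p - i) [MOD p] := by
      refine Nat.ModEq.add_right _ ?_
      rw [← h3]
      exact Nat.mod_modEq _ _
    have e : B + M * t + i + (p - i) = B + M * t + p := by omega
    rw [e] at h4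
    have h5 : B + M * t + p ≡ B + M * t [MOD p] := by simp [Nat.ModEq]
    exact (h4.trans h5).symm
  calc ((S.filter (fun t => r ∈ OmA (fun _ => A) B M t p)).card : ℝ)
      ≤ ∑ i ∈ A, ((S.filter (fun t => (B + M * t) % p = (r + (p - i)) % p)).card : ℝ) := by
        exact_mod_cast (card_le_card h1).trans card_biUnion_le
    _ ≤ ∑ i ∈ A, C := sum_le_sum fun i _ => hC _
    _ = A.card * C := by rw [sum_const, nsmul_eq_mul]

end Pool.Agent.H532.UN
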