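import Mathlib
import Pool.Agent.H532.UN.Pos

/-!
Probabilities for the numbers of positions at which a pattern survives.
-/

namespace Pool.Agent.H532.UN

open Finset MeasureTheory Function Pool.Agent.H532.RM
open scoped ENNReal

lemma lm_sub (ν : ℕ → Measure ℕ) [∀ p, IsProbabilityMeasure (ν p)] {P' P : Finset ℕ}
    (h : P' ⊆ P) (f : (ℕ → ℕ) → ℝ≥0∞) (hf : Measurable f) (c : ℝ≥0∞)
    (hc : ∀ x, lmarginal ν P' f x ≤ c) (x : ℕ → ℕ) : lmarginal ν P f x ≤ c := by
  have hP : P = (P \ P') ∪ P' := by rw [sdiff_union_of_subset h]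
  rw [hP, lmarginal_union _ f hf sdiff_disjoint]
  calc lmarginal ν (P \ P') (lmarginal ν P' f) x
      ≤ lmarginal ν (P \ P') (fun _ => c) x := lmarginal_mono (fun x => hc x) x
    _ = c := by
      unfold lmarginal
      simp

lemma dep_surv' {ι : Type} (Om : ι → ℕ → Finset ℕ) (P : Finset ℕ) (S : Finset ι) :
    DepOn P (fun a => surv Om P a S) := fun a b hab => surv_congr Om P a b S hab

/-- upper tail for a pattern -/
theorem up_tail (ν : ℕ → Measure ℕ) [∀ p, IsProbabilityMeasure (ν p)] {P : Finset ℕ}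
    {W J k : ℕ} (hν : ∀ p ∈ P, UnifOn (ν p) p) (hW : 0 < W) (hP : ∀ p ∈ P, p.Prime ∧ W < p)
    (Ap : ℕ → Finset ℕ) (A0 : Finset ℕ) (hA : ∀ p ∈ P, Ap p ⊆ A0) (hA0 : ∀ i ∈ A0, 0 < i ∧ i ≤ k)
    (B M : ℕ) (hM : k ≤ M) (S : Finset ℕ) (hS : ∀ t ∈ S, B + M * t + k < 2 ^ J)
    (q : ℕ) (hq : 1 ≤ q) (e0 : ℝ) (he0 : (q * A0.card : ℝ) ^ 2 * J / W ≤ e0) (b : ℝ)
    (hb : q + 2 * (S.card * Real.exp (-(∑ p ∈ P, ((Ap p).card : ℝ) / p))) ≤ b) (x : ℕ → ℕ) :
    lmarginal ν P (fun a => if b ≤ ((surv (OmA Ap B M) P a S).card : ℝ) then (1 : ℝ≥0∞) else 0) x ≤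
      ENNReal.ofReal (Real.exp e0 * (1 / 2) ^ q) := by
  refine fact_tail ν (OmA Ap B M) P hν (fun p hp => (hP p hp).1.pos) S
    (fun t _ p hp => OmA_subset Ap B M t p (hP p hp).1.pos) q hq
    (∑ p ∈ P, ((Ap p).card : ℝ) / p) e0 (fun T hT hTq => ?_) b hb x
  have h1 := coll_UT hW hP Ap A0 hA hA0 B M hM T (fun t ht => hS t (hT ht))
  rw [hTq] at h1
  have e : ∑ p ∈ P, ((q : ℝ) * (Ap p).card : ℝ) / p = q * ∑ p ∈ P, ((Ap p).card : ℝ) / p := by
    rw [mul_sum]
    exact sum_congr rfl fun p _ => by rw [mul_div_assoc]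
  rw [e] at h1
  linarith

/-- lower tail for a pattern -/
theorem low_tail (ν : ℕ → Measure ℕ) [∀ p, IsProbabilityMeasure (ν p)] {P : Finset ℕ}
    {W J k : ℕ} (hν : ∀ p ∈ P, UnifOn (ν p) p) (hW : 0 < W) (hP : ∀ p ∈ P, p.Prime ∧ W < p)
    (A : Finset ℕ) (hA0 : ∀ i ∈ A, 0 < i ∧ i ≤ k) (hkW : k ≤ W) (h4 : 4 * A.card ≤ W)
    (B M : ℕ) (hM : k ≤ M) (S : Finset ℕ) (hS : ∀ t ∈ S, B + M * t + k < 2 ^ J)
    (q : ℕ) (hq : 1 ≤ q) (e0 : ℝ) (he0 : (q * A.card : ℝ) ^ 2 * J / W ≤ e0)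
    (F c : ℕ → ℝ)
    (hF : ∀ p ∈ P, ∀ r, ((S.filter (fun t => r ∈ OmA (fun _ => A) B M t p)).card : ℝ) ≤ F p)
    (hc : ∀ p ∈ P, q + 2 * (F p * Real.exp (-(A.card * ss (P.filter (· < p))))) ≤
      c p * rp A.card P p)
    (θ δ : ℝ) (hθ : 0 ≤ θ) (hθc : ∀ p ∈ P, θ * c p ≤ 1) (x : ℕ → ℕ) :
    lmarginal ν P (fun a => if ((surv (OmA (fun _ => A) B M) P a S).card : ℝ) ≤
      rho A.card P * (S.card - δ) then (1 : ℝ≥0∞) else 0) x ≤
      ENNReal.ofReal (Real.exp (-(θ * δ) + θ ^ 2 * ∑ p ∈ P, c p ^ 2) +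
        (∑ p ∈ P, (p : ℝ)) * (Real.exp e0 * (1 / 2) ^ q)) := by
  classical
  set Om : ℕ → ℕ → Finset ℕ := OmA (fun _ => A) B M with hOmd
  have hip : ∀ p ∈ P, ∀ i ∈ A, i < p := fun p hp i hi =>
    lt_of_le_of_lt ((hA0 i hi).2.trans hkW) (hP p hp).2
  have hOm : ∀ t ∈ S, ∀ p ∈ P, Om t p ⊆ range p ∧ (Om t p).card = A.card := fun t _ p hp =>
    ⟨OmA_subset _ B M t p (hP p hp).1.pos, OmA_card (fun _ => A) B M t p (hip p hp)⟩
  have hbig : ∀ p ∈ P, 0 < p ∧ 4 * A.card ≤ p := fun p hp =>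
    ⟨(hP p hp).1.pos, h4.trans (hP p hp).2.le⟩
  set E : (ℕ → ℕ) → Prop := fun a => ((surv Om P a S).card : ℝ) ≤ rho A.card P * (S.card - δ)
    with hE
  set S' : ℕ → ℕ → Finset ℕ := fun p r => S.filter (fun t => r ∈ Om t p) with hS'
  set b : ℕ → ℕ → ℝ := fun p r => q + 2 * ((S' p r).card *
    Real.exp (-(A.card * ss (P.filter (· < p))))) with hb
  have hK : ∀ a p r, Kp Om P a S p r = ((surv Om (P.filter (· < p)) a (S' p r)).card : ℝ) := by
    intro a p r
    unfold Kp sb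
    congr 2
    rw [hS']
    unfold surv
    ext t
    simp only [mem_filter]
    tauto
  have hpt : ∀ a : ℕ → ℕ, (if E a then (1 : ℝ≥0∞) else 0) ≤
      (if (E a ∧ ∀ p ∈ P, Gd Om A.card P c a S p) then (1 : ℝ≥0∞) else 0) +
      ∑ p ∈ P, ∑ r ∈ range p, (if b p r ≤ ((surv Om (P.filter (· < p)) a (S' p r)).card : ℝ)
        then (1 : ℝ≥0∞) else 0) := by
    intro a
    by_cases h1 : E a
    · by_cases h2 : ∀ p ∈ P, Gd Om A.card P c a S p
      · rw [if_pos h1, if_pos ⟨h1, h2⟩]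
        exact le_add_right le_rfl
      · push Not at h2
        obtain ⟨p, hp, h3⟩ := h2
        unfold Gd at h3
        push Not at h3
        obtain ⟨r, hr, h4'⟩ := h3
        rw [if_pos h1]
        refine le_trans ?_ (le_add_left le_rfl)
        have h5 : b p r ≤ ((surv Om (P.filter (· < p)) a (S' p r)).card : ℝ) := by
          rw [hK] at h4'
          refine le_trans ?_ h4'.le
          refine le_trans ?_ (hc p hp)
          rw [hb]
          simp only
          have := hF p hp r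
          gcongr
        calc (1 : ℝ≥0∞) = (if b p r ≤ ((surv Om (P.filter (· < p)) a (S' p r)).card : ℝ)
              then (1 : ℝ≥0∞) else 0) := (if_pos h5).symm
          _ ≤ ∑ r ∈ range p, (if b p r ≤ ((surv Om (P.filter (· < p)) a (S' p r)).card : ℝ)
              then (1 : ℝ≥0∞) else 0) :=
            single_le_sum (f := fun r => (if b p r ≤ ((surv Om (P.filter (· < p)) a (S' p r)).card : ℝ)
              then (1 : ℝ≥0∞) else 0)) (fun _ _ => zero_le) hr
          _ ≤ _ := single_le_sum (f := fun p => ∑ r ∈ range p,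
              (if b p r ≤ ((surv Om (P.filter (· < p)) a (S' p r)).card : ℝ)
              then (1 : ℝ≥0∞) else 0)) (fun _ _ => zero_le) hp
    · rw [if_neg h1]
      exact zero_le
  have hm2 : ∀ p r, Measurable (fun a : ℕ → ℕ =>
      if b p r ≤ ((surv Om (P.filter (· < p)) a (S' p r)).card : ℝ) then (1 : ℝ≥0∞) else 0) := by
    intro p r
    have hd : DepOn (P.filter (· < p)) (fun a : ℕ → ℕ =>
      if b p r ≤ ((surv Om (P.filter (· < p)) a (S' p r)).card : ℝ) then (1 : ℝ≥0∞) else 0) := by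
      intro a a' haa
      have := dep_surv' Om (P.filter (· < p)) (S' p r) a a' haa
      simp only at this ⊢
      rw [this]
    exact hd.measurable
  have hm1 : Measurable (fun a : ℕ → ℕ =>
      if (E a ∧ ∀ p ∈ P, Gd Om A.card P c a S p) then (1 : ℝ≥0∞) else 0) := by
    have hd : DepOn P (fun a : ℕ → ℕ =>
      if (E a ∧ ∀ p ∈ P, Gd Om A.card P c a S p) then (1 : ℝ≥0∞) else 0) := by
      intro a a' haa
      have h1 : surv Om P a S = surv Om P a' S := dep_surv' Om P S a a' haa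
      have h2 : ∀ p ∈ P, (Gd Om A.card P c a S p ↔ Gd Om A.card P c a' S p) := by
        intro p _
        have h3 : sb Om P a S p = sb Om P a' S p :=
          surv_congr Om _ a a' S fun y hy => haa y (mem_filter.1 hy).1
        unfold Gd Kp
        rw [h3]
      have h4 : (E a ∧ ∀ p ∈ P, Gd Om A.card P c a S p) ↔
          (E a' ∧ ∀ p ∈ P, Gd Om A.card P c a' S p) := by
        rw [hE]
        simp only
        rw [h1]
        exact and_congr_right fun _ => forall₂_congr h2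
      simp only [h4]
    exact hd.measurable
  have hup : Measurable (fun y : (i : P) → ℕ => updateFinset x P y) := measurable_updateFinset
  have hsplit : lmarginal ν P (fun a =>
      (if (E a ∧ ∀ p ∈ P, Gd Om A.card P c a S p) then (1 : ℝ≥0∞) else 0) +
      ∑ p ∈ P, ∑ r ∈ range p, (if b p r ≤ ((surv Om (P.filter (· < p)) a (S' p r)).card : ℝ)
        then (1 : ℝ≥0∞) else 0)) x =
      lmarginal ν P (fun a =>
      if (E a ∧ ∀ p ∈ P, Gd Om A.card P c a S p) then (1 : ℝ≥0∞) else 0) x +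
      ∑ p ∈ P, ∑ r ∈ range p, lmarginal ν P (fun a =>
        if b p r ≤ ((surv Om (P.filter (· < p)) a (S' p r)).card : ℝ)
        then (1 : ℝ≥0∞) else 0) x := by
    unfold lmarginal
    rw [lintegral_add_left, lintegral_finsetSum]
    · congr 1
      refine sum_congr rfl fun p _ => ?_
      rw [lintegral_finsetSum]
      intro r _
      exact (hm2 p r).comp hup
    · intro p _
      exact (Finset.measurable_sum _ fun r _ => hm2 p r).comp hup
    · exact hm1.comp hup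
  have hfirst : lmarginal ν P (fun a =>
      if (E a ∧ ∀ p ∈ P, Gd Om A.card P c a S p) then (1 : ℝ≥0∞) else 0) x ≤
      ENNReal.ofReal (Real.exp (-(θ * δ) + θ ^ 2 * ∑ p ∈ P, c p ^ 2)) :=
    mart_tail ν Om A.card c θ δ hθ S P hν hbig hθc hOm x
      (fun a => E a ∧ ∀ p ∈ P, Gd Om A.card P c a S p) (fun a ha => ⟨ha.2, ha.1⟩)
  have hsecond : ∀ p ∈ P, ∀ r ∈ range p, lmarginal ν P (fun a =>
        if b p r ≤ ((surv Om (P.filter (· < p)) a (S' p r)).card : ℝ)
        then (1 : ℝ≥0∞) else 0) x ≤ ENNReal.ofReal (Real.exp e0 * (1 / 2) ^ q) := by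
    intro p hp r _
    refine lm_sub ν (filter_subset (· < p) P) _ (hm2 p r) _ (fun x' => ?_) x
    refine up_tail ν (fun y hy => hν y (mem_filter.1 hy).1) hW
      (fun y hy => hP y (mem_filter.1 hy).1) (fun _ => A) A (fun _ _ => Subset.refl _) hA0 B M hM
      (S' p r) (fun t ht => hS t (mem_filter.1 ht).1) q hq e0 he0 (b p r) (le_of_eq ?_) x'
    rw [sum_div_eq]
  refine (lmarginal_mono hpt x).trans ?_
  rw [hsplit]
  have h0 : 0 ≤ Real.exp e0 * (1 / 2) ^ q := by positivity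
  calc _ ≤ ENNReal.ofReal (Real.exp (-(θ * δ) + θ ^ 2 * ∑ p ∈ P, c p ^ 2)) +
        ∑ p ∈ P, ∑ r ∈ range p, ENNReal.ofReal (Real.exp e0 * (1 / 2) ^ q) :=
        add_le_add hfirst (sum_le_sum fun p hp => sum_le_sum fun r hr => hsecond p hp r hr)
    _ = ENNReal.ofReal (Real.exp (-(θ * δ) + θ ^ 2 * ∑ p ∈ P, c p ^ 2)) +
        ENNReal.ofReal ((∑ p ∈ P, (p : ℝ)) * (Real.exp e0 * (1 / 2) ^ q)) := by
        congr 1
        rw [ENNReal.ofReal_mul (sum_nonneg fun p _ => Nat.cast_nonneg _),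
          ENNReal.ofReal_sum_of_nonneg (fun p _ => Nat.cast_nonneg _), sum_mul]
        refine sum_congr rfl fun p _ => ?_
        rw [sum_const, card_range, nsmul_eq_mul, ENNReal.ofReal_natCast]
    _ = _ := by
        rw [ENNReal.ofReal_add (Real.exp_pos _).le]
        exact mul_nonneg (sum_nonneg fun p _ => Nat.cast_nonneg _) h0

end Pool.Agent.H532.UN
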