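import Mathlib
import Pool.Agent.H532.UN.Prob
import Pool.Agent.H532.RM.Crt
import Pool.Agent.H532.RM.Star

/-!
Exact patterns: deterministic comparison.
-/

namespace Pool.Agent.H532.UN

open Finset MeasureTheory Function Pool.Agent.H532.RM
open scoped ENNReal

/-- `n` is not removed by the primes `≤ W` and those of `P` -/
def nk (a : ℕ → ℕ) (W : ℕ) (P : Finset ℕ) (n : ℕ) : Prop :=
  (∀ p ∈ primesLe W, n % p ≠ a p % p) ∧ ∀ p ∈ P, a p ≠ n % p

open Classical in
/-- the positions `n` at which exactly the pattern `A` occurs -/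
noncomputable def Ex (a : ℕ → ℕ) (A : Finset ℕ) (j k W Z0 Z : ℕ) : Finset ℕ :=
  (Ico (2 ^ j) (2 ^ (j + 1) - k)).filter (fun n => (∀ i ∈ A, nk a W (bigP W Z) (n + i)) ∧
    ∀ i ∈ Ioc 0 k \ A, ¬ nk a W (bigP W Z0) (n + i))

/-- the possible further elements -/
def Ix (A : Finset ℕ) (m : ℕ → ℕ) (k : ℕ) : Finset ℕ :=
  (Ioc 0 k \ A).filter (fun i => ∀ p ∈ primesLe k, i % p ≠ m p % p)

/-- the pattern with one further element -/
def Ai (A : Finset ℕ) (Z0 i : ℕ) (p : ℕ) : Finset ℕ := if p ≤ Z0 then insert i A else A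

/-- the modulus -/
def Mk (k : ℕ) : ℕ := k * primorial k

lemma Mk_pos {k : ℕ} (hk : 1 ≤ k) : 0 < Mk k := Nat.mul_pos hk (primorial_pos k)

lemma le_Mk (k : ℕ) : k ≤ Mk k := Nat.le_mul_of_pos_right k (primorial_pos k)

lemma dvd_Mk {k p : ℕ} (hp : p ∈ primesLe k) : p ∣ Mk k := by
  have h1 : primorial k = ∏ p ∈ primesLe k, p := rfl
  exact (h1 ▸ dvd_prod_of_mem _ hp).mul_left k

lemma cop_Mk {k p : ℕ} (hk : 1 ≤ k) (hp : p.Prime) (hkp : k < p) : Nat.Coprime (Mk k) p := by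
  refine Nat.Coprime.mul_left ?_ ?_
  · exact (Nat.coprime_of_lt_prime (by omega) hkp hp).symm
  · rw [Nat.coprime_comm, Nat.Prime.coprime_iff_not_dvd hp]
    intro h
    have h2 : p ∣ ∏ q ∈ primesLe k, q := h
    rw [Prime.dvd_finsetProd_iff hp.prime] at h2
    obtain ⟨q, hq, h3⟩ := h2
    have hq' := mem_primesLe.1 hq
    have := (Nat.prime_dvd_prime_iff_eq hp hq'.2).1 h3
    omega

lemma exact_ge (a : ℕ → ℕ) {A : Finset ℕ} {m : ℕ → ℕ} {j k W Z0 Z B T : ℕ} (hk : 1 ≤ k)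
    (hkW : k ≤ W) (hA : A ⊆ Ioc 0 k)
    (hm : ∀ p ∈ primesLe k, ∀ i ∈ A, i % p ≠ m p % p)
    (hB1 : 2 ^ j ≤ B) (hB2 : B < 2 ^ j + 4 ^ k) (hB : ∀ p ∈ primesLe k, B + m p ≡ a p [MOD p])
    (hT : Mk k * T + 4 ^ k + k ≤ 2 ^ j) :
    (surv (OmA (fun _ => A) B (Mk k)) (bigP W Z) a (Sg A a B (Mk k) (bigP k W) T)).card ≤
      (Ex a A j k W Z0 Z).card + ∑ i ∈ Ix A m k,
        (surv (OmA (Ai A Z0 i) B (Mk k)) (bigP W Z) a (Sg (insert i A) a B (Mk k) (bigP k W) T)).card := by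
  classical
  set M := Mk k with hM
  have hM0 : 0 < M := Mk_pos hk
  have hA' : ∀ i ∈ A, 0 < i ∧ i ≤ k := fun i hi => mem_Ioc.1 (hA hi)
  have hQ : ∀ q ∈ bigP k W, q.Prime ∧ k < q ∧ q ≤ W := fun q hq =>
    ⟨(mem_bigP.1 hq).1.2, (mem_bigP.1 hq).2, (mem_bigP.1 hq).1.1⟩
  set U := surv (OmA (fun _ => A) B M) (bigP W Z) a (Sg A a B M (bigP k W) T) with hU
  set U1 := U.filter (fun t => B + M * t ∈ Ex a A j k W Z0 Z) with hU1
  have hc1 : U1.card ≤ (Ex a A j k W Z0 Z).card := by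
    refine card_le_card_of_injOn (fun t => B + M * t) (fun t ht => (mem_filter.1 (mem_coe.1 ht)).2) ?_
    intro t _ t' _ h
    have h1 : M * t = M * t' := by
      have : B + M * t = B + M * t' := h
      omega
    exact Nat.eq_of_mul_eq_mul_left hM0 h1
  have hsub : U ⊆ U1 ∪ (Ix A m k).biUnion (fun i =>
      surv (OmA (Ai A Z0 i) B M) (bigP W Z) a (Sg (insert i A) a B M (bigP k W) T)) := by
    intro t ht
    rw [mem_union]
    by_cases h : B + M * t ∈ Ex a A j k W Z0 Z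
    · left; exact mem_filter.2 ⟨ht, h⟩
    · right
      obtain ⟨h1, h2⟩ := mem_filter.1 ht
      rw [mem_Sg (fun q hq i hi => lt_of_le_of_lt (hA' i hi).2 (hQ q hq).2.1)
        (fun q hq => (hQ q hq).1.pos)] at h1
      obtain ⟨h3, h4⟩ := h1
      have hsmall : ∀ i, ∀ p ∈ primesLe k, ((B + M * t + i) % p = a p % p ↔ i % p = m p % p) := by
        intro i p hp
        have hMp : M * t ≡ 0 [MOD p] := (Nat.modEq_zero_iff_dvd.2 ((dvd_Mk hp).mul_right t))
        have e1 : B + M * t + i ≡ B + i [MOD p] := by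
          have := (Nat.ModEq.add_left B hMp).add_right i
          simpa using this
        have e2 := hB p hp
        constructor
        · intro h5
          have h6 : B + i ≡ B + m p [MOD p] := (e1.symm.trans h5).trans e2.symm
          exact Nat.ModEq.add_left_cancel' _ h6
        · intro h5
          have h6 : B + i ≡ B + m p [MOD p] := Nat.ModEq.add_left _ h5
          exact (e1.trans h6).trans e2
      have hAnk : ∀ i ∈ A, nk a W (bigP W Z) (B + M * t + i) := by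
        intro i hi
        constructor
        · intro p hp
          have hp' := mem_primesLe.1 hp
          rcases Nat.lt_or_ge k p with h5 | h5
          · exact h4 p (mem_bigP.2 ⟨⟨hp'.1, hp'.2⟩, h5⟩) i hi
          · intro h6
            have hpk : p ∈ primesLe k := mem_primesLe.2 ⟨h5, hp'.2⟩
            exact hm p hpk i hi ((hsmall i p hpk).1 h6)
        · intro p hp h5
          exact h2 p hp (mem_image.2 ⟨i, hi, h5.symm⟩)
      have hrange : B + M * t ∈ Ico (2 ^ j) (2 ^ (j + 1) - k) := by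
        rw [mem_Ico]
        have h5 : M * (t + 1) ≤ M * T := Nat.mul_le_mul_left M h3
        have h6 : 2 ^ (j + 1) = 2 * 2 ^ j := by rw [pow_succ]; ring
        have h7 : M * (t + 1) = M * t + M := by ring
        constructor
        · omega
        · omega
      have h5 : ∃ i ∈ Ioc 0 k \ A, nk a W (bigP W Z0) (B + M * t + i) := by
        by_contra hcon
        push Not at hcon
        exact h (mem_filter.2 ⟨hrange, hAnk, hcon⟩)
      obtain ⟨i, hi, h6⟩ := h5
      have hi' := mem_sdiff.1 hi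
      refine mem_biUnion.2 ⟨i, mem_filter.2 ⟨hi, fun p hp h7 => ?_⟩, mem_filter.2 ⟨?_, ?_⟩⟩
      · have hpk := mem_primesLe.1 hp
        exact h6.1 p (mem_primesLe.2 ⟨hpk.1.trans hkW, hpk.2⟩) ((hsmall i p hp).2 h7)
      · rw [mem_Sg (fun q hq i' hi'' => ?_) (fun q hq => (hQ q hq).1.pos)]
        · refine ⟨h3, fun q hq i' hi'' => ?_⟩
          rcases mem_insert.1 hi'' with rfl | h8
          · exact h6.1 q (mem_primesLe.2 ⟨(hQ q hq).2.2, (hQ q hq).1⟩)
          · exact h4 q hq i' h8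
        · rcases mem_insert.1 hi'' with rfl | h8
          · exact lt_of_le_of_lt (mem_Ioc.1 hi'.1).2 (hQ q hq).2.1
          · exact lt_of_le_of_lt (hA' i' h8).2 (hQ q hq).2.1
      · intro p hp h7
        obtain ⟨i', hi'', h8⟩ := mem_image.1 h7
        unfold Ai at hi''
        split_ifs at hi'' with h9
        · rcases mem_insert.1 hi'' with rfl | h10
          · exact h6.2 p (mem_bigP.2 ⟨⟨h9, (mem_bigP.1 hp).1.2⟩, (mem_bigP.1 hp).2⟩) h8.symm
          · exact h2 p hp (mem_image.2 ⟨i', h10, h8⟩)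
        · exact h2 p hp (mem_image.2 ⟨i', hi'', h8⟩)
  calc U.card ≤ _ := card_le_card hsub
    _ ≤ U1.card + ((Ix A m k).biUnion (fun i =>
      surv (OmA (Ai A Z0 i) B M) (bigP W Z) a (Sg (insert i A) a B M (bigP k W) T))).card :=
        card_union_le _ _
    _ ≤ _ := Nat.add_le_add hc1 card_biUnion_le

/-- lower bound for `∏ (1 - h / q)` -/
lemma rho_ge (h : ℕ) (P : Finset ℕ) (hP : ∀ q ∈ P, 0 < q ∧ 2 * h ≤ q) :
    Real.exp (-(h * ss P) - h ^ 2 * ∑ q ∈ P, 1 / (q : ℝ) ^ 2) ≤ rho h P := by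
  have e : -(h * ss P) - (h : ℝ) ^ 2 * ∑ q ∈ P, 1 / (q : ℝ) ^ 2 =
      ∑ q ∈ P, (-((h : ℝ) / q) - ((h : ℝ) / q) ^ 2) := by
    rw [sum_sub_distrib, sum_neg_distrib, sum_div_eq, mul_sum]
    congr 1
    refine sum_congr rfl fun q _ => ?_
    rw [div_pow, mul_one_div]
  rw [e, Real.exp_sum]
  unfold rho
  refine prod_le_prod (fun q _ => (Real.exp_pos _).le) fun q hq => ?_
  have hq0 : (0 : ℝ) < q := by exact_mod_cast (hP q hq).1
  have h2 : (2 * h : ℝ) ≤ q := by exact_mod_cast (hP q hq).2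
  have hx0 : 0 ≤ (h : ℝ) / q := by positivity
  have hx1 : (h : ℝ) / q ≤ 1 / 2 := by
    rw [div_le_iff₀ hq0]; linarith
  set x := (h : ℝ) / q with hx
  have h3 : 0 < 1 - x := by linarith
  have h7 : Real.exp (-x - x ^ 2) ≤ 1 - x := by
    have h8 : Real.exp (-x - x ^ 2) * (1 + (x + x ^ 2)) ≤ 1 := by
      have h9 := Real.add_one_le_exp (x + x ^ 2)
      have h10 : Real.exp (-x - x ^ 2) * Real.exp (x + x ^ 2) = 1 := by
        rw [← Real.exp_add]; simp
      calc Real.exp (-x - x ^ 2) * (1 + (x + x ^ 2)) ≤ Real.exp (-x - x ^ 2) * Real.exp (x + x ^ 2) := by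
            have := (Real.exp_pos (-x - x ^ 2)).le
            gcongr
            linarith
        _ = 1 := h10
    have h11 : (1 : ℝ) ≤ (1 - x) * Real.exp (x + x ^ 2) := by
      have hy : 0 ≤ x + x ^ 2 := by positivity
      have h12 := Real.quadratic_le_exp_of_nonneg hy
      have h13 : (1 : ℝ) ≤ (1 - x) * (1 + (x + x ^ 2) + (x + x ^ 2) ^ 2 / 2) := by
        nlinarith [mul_nonneg hx0 hx0, mul_nonneg (mul_nonneg hx0 hx0) (by linarith : (0:ℝ) ≤ 1/2 - x), mul_nonneg (mul_nonneg (mul_nonneg hx0 hx0) hx0) (by linarith : (0:ℝ) ≤ 1/2 - x), mul_nonneg (mul_nonneg (mul_nonneg (mul_nonneg hx0 hx0) hx0) hx0) (by linarith : (0:ℝ) ≤ 1/2 - x)]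
      exact h13.trans (mul_le_mul_of_nonneg_left h12 h3.le)
    have h14 : Real.exp (-x - x ^ 2) = (Real.exp (x + x ^ 2))⁻¹ := by
      rw [← Real.exp_neg]; congr 1; ring
    rw [h14, inv_le_iff_one_le_mul₀ (Real.exp_pos _)]
    linarith
  exact h7

lemma rho_le_exp (h : ℕ) (P : Finset ℕ) (hP : ∀ q ∈ P, 0 < q ∧ h ≤ q) :
    rho h P ≤ Real.exp (-(h * ss P)) := by
  have e : -((h : ℝ) * ss P) = ∑ q ∈ P, (-((h : ℝ) / q)) := by
    rw [sum_neg_distrib, sum_div_eq]
  rw [e, Real.exp_sum]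
  unfold rho
  refine prod_le_prod (fun q hq => ?_) fun q hq => ?_
  · have hq0 : (0 : ℝ) < q := by exact_mod_cast (hP q hq).1
    rw [sub_nonneg, div_le_one hq0]
    exact_mod_cast (hP q hq).2
  · have := Real.add_one_le_exp (-((h : ℝ) / q))
    linarith

end Pool.Agent.H532.UN
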