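import Mathlib
import Pool.Agent.H532.UN.Comb

/-!
Exact patterns: the probability of few positions.
-/

namespace Pool.Agent.H532.UN

open Finset MeasureTheory Function Pool.Agent.H532.RM
open scoped ENNReal

lemma ss_le_insert (P : Finset ℕ) (p : ℕ) (hp : p ∈ P) :
    ss (P.filter (· ≤ p)) = ss (P.filter (· < p)) + 1 / p := by
  have : P.filter (· ≤ p) = insert p (P.filter (· < p)) := by
    ext x
    simp only [mem_filter, mem_insert]
    constructor
    · rintro ⟨h1, h2⟩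
      rcases h2.eq_or_lt with h3 | h3
      · exact Or.inl h3
      · exact Or.inr ⟨h1, h3⟩
    · rintro (rfl | ⟨h1, h2⟩)
      · exact ⟨hp, le_rfl⟩
      · exact ⟨h1, h2.le⟩
  rw [this]
  unfold ss
  rw [sum_insert (by simp), add_comm]

lemma sum_Ai (A : Finset ℕ) (W Z0 Z i : ℕ) (hZ : Z0 ≤ Z) (hi : i ∉ A) :
    ∑ p ∈ bigP W Z, ((Ai A Z0 i p).card : ℝ) / p =
      A.card * ss (bigP W Z) + ss (bigP W Z0) := by
  have h1 : bigP W Z0 = (bigP W Z).filter (· ≤ Z0) := by
    ext p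
    simp only [mem_bigP, mem_filter]
    constructor
    · rintro ⟨⟨h1, h2⟩, h3⟩; exact ⟨⟨⟨h1.trans hZ, h2⟩, h3⟩, h1⟩
    · rintro ⟨⟨⟨_, h2⟩, h3⟩, h4⟩; exact ⟨⟨h4, h2⟩, h3⟩
  have h2 : ss (bigP W Z0) = ∑ p ∈ bigP W Z, (if p ≤ Z0 then 1 / (p : ℝ) else 0) := by
    rw [h1, ss, sum_filter]
  rw [h2, ← sum_div_eq, ← sum_add_distrib]
  refine sum_congr rfl fun p _ => ?_
  unfold Ai
  split_ifs
  · rw [card_insert_of_notMem hi]; push_cast; rw [add_div]
  · simp

theorem comb (ν : ℕ → Measure ℕ) [∀ p, IsProbabilityMeasure (ν p)] {j k W Z0 Z T q : ℕ}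
    (hν : ∀ p ∈ bigP W Z, UnifOn (ν p) p) (hk : 1 ≤ k) (hkW : k ≤ W) (hZ : Z0 ≤ Z)
    {A : Finset ℕ} (hA : A ⊆ Ioc 0 k) {m : ℕ → ℕ}
    (hm : ∀ p ∈ primesLe k, ∀ i ∈ A, i % p ≠ m p % p)
    (hT : Mk k * T + 4 ^ k + k ≤ 2 ^ j) (hq : 1 ≤ q) (N G b D0 α : ℝ) (hN : 0 < N)
    (hh : 200 * (A.card + 1) ^ 2 ≤ W)
    (he0 : (q * (A.card + 1) : ℝ) ^ 2 * (j + 1) / W ≤ 1)
    (hS1 : ∀ a B, 9 / 10 * N ≤ ((Sg A a B (Mk k) (bigP k W) T).card : ℝ))
    (hS2 : ∀ a B, ∀ p ∈ bigP W Z, ∀ r0, (((Sg A a B (Mk k) (bigP k W) T).filter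
      (fun t => (B + Mk k * t) % p = r0)).card : ℝ) ≤ 3 / 2 * N / p)
    (hS3 : ∀ i ∈ Ix A m k, ∀ a B, ((Sg (insert i A) a B (Mk k) (bigP k W) T).card : ℝ) ≤ G)
    (hqN : ∀ p ∈ bigP W Z, (q : ℝ) ≤ N / p * Real.exp (-(A.card * ss (bigP W Z))))
    (hα : 0 ≤ α) (hα1 : 8 * (A.card + 1) * α ≤ W)
    (hb : q + 2 * (G * Real.exp (-(A.card * ss (bigP W Z) + ss (bigP W Z0)))) ≤ b)
    (hD : D0 + (Ix A m k).card * b ≤ rho A.card (bigP W Z) * (13 / 20 * N)) (x : ℕ → ℕ) :
    lmarginal ν (bigP W Z) (fun a => if ((Ex a A j k W Z0 Z).card : ℝ) < D0 then 1 else 0) x ≤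
      ENNReal.ofReal (Real.exp (-(α / 4) + α ^ 2 * (64 * (A.card + 1) ^ 2) / W) +
        ((∑ p ∈ bigP W Z, (p : ℝ)) + (Ix A m k).card) * (Real.exp 1 * (1 / 2) ^ q)) := by
  classical
  set M := Mk k with hM
  set P := bigP W Z with hP
  have hM0 : 0 < M := Mk_pos hk
  have hkM : k ≤ M := le_Mk k
  have hW0 : 0 < W := by omega
  have hW' : (0 : ℝ) < W := by exact_mod_cast hW0
  have hPW : ∀ p ∈ P, p.Prime ∧ W < p := fun p hp => ⟨(mem_bigP.1 hp).1.2, (mem_bigP.1 hp).2⟩
  have hA' : ∀ i ∈ A, 0 < i ∧ i ≤ k := fun i hi => mem_Ioc.1 (hA hi)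
  set h : ℕ := A.card with hhd
  have hh' : 200 * ((h : ℝ) + 1) ^ 2 ≤ W := by exact_mod_cast hh
  have hh0 : (0 : ℝ) ≤ h := Nat.cast_nonneg _
  obtain ⟨B, hB1, hB2, hB⟩ := crt k (fun p => x p + (p - m p % p)) (2 ^ j)
  have hBm : ∀ p ∈ primesLe k, B + m p ≡ x p [MOD p] := by
    intro p hp
    have h1 := (hB p hp).add_right (m p)
    have hp0 := (mem_primesLe.1 hp).2.pos
    refine h1.trans ?_
    have h2 : x p + (p - m p % p) + m p ≡ x p + (p - m p % p) + m p % p [MOD p] :=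
      (Nat.mod_modEq (m p) p).symm.add_left _
    refine h2.trans ?_
    have h3 : m p % p < p := Nat.mod_lt _ hp0
    have e : x p + (p - m p % p) + m p % p = x p + p := by omega
    rw [e]
    simp [Nat.ModEq]
  set S := Sg A x B M (bigP k W) T with hS
  set Si : ℕ → Finset ℕ := fun i => Sg (insert i A) x B M (bigP k W) T with hSi
  have hax : ∀ y : P → ℕ, ∀ p, p ≤ W → updateFinset x P y p = x p := by
    intro y p hp
    rw [updateFinset_def]
    have : p ∉ P := fun h1 => by have := (hPW p h1).2; omega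
    simp [this]
  have hSgx : ∀ (A' : Finset ℕ) (y : P → ℕ), Sg A' (updateFinset x P y) B M (bigP k W) T =
      Sg A' x B M (bigP k W) T := by
    intro A' y
    unfold Sg avs
    refine filter_congr fun t _ => forall₂_congr fun p hp => ?_
    have : tw (Ng A' (updateFinset x P y)) B M p = tw (Ng A' x) B M p := by
      unfold tw Ng
      rw [hax y p (mem_bigP.1 hp).1.1]
    rw [this]
  have hSlt : ∀ (A' : Finset ℕ), ∀ t ∈ Sg A' x B M (bigP k W) T, B + M * t + k < 2 ^ (j + 1) := by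
    intro A' t ht
    have h1 : t < T := mem_range.1 (mem_filter.1 ht).1
    have h2 : M * t ≤ M * T := Nat.mul_le_mul_left M h1.le
    have h6 : 2 ^ (j + 1) = 2 * 2 ^ j := by rw [pow_succ]; ring
    omega
  have hidx : ∀ i ∈ Ix A m k, (0 < i ∧ i ≤ k) ∧ i ∉ A := by
    intro i hi
    have h1 := mem_sdiff.1 (mem_filter.1 hi).1
    exact ⟨mem_Ioc.1 h1.1, h1.2⟩
  have hpt : ∀ y : P → ℕ, (if ((Ex (updateFinset x P y) A j k W Z0 Z).card : ℝ) < D0
      then (1 : ℝ≥0∞) else 0) ≤
      (if ((surv (OmA (fun _ => A) B M) P (updateFinset x P y) S).card : ℝ) ≤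
        rho h P * (S.card - N / 4) then (1 : ℝ≥0∞) else 0) +
      ∑ i ∈ Ix A m k, (if b ≤ ((surv (OmA (Ai A Z0 i) B M) P (updateFinset x P y) (Si i)).card : ℝ)
        then (1 : ℝ≥0∞) else 0) := by
    intro y
    set a := updateFinset x P y with ha
    by_cases hE : ((Ex a A j k W Z0 Z).card : ℝ) < D0
    · rw [if_pos hE]
      by_cases h1 : ((surv (OmA (fun _ => A) B M) P a S).card : ℝ) ≤ rho h P * (S.card - N / 4)
      · rw [if_pos h1]; exact le_add_right le_rfl
      · refine le_trans ?_ (le_add_left le_rfl)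
        by_contra hcon
        have h2 : ∀ i ∈ Ix A m k,
            ((surv (OmA (Ai A Z0 i) B M) P a (Si i)).card : ℝ) < b := by
          intro i hi
          by_contra h3
          push Not at h3
          refine hcon ?_
          calc (1 : ℝ≥0∞) = (if b ≤ ((surv (OmA (Ai A Z0 i) B M) P a (Si i)).card : ℝ)
                then (1 : ℝ≥0∞) else 0) := (if_pos h3).symm
            _ ≤ _ := single_le_sum (f := fun i =>
                (if b ≤ ((surv (OmA (Ai A Z0 i) B M) P a (Si i)).card : ℝ)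
                then (1 : ℝ≥0∞) else 0)) (fun _ _ => zero_le) hi
        have h3 := exact_ge a (Z0 := Z0) (Z := Z) hk hkW hA hm hB1 hB2
          (fun p hp => by
            rw [ha, hax y p ((mem_primesLe.1 hp).1.trans hkW)]; exact hBm p hp) hT
        rw [ha, hSgx A y, ← ha] at h3
        have h4 : ∑ i ∈ Ix A m k, (surv (OmA (Ai A Z0 i) B (Mk k)) (bigP W Z) a
            (Sg (insert i A) a B (Mk k) (bigP k W) T)).card =
            ∑ i ∈ Ix A m k, (surv (OmA (Ai A Z0 i) B M) P a (Si i)).card := by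
          refine sum_congr rfl fun i _ => ?_
          rw [ha, ← hM, hSgx (insert i A) y]
        rw [h4] at h3
        have h5 : ((surv (OmA (fun _ => A) B M) P a S).card : ℝ) ≤ (Ex a A j k W Z0 Z).card +
            ∑ i ∈ Ix A m k, ((surv (OmA (Ai A Z0 i) B M) P a (Si i)).card : ℝ) := by
          exact_mod_cast h3
        have h6 : ∑ i ∈ Ix A m k, ((surv (OmA (Ai A Z0 i) B M) P a (Si i)).card : ℝ) ≤
            (Ix A m k).card * b := by
          refine (sum_le_sum fun i hi => (h2 i hi).le).trans (le_of_eq ?_)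
          rw [sum_const, nsmul_eq_mul]
        have h7 : 9 / 10 * N ≤ S.card := hS1 x B
        have hρ0 : 0 ≤ rho h P := rho_nonneg h P fun p hp => ⟨(hPW p hp).1.pos, by
          have := (hPW p hp).2
          nlinarith⟩
        have h8 : rho h P * (13 / 20 * N) ≤ rho h P * (S.card - N / 4) := by
          refine mul_le_mul_of_nonneg_left ?_ hρ0
          linarith
        push Not at h1
        linarith
    · rw [if_neg hE]; exact zero_le
  -- the two tails
  have hρge : ∀ P' ⊆ P, Real.exp (-(h * ss P') - 1 / 200) ≤ rho h P' := by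
    intro P' hP'
    refine le_trans (Real.exp_le_exp.2 ?_) (rho_ge h P' fun q hq' => ⟨(hPW q (hP' hq')).1.pos, by
      have := (hPW q (hP' hq')).2
      nlinarith⟩)
    have h1 := sum_inv_sq_le (P := P') hW0 fun q hq' => (hPW q (hP' hq')).2
    have h2 : (h : ℝ) ^ 2 * ∑ q ∈ P', 1 / (q : ℝ) ^ 2 ≤ h ^ 2 * (1 / W) := by gcongr
    have h3 : (h : ℝ) ^ 2 * (1 / W) ≤ 1 / 200 := by
      rw [mul_one_div, div_le_iff₀ hW']
      nlinarith
    linarith
  have htail1 := low_tail ν (P := P) (W := W) (J := j + 1) (k := k) hν hW0 hPW A hA' hkW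
    (by nlinarith) B M hkM S (hSlt A) q hq 1 (by
      refine le_trans ?_ he0
      push_cast
      have : (q * h : ℝ) ^ 2 ≤ (q * (h + 1) : ℝ) ^ 2 := by
        have : (q * h : ℝ) ≤ q * (h + 1) := by
          have : (h : ℝ) ≤ h + 1 := by linarith
          gcongr
        gcongr
      gcongr)
    (fun p => h * (3 / 2 * N / p)) (fun p => 8 * (h + 1) * N / p)
    (fun p hp r => class_sum A B M p r S _ (fun i hi =>
      lt_of_le_of_lt ((hA' i hi).2.trans hkW) (hPW p hp).2) (fun r0 => hS2 x B p hp r0))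
    (fun p hp => by
      have hp0 : (0 : ℝ) < p := by exact_mod_cast (hPW p hp).1.pos
      have hWp : (W : ℝ) ≤ p := by exact_mod_cast (hPW p hp).2.le
      have h1 := hρge (P.filter (· ≤ p)) (filter_subset _ _)
      rw [ss_le_insert P p hp] at h1
      have h2 := hqN p hp
      set s := ss (P.filter (· < p)) with hs
      have h3 : s ≤ ss P := by
        rw [hs]; unfold ss
        exact sum_le_sum_of_subset_of_nonneg (filter_subset _ _) fun _ _ _ => by positivity
      have h4 : Real.exp (-(h * ss P)) ≤ Real.exp (-(h * s)) := by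
        refine Real.exp_le_exp.2 (neg_le_neg ?_)
        gcongr
      have h5 : Real.exp (-(h * (s + 1 / p)) - 1 / 200) = Real.exp (-(h * s)) *
          Real.exp (-(h / p) - 1 / 200) := by
        rw [← Real.exp_add]; congr 1; ring
      have h6 : (h : ℝ) / p ≤ 1 / 200 := by
        rw [div_le_iff₀ hp0]
        nlinarith
      have h7 : (1 : ℝ) / 2 ≤ Real.exp (-(h / p) - 1 / 200) := by
        have := Real.add_one_le_exp (-((h : ℝ) / p) - 1 / 200)
        linarith
      have h8 : 0 < Real.exp (-(h * s)) := Real.exp_pos _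
      have h9 : Real.exp (-(h * s)) * (1 / 2) ≤ rp h P p := by
        unfold rp
        refine le_trans ?_ h1
        rw [h5]
        gcongr
      set E := Real.exp (-(h * s)) with hE
      have h10 : (q : ℝ) ≤ N / p * E := h2.trans (by gcongr)
      have hNp : 0 < N / p := by positivity
      calc (q : ℝ) + 2 * (h * (3 / 2 * N / p) * E) ≤ N / p * E + 2 * (h * (3 / 2 * N / p) * E) := by
            linarith
        _ = (3 * h + 1) * (N / p * E) := by ring
        _ ≤ (8 * (h + 1)) * (N / p * E) * (1 / 2) := by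
            have : 0 < N / p * E := by positivity
            nlinarith
        _ = (8 * (h + 1) * N / p) * (E * (1 / 2)) := by ring
        _ ≤ (8 * (h + 1) * N / p) * rp h P p := by gcongr)
    (α / N) (N / 4) (by positivity) (fun p hp => by
      have hp0 : (0 : ℝ) < p := by exact_mod_cast (hPW p hp).1.pos
      have hWp : (W : ℝ) ≤ p := by exact_mod_cast (hPW p hp).2.le
      have e : α / N * (8 * (h + 1) * N / p) = 8 * (h + 1) * α / p := by field_simp
      show α / N * (8 * (h + 1) * N / p) ≤ 1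
      rw [e, div_le_one hp0]
      linarith) x
  have hval1 : Real.exp (-(α / N * (N / 4)) + (α / N) ^ 2 *
      ∑ p ∈ P, (8 * ((h : ℝ) + 1) * N / p) ^ 2) ≤
      Real.exp (-(α / 4) + α ^ 2 * (64 * (h + 1) ^ 2) / W) := by
    refine Real.exp_le_exp.2 ?_
    have e1 : α / N * (N / 4) = α / 4 := by field_simp
    have e2 : (α / N) ^ 2 * ∑ p ∈ P, (8 * ((h : ℝ) + 1) * N / p) ^ 2 =
        α ^ 2 * (64 * (h + 1) ^ 2) * ∑ p ∈ P, 1 / (p : ℝ) ^ 2 := by
      rw [mul_sum, mul_sum]
      refine sum_congr rfl fun p hp => ?_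
      have hp0 : (0 : ℝ) < p := by exact_mod_cast (hPW p hp).1.pos
      field_simp
      ring
    rw [e1, e2]
    have h1 := sum_inv_sq_le (P := P) hW0 fun q hq' => (hPW q hq').2
    have h2 : α ^ 2 * (64 * ((h : ℝ) + 1) ^ 2) * ∑ p ∈ P, 1 / (p : ℝ) ^ 2 ≤
        α ^ 2 * (64 * ((h : ℝ) + 1) ^ 2) * (1 / W) := by gcongr
    rw [mul_one_div] at h2
    linarith
  have htail2 : ∀ i ∈ Ix A m k, lmarginal ν P (fun a =>
      if b ≤ ((surv (OmA (Ai A Z0 i) B M) P a (Si i)).card : ℝ) then (1 : ℝ≥0∞) else 0) x ≤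
      ENNReal.ofReal (Real.exp 1 * (1 / 2) ^ q) := by
    intro i hi
    obtain ⟨h1, h2⟩ := hidx i hi
    refine up_tail ν (P := P) (W := W) (J := j + 1) (k := k) hν hW0 hPW (Ai A Z0 i) (insert i A)
      (fun p _ => ?_) (fun i' hi' => ?_) B M hkM (Si i) (hSlt (insert i A)) q hq 1 ?_ b ?_ x
    · unfold Ai; split_ifs
      · exact Subset.refl _
      · exact subset_insert _ _
    · rcases mem_insert.1 hi' with rfl | h3
      · exact h1
      · exact hA' i' h3
    · rw [card_insert_of_notMem h2]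
      refine le_trans (le_of_eq ?_) he0
      push_cast
      ring
    · rw [sum_Ai A W Z0 Z i hZ h2]
      refine le_trans ?_ hb
      have h3 := hS3 i hi x B
      have h4 : ((Si i).card : ℝ) ≤ G := h3
      gcongr
  have hmm : ∀ i, Measurable (fun a : ℕ → ℕ =>
      if b ≤ ((surv (OmA (Ai A Z0 i) B M) P a (Si i)).card : ℝ) then (1 : ℝ≥0∞) else 0) := by
    intro i
    have hd : DepOn P (fun a : ℕ → ℕ =>
      if b ≤ ((surv (OmA (Ai A Z0 i) B M) P a (Si i)).card : ℝ) then (1 : ℝ≥0∞) else 0) := by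
      intro a a' haa
      have := dep_surv' (OmA (Ai A Z0 i) B M) P (Si i) a a' haa
      simp only at this ⊢
      rw [this]
    exact hd.measurable
  have hup : Measurable (fun y : (i : P) → ℕ => updateFinset x P y) := measurable_updateFinset
  have hmain : lmarginal ν P (fun a => if ((Ex a A j k W Z0 Z).card : ℝ) < D0 then 1 else 0) x ≤
      lmarginal ν P (fun a => if ((surv (OmA (fun _ => A) B M) P a S).card : ℝ) ≤
        rho h P * (S.card - N / 4) then (1 : ℝ≥0∞) else 0) x +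
      ∑ i ∈ Ix A m k, lmarginal ν P (fun a =>
        if b ≤ ((surv (OmA (Ai A Z0 i) B M) P a (Si i)).card : ℝ) then (1 : ℝ≥0∞) else 0) x := by
    have h1 : lmarginal ν P (fun a => if ((Ex a A j k W Z0 Z).card : ℝ) < D0 then 1 else 0) x ≤
      lmarginal ν P (fun a => (if ((surv (OmA (fun _ => A) B M) P a S).card : ℝ) ≤
        rho h P * (S.card - N / 4) then (1 : ℝ≥0∞) else 0) + ∑ i ∈ Ix A m k,
        (if b ≤ ((surv (OmA (Ai A Z0 i) B M) P a (Si i)).card : ℝ) then (1 : ℝ≥0∞) else 0)) x := by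
      unfold lmarginal
      exact lintegral_mono hpt
    refine h1.trans (le_of_eq ?_)
    unfold lmarginal
    rw [lintegral_add_right, lintegral_finsetSum]
    · intro i _
      exact (hmm i).comp hup
    · exact (Finset.measurable_sum _ fun i _ => hmm i).comp hup
  refine hmain.trans ?_
  have h0 : 0 ≤ Real.exp 1 * (1 / 2 : ℝ) ^ q := by positivity
  have hsum0 : 0 ≤ ∑ p ∈ P, (p : ℝ) := sum_nonneg fun p _ => Nat.cast_nonneg _
  calc _ ≤ ENNReal.ofReal (Real.exp (-(α / N * (N / 4)) + (α / N) ^ 2 *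
      ∑ p ∈ P, (8 * ((h : ℝ) + 1) * N / p) ^ 2) + (∑ p ∈ P, (p : ℝ)) * (Real.exp 1 * (1 / 2) ^ q)) +
        ∑ i ∈ Ix A m k, ENNReal.ofReal (Real.exp 1 * (1 / 2) ^ q) :=
        add_le_add htail1 (sum_le_sum htail2)
    _ = ENNReal.ofReal (Real.exp (-(α / N * (N / 4)) + (α / N) ^ 2 *
      ∑ p ∈ P, (8 * ((h : ℝ) + 1) * N / p) ^ 2) + (∑ p ∈ P, (p : ℝ)) * (Real.exp 1 * (1 / 2) ^ q) +
        (Ix A m k).card * (Real.exp 1 * (1 / 2) ^ q)) := by
        rw [sum_const, nsmul_eq_mul, ENNReal.ofReal_add (p := _ + _) (by positivity) (by positivity),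
          ENNReal.ofReal_mul (p := ((Ix A m k).card : ℝ)) (Nat.cast_nonneg _), ENNReal.ofReal_natCast]
    _ ≤ _ := by
        refine ENNReal.ofReal_le_ofReal ?_
        linarith

end Pool.Agent.H532.UN
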