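import Mathlib
import Pool.Agent.H532.UN.Comb2
import Pool.Agent.H532.RM.Low

/-!
Numerical facts.
-/

namespace Pool.Agent.H532.UN

open Finset Filter Pool.Agent.H532.RM
open scoped Topology

lemma logpow_small (n : ℕ) (δ : ℝ) (hδ : 0 < δ) : ∀ᶠ j : ℕ in atTop,
    (Real.log j) ^ n ≤ δ * Real.sqrt j := by
  have h1 : Tendsto (fun j : ℕ => Real.sqrt j) atTop atTop :=
    Real.tendsto_sqrt_atTop.comp tendsto_natCast_atTop_atTop
  have h2 := (Real.isLittleO_pow_log_id_atTop (n := n)).comp_tendsto h1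
  have h3 := h2.bound (show 0 < δ / 2 ^ n by positivity)
  filter_upwards [h3, eventually_ge_atTop 1] with j h4 hj
  have hj1 : (1 : ℝ) ≤ j := by exact_mod_cast hj
  have hl : 0 ≤ Real.log (Real.sqrt j) := Real.log_nonneg (by
    rw [Real.one_le_sqrt]; exact hj1)
  simp only [Function.comp, id, Real.norm_eq_abs] at h4
  rw [abs_of_nonneg (by positivity), abs_of_nonneg (Real.sqrt_nonneg _)] at h4
  have e : Real.log j = 2 * Real.log (Real.sqrt j) := by
    rw [Real.log_sqrt (by linarith)]; ring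
  rw [e, mul_pow]
  calc (2 : ℝ) ^ n * Real.log (Real.sqrt j) ^ n ≤ 2 ^ n * (δ / 2 ^ n * Real.sqrt j) := by gcongr
    _ = δ * Real.sqrt j := by field_simp

lemma pow_le_exp (n : ℕ) (δ : ℝ) (hδ : 0 < δ) : ∀ᶠ j : ℕ in atTop,
    (j : ℝ) ^ n ≤ Real.exp (δ * j) := by
  have h2 := (isLittleO_pow_exp_pos_mul_atTop n hδ).comp_tendsto tendsto_natCast_atTop_atTop
  have h3 := h2.bound (show (0 : ℝ) < 1 by norm_num)
  filter_upwards [h3] with j h4
  simp only [Function.comp, Real.norm_eq_abs] at h4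
  rw [abs_of_nonneg (by positivity), abs_of_pos (Real.exp_pos _), one_mul] at h4
  exact h4

lemma cardAI : ∃ C1 : ℝ, 1 ≤ C1 ∧ ∀ k : ℕ, 1 ≤ k → ∀ m : ℕ → ℕ,
    (T1 m k 0 k : ℝ) ≤ C1 * (k * V k) := by
  obtain ⟨C, hC, ζ0, h⟩ := upper
  have hV := V_pos ζ0
  refine ⟨max 1 (max C (1 / V ζ0)), le_max_left _ _, fun k hk m => ?_⟩
  have hVk := V_pos k
  have hk0 : (0 : ℝ) ≤ k := Nat.cast_nonneg _
  rcases le_total ζ0 k with h1 | h1
  · have h2 := h k h1 k (by nlinarith) m 0
    refine h2.trans ?_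
    gcongr
    exact (le_max_left C (1 / V ζ0)).trans (le_max_right _ _)
  · have h2 : (T1 m k 0 k : ℝ) ≤ k := by exact_mod_cast T1_le m k 0 k
    have h3 : V ζ0 ≤ V k := V_anti h1
    calc (T1 m k 0 k : ℝ) ≤ k := h2
      _ = 1 / V ζ0 * (k * V ζ0) := by field_simp
      _ ≤ max 1 (max C (1 / V ζ0)) * (k * V k) := by
        gcongr
        exact (le_max_right C (1 / V ζ0)).trans (le_max_right _ _)

lemma ss_le_log {w Z : ℕ} (h : w ≤ Z) : ss (bigP w Z) ≤ Real.log (V w / V Z) := by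
  have h1 : rho 1 (bigP w Z) ≤ Real.exp (-((1 : ℕ) * ss (bigP w Z))) :=
    rho_le_exp 1 _ fun q hq => ⟨(mem_bigP.1 hq).1.2.pos, (mem_bigP.1 hq).1.2.one_lt.le⟩
  rw [rho_bigP h] at h1
  have hw := V_pos w
  have hZ := V_pos Z
  rw [Real.le_log_iff_exp_le (by positivity)]
  have h2 : Real.exp (ss (bigP w Z)) * Real.exp (-((1 : ℕ) * ss (bigP w Z))) = 1 := by
    rw [← Real.exp_add]; simp
  have h3 : Real.exp (ss (bigP w Z)) * (V Z / V w) ≤ 1 := by
    rw [← h2]
    gcongr
  rw [le_div_iff₀ hZ]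
  rw [mul_div_assoc', div_le_one hw] at h3
  exact h3

lemma exp_neg_ss_le {W Z : ℕ} (hW : 2 ≤ W) (h : W ≤ Z) :
    Real.exp (-ss (bigP W Z)) ≤ V Z / V W * Real.exp (1 / W) := by
  have h1 := rho_ge 1 (bigP W Z) fun q hq => ⟨(mem_bigP.1 hq).1.2.pos, by
    have := (mem_bigP.1 hq).2
    omega⟩
  rw [rho_bigP h] at h1
  have h2 := sum_inv_sq_le (P := bigP W Z) (W := W) (by omega) fun q hq => (mem_bigP.1 hq).2
  have h3 : Real.exp (-ss (bigP W Z)) = Real.exp (-((1 : ℕ) * ss (bigP W Z)) -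
      ((1 : ℕ) : ℝ) ^ 2 * ∑ q ∈ bigP W Z, 1 / (q : ℝ) ^ 2) *
      Real.exp (∑ q ∈ bigP W Z, 1 / (q : ℝ) ^ 2) := by
    rw [← Real.exp_add]; congr 1; push_cast; ring
  rw [h3]
  have := V_pos Z
  have := V_pos W
  gcongr

lemma rho_succ_le (h : ℕ) (Q : Finset ℕ) (hQ : ∀ q ∈ Q, 0 < q ∧ h + 1 ≤ q) :
    rho (h + 1) Q ≤ rho h Q * rho 1 Q := by
  unfold rho
  rw [← prod_mul_distrib]
  refine prod_le_prod (fun q hq => ?_) fun q hq => ?_
  · have hq0 : (0 : ℝ) < q := by exact_mod_cast (hQ q hq).1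
    rw [sub_nonneg, div_le_one hq0]
    exact_mod_cast (hQ q hq).2
  · have hq0 : (0 : ℝ) < q := by exact_mod_cast (hQ q hq).1
    push_cast
    have : 0 ≤ (h : ℝ) / q * (1 / q) := by positivity
    have e : (1 - (h : ℝ) / q) * (1 - 1 / q) = 1 - (h + 1) / q + (h : ℝ) / q * (1 / q) := by
      field_simp
      ring
    rw [e]
    linarith

lemma two_mul_card_le {A : Finset ℕ} {k : ℕ} (hk : 1 ≤ k) (hA : A ⊆ Ioc 0 k) (m : ℕ → ℕ)
    (hm : ∀ p ∈ primesLe k, ∀ i ∈ A, i % p ≠ m p % p) : 2 * A.card ≤ k + 1 := by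
  rcases hk.eq_or_lt with rfl | hk2
  · have := card_le_card hA
    simp at this
    omega
  · have h2 : 2 ∈ primesLe k := mem_primesLe.2 ⟨hk2, Nat.prime_two⟩
    have hdis : Disjoint A (A.image (· + 1)) := by
      rw [Finset.disjoint_left]
      intro i hi hi'
      obtain ⟨i', hi'', h⟩ := mem_image.1 hi'
      have a1 := hm 2 h2 i hi
      have a2 := hm 2 h2 i' hi''
      omega
    have h3 : A ∪ A.image (· + 1) ⊆ Ioc 0 (k + 1) := by
      intro i hi
      rcases mem_union.1 hi with h | h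
      · have := mem_Ioc.1 (hA h)
        exact mem_Ioc.2 ⟨this.1, by omega⟩
      · obtain ⟨i', hi', rfl⟩ := mem_image.1 h
        have := mem_Ioc.1 (hA hi')
        exact mem_Ioc.2 ⟨by omega, by omega⟩
    have h4 := card_le_card h3
    rw [card_union_of_disjoint hdis, card_image_of_injective A (add_left_injective 1), Nat.card_Ioc]
      at h4
    omega

lemma pow_fact_le (x : ℝ) (r : ℕ) (hx : 0 ≤ x) (hr : x ≤ r / 3000) :
    x ^ r / r.factorial ≤ Real.exp (-(6 * r)) := by
  have h1 := Real.pow_div_factorial_le_exp (1000 * x) (by positivity) r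
  have h2 : Real.exp (1000 * x) ≤ Real.exp (r / 3) := Real.exp_le_exp.2 (by linarith)
  have h3 : (1000 * x) ^ r / r.factorial = 1000 ^ r * (x ^ r / r.factorial) := by
    rw [mul_pow, mul_div_assoc]
  rw [h3] at h1
  have h4 : Real.exp (19 / 3) ≤ 1000 := by
    have h5 : Real.exp (19 / 3) ≤ Real.exp 1 ^ 7 := by
      rw [← Real.exp_nat_mul]
      exact Real.exp_le_exp.2 (by norm_num)
    have h7 : Real.exp (19 / 3) ^ 3 = Real.exp 1 ^ 19 := by
      rw [← Real.exp_nat_mul, ← Real.exp_nat_mul]; congr 1; norm_num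
    have h8 : Real.exp 1 ^ 19 ≤ (2.7182818286 : ℝ) ^ 19 := by
      have := Real.exp_one_lt_d9
      gcongr
    have h9 : (2.7182818286 : ℝ) ^ 19 ≤ 1000 ^ 3 := by norm_num
    by_contra hcon
    push Not at hcon
    have h10 : (1000 : ℝ) ^ 3 < Real.exp (19 / 3) ^ 3 := by gcongr
    linarith
  have h5 : Real.exp (r / 3) = Real.exp (19 / 3) ^ r * Real.exp (-(6 * r)) := by
    rw [← Real.exp_nat_mul, ← Real.exp_add]; congr 1; ring
  have h6 : Real.exp (19 / 3) ^ r ≤ 1000 ^ r := by gcongr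
  have h7 : (1000 : ℝ) ^ r * (x ^ r / r.factorial) ≤ 1000 ^ r * Real.exp (-(6 * r)) := by
    calc (1000 : ℝ) ^ r * (x ^ r / r.factorial) ≤ Real.exp (r / 3) := h1.trans h2
      _ = Real.exp (19 / 3) ^ r * Real.exp (-(6 * r)) := h5
      _ ≤ 1000 ^ r * Real.exp (-(6 * r)) := by gcongr
  exact le_of_mul_le_mul_left h7 (by positivity)

/-- the bounds for the number of elements of patterns -/
lemma kbound (C1 ε1 η : ℝ) (hC1 : 1 ≤ C1) (hε1 : 0 < ε1) (hη : 0 < η) : ∃ c0 : ℝ, 0 < c0 ∧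
    ∀ᶠ j : ℕ in atTop, ∀ k : ℕ, 1 ≤ k → (k : ℝ) ≤ c0 * j →
      (C1 * (k * V k) + 1) * (Real.log (V k / V (Wj j)) + 1) ≤ ε1 * j / (6000 * Real.log j) ∧
      C1 * (k * V k) * Real.log j ≤ η * j := by
  obtain ⟨c, C, hc, hC, hV⟩ := V_two_sided
  set C6 : ℝ := |Real.log (80 * C / c)| + 1 with hC6
  have hC60 : 1 ≤ C6 := by rw [hC6]; have := abs_nonneg (Real.log (80 * C / c)); linarith
  set c0 : ℝ := min (min (ε1 / (24000 * C * C1 * C6)) (η / (2 * C * C1))) 1 with hc0
  have hc0p : 0 < c0 := by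
    rw [hc0]
    refine lt_min (lt_min ?_ ?_) one_pos <;> positivity
  have hc01 : c0 ≤ 1 := min_le_right _ _
  have hc02 : c0 ≤ ε1 / (24000 * C * C1 * C6) := (min_le_left _ _).trans (min_le_left _ _)
  have hc03 : c0 ≤ η / (2 * C * C1) := (min_le_left _ _).trans (min_le_right _ _)
  refine ⟨c0, hc0p, ?_⟩
  have hs : Tendsto (fun j : ℕ => Real.sqrt j) atTop atTop :=
    Real.tendsto_sqrt_atTop.comp tendsto_natCast_atTop_atTop
  have hl : Tendsto (fun j : ℕ => Real.log j) atTop atTop :=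
    Real.tendsto_log_atTop.comp tendsto_natCast_atTop_atTop
  filter_upwards [logpow_small 2 (ε1 / (48000 * C1)) (by positivity), logpow_small 1 (η / C1) (by positivity),
    hl.eventually_ge_atTop 2, hl.eventually_ge_atTop (40 / c), eventually_ge_atTop 2,
    logpow_small 2 (ε1 / (12000 * C6)) (by positivity), hs.eventually_ge_atTop 1,
    hs.eventually_ge_atTop 2]
    with j e1 e2 e3 e4 e5 e6 e7 e8 k hk hkj
  have hj2 : (2 : ℝ) ≤ j := by exact_mod_cast e5
  have hj0 : (0 : ℝ) < j := by linarith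
  have hlj : 0 < Real.log j := by linarith
  set s := Real.sqrt j with hsd
  have hss : s * s = j := Real.mul_self_sqrt hj0.le
  have hs0 : 0 < s := by linarith
  have hVk := V_pos k
  have hVk1 : V k ≤ 1 := by
    have := V_anti (Nat.zero_le k)
    rwa [V_zero] at this
  have hjW : j ≤ Wj j := Nat.le_self_pow (by norm_num) j
  have hVW := V_pos (Wj j)
  have hVWl := (hV (Wj j) (by omega)).1
  rw [log_Wj] at hVWl
  have hk0 : (0 : ℝ) < k := by exact_mod_cast hk
  rcases le_or_gt (k : ℝ) s with hks | hks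
  · -- small `k`
    have h1 : (k : ℝ) * V k ≤ s := by nlinarith
    have h2 : V k / V (Wj j) ≤ Real.log j ^ 2 := by
      rw [div_le_iff₀ hVW]
      have h3 : (1 : ℝ) ≤ Real.log j ^ 2 * V (Wj j) := by
        have h4 : c ≤ 40 * (Real.log j * V (Wj j)) := by nlinarith
        have h5 : 40 / c * (Real.log j * V (Wj j)) ≤ Real.log j * (Real.log j * V (Wj j)) := by
          gcongr
        have h6 : 1 ≤ 40 / c * (Real.log j * V (Wj j)) := by
          rw [div_mul_eq_mul_div, le_div_iff₀ hc]; linarith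
        nlinarith
      linarith
    have h3 : Real.log (V k / V (Wj j)) + 1 ≤ 2 * Real.log j := by
      have h4 : Real.log (V k / V (Wj j)) ≤ Real.log (Real.log j ^ 2) :=
        Real.log_le_log (by positivity) h2
      rw [Real.log_pow] at h4
      have h5 := Real.log_le_sub_one_of_pos hlj
      push_cast at h4
      linarith
    constructor
    · rw [le_div_iff₀ (by positivity)]
      have h4 : C1 * (k * V k) + 1 ≤ 2 * C1 * s := by nlinarith
      have h5 : 0 ≤ C1 * (k * V k) + 1 := by positivity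
      calc (C1 * (k * V k) + 1) * (Real.log (V k / V (Wj j)) + 1) * (6000 * Real.log j)
          ≤ (C1 * (k * V k) + 1) * (2 * Real.log j) * (6000 * Real.log j) := by gcongr
        _ ≤ (2 * C1 * s) * (2 * Real.log j) * (6000 * Real.log j) := by gcongr
        _ = 24000 * C1 * s * Real.log j ^ 2 := by ring
        _ ≤ 24000 * C1 * s * (ε1 / (48000 * C1) * s) := by gcongr
        _ = ε1 / 2 * (s * s) := by field_simp; ring
        _ ≤ ε1 * j := by rw [hss]; nlinarith
    · rw [pow_one] at e2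
      calc C1 * (k * V k) * Real.log j ≤ C1 * s * (η / C1 * s) := by gcongr
        _ = η * (s * s) := by field_simp
        _ = η * j := by rw [hss]
  · -- large `k`
    have hlk : Real.log j / 2 ≤ Real.log k := by
      have : Real.log s ≤ Real.log k := Real.log_le_log hs0 hks.le
      rw [hsd, Real.log_sqrt hj0.le] at this
      exact this
    have hk2 : 2 ≤ k := by
      have : (2 : ℝ) ≤ k := e8.trans hks.le
      exact_mod_cast this
    have hVk2 := (hV k hk2).2
    have hVk3 : V k * Real.log j ≤ 2 * C := by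
      have : V k * (Real.log j / 2) ≤ V k * Real.log k := by gcongr
      linarith
    have h1 : (k : ℝ) * V k * Real.log j ≤ 2 * C * (c0 * j) := by
      calc (k : ℝ) * V k * Real.log j = k * (V k * Real.log j) := by ring
        _ ≤ (c0 * j) * (2 * C) := by gcongr
        _ = 2 * C * (c0 * j) := by ring
    have h2 : V k / V (Wj j) ≤ 80 * C / c := by
      rw [div_le_iff₀ hVW, div_mul_eq_mul_div, le_div_iff₀ hc]
      have h3 : V k * c ≤ V k * (V (Wj j) * (40 * Real.log j)) := by gcongr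
      have h4 : V k * (V (Wj j) * (40 * Real.log j)) = 40 * (V k * Real.log j) * V (Wj j) := by
        ring
      have h5 : 40 * (V k * Real.log j) * V (Wj j) ≤ 40 * (2 * C) * V (Wj j) := by gcongr
      linarith
    have h3 : Real.log (V k / V (Wj j)) + 1 ≤ C6 := by
      have h4 : Real.log (V k / V (Wj j)) ≤ Real.log (80 * C / c) :=
        Real.log_le_log (by positivity) h2
      have h5 := le_abs_self (Real.log (80 * C / c))
      rw [hC6]; linarith
    constructor
    · rw [le_div_iff₀ (by positivity)]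
      have h5 : 0 ≤ C1 * (k * V k) + 1 := by positivity
      have h6 : Real.log j ≤ ε1 / (12000 * C6) * j := by
        have h7 : Real.log j ≤ Real.log j ^ 2 := by nlinarith
        have h8 : s ≤ j := by rw [← hss]; nlinarith
        calc Real.log j ≤ Real.log j ^ 2 := h7
          _ ≤ ε1 / (12000 * C6) * s := e6
          _ ≤ ε1 / (12000 * C6) * j := by gcongr
      calc (C1 * (k * V k) + 1) * (Real.log (V k / V (Wj j)) + 1) * (6000 * Real.log j)
          ≤ (C1 * (k * V k) + 1) * C6 * (6000 * Real.log j) := by gcongr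
        _ = 6000 * C6 * C1 * (k * V k * Real.log j) + 6000 * C6 * Real.log j := by ring
        _ ≤ 6000 * C6 * C1 * (2 * C * (c0 * j)) + 6000 * C6 * (ε1 / (12000 * C6) * j) := by gcongr
        _ ≤ 6000 * C6 * C1 * (2 * C * (ε1 / (24000 * C * C1 * C6) * j)) +
            6000 * C6 * (ε1 / (12000 * C6) * j) := by gcongr
        _ = ε1 * j := by field_simp; ring
    · calc C1 * (k * V k) * Real.log j = C1 * (k * V k * Real.log j) := by ring
        _ ≤ C1 * (2 * C * (c0 * j)) := by gcongr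
        _ ≤ C1 * (2 * C * (η / (2 * C * C1) * j)) := by gcongr
        _ = η * j := by field_simp

end Pool.Agent.H532.UN
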