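import Mathlib
import Pool.Agent.H532.UN.Num

/-!
One dyadic block, one pattern.
-/

namespace Pool.Agent.H532.UN

open Finset Filter MeasureTheory Function Pool.Agent.H532.RM
open scoped Topology ENNReal

/-- facts on the sieving limits -/
structure ZOK (j W Z0 Z : ℕ) : Prop where
  WZ : W ≤ Z0
  ZZ : Z0 ≤ Z
  lZ : Real.log Z ≤ 0.63 * Real.log 2 * j
  V1 : 0.99 ≤ V Z * (j * Real.log 2)
  V2 : V Z0 * (j * Real.log 2) ≤ 1.1

lemma zfacts (z : ℕ → ℕ) (hz : Monotone z)
    (hzl : Tendsto (fun n : ℕ => V (z n) * Real.log n) atTop (𝓝 1)) :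
    ∀ᶠ j : ℕ in atTop, ZOK j (Wj j) (z (2 ^ j)) (z (2 ^ (j + 1))) := by
  have h1 := V_pow_two z hzl
  have h2 := V_pow_two' z hzl
  obtain ⟨c, C, hc, hC, hV⟩ := V_two_sided
  have hl2 : 0 < Real.log 2 := Real.log_pos (by norm_num)
  have hWZ : ∀ᶠ j : ℕ in atTop, Wj j ≤ z (2 ^ j) := by
    filter_upwards [h1.eventually (gt_mem_nhds (show (1 : ℝ) < 1.1 by norm_num)),
      logpow_small 1 (c * Real.log 2 / 80) (by positivity), eventually_ge_atTop 2] with j e1 e2 e3
    by_contra hcon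
    have h4 := V_anti (not_le.1 hcon).le
    have hj2 : (2 : ℝ) ≤ j := by exact_mod_cast e3
    have hj0 : (0 : ℝ) < j := by linarith
    have hjW : j ≤ Wj j := Nat.le_self_pow (by norm_num) j
    have h5 := (hV (Wj j) (by omega)).1
    rw [log_Wj] at h5
    rw [pow_one] at e2
    have hs : Real.sqrt j ≤ j := by
      rw [Real.sqrt_le_left hj0.le]; nlinarith
    have h6 : Real.log j ≤ c * Real.log 2 / 80 * j := e2.trans (by gcongr)
    have hVW := V_pos (Wj j)
    have h7 : c ≤ V (Wj j) * (40 * (c * Real.log 2 / 80 * j)) := h5.trans (by gcongr)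
    have h8 : V (Wj j) * (j * Real.log 2) ≤ 1.1 := by
      refine le_trans ?_ e1.le
      gcongr
    have h9 : V (Wj j) * (40 * (c * Real.log 2 / 80 * j)) =
        c / 2 * (V (Wj j) * (j * Real.log 2)) := by ring
    rw [h9] at h7
    have h10 : c / 2 * (V (Wj j) * (j * Real.log 2)) ≤ c / 2 * 1.1 := by gcongr
    linarith
  have hZt : Tendsto (fun j => z (2 ^ (j + 1))) atTop atTop := by
    refine tendsto_atTop_mono' atTop ?_ (tendsto_atTop_mono (fun j => Nat.le_self_pow (by norm_num) j) tendsto_id : Tendsto Wj atTop atTop)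
    filter_upwards [hWZ] with j hj
    exact hj.trans (hz (Nat.pow_le_pow_right (by norm_num) (by omega)))
  have h3 : Tendsto (fun j => V (z (2 ^ (j + 1))) * Real.log (z (2 ^ (j + 1)))) atTop
      (𝓝 (Real.exp (-Real.eulerMascheroniConstant))) := V_log.comp hZt
  have hg : Real.exp (-Real.eulerMascheroniConstant) < 0.61 := by
    have h4 := Real.one_half_lt_eulerMascheroniConstant
    have h5 : Real.exp (-Real.eulerMascheroniConstant) ≤ Real.exp (-(1 / 2)) :=
      Real.exp_le_exp.2 (by linarith)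
    have h6 : Real.exp (-(1 / 2)) ^ 2 = (Real.exp 1)⁻¹ := by
      rw [← Real.exp_nat_mul, ← Real.exp_neg]; congr 1; norm_num
    have h7 : (Real.exp 1)⁻¹ ≤ (2.7182818283 : ℝ)⁻¹ := by
      have := Real.exp_one_gt_d9
      gcongr
    have h8 : (2.7182818283 : ℝ)⁻¹ < 0.61 ^ 2 := by norm_num
    have h9 : Real.exp (-(1 / 2)) < 0.61 := by
      by_contra hcon
      push Not at hcon
      have : (0.61 : ℝ) ^ 2 ≤ Real.exp (-(1 / 2)) ^ 2 := by gcongr
      linarith
    linarith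
  filter_upwards [hWZ, h3.eventually (gt_mem_nhds hg),
    h2.eventually (lt_mem_nhds (show (0.99 : ℝ) < 1 by norm_num)),
    h1.eventually (gt_mem_nhds (show (1 : ℝ) < 1.1 by norm_num)), eventually_ge_atTop 1] with
    j e1 e2 e3 e4 e5
  refine ⟨e1, hz (Nat.pow_le_pow_right (by norm_num) (by omega)), ?_, e3.le, e4.le⟩
  have hVZ := V_pos (z (2 ^ (j + 1)))
  have hj0 : (0 : ℝ) < j := by exact_mod_cast e5
  -- `log Z ≤ 0.61 / V Z ≤ 0.61 / 0.99 * j log 2`
  have h4 : V (z (2 ^ (j + 1))) * Real.log (z (2 ^ (j + 1))) ≤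
      V (z (2 ^ (j + 1))) * (0.63 * Real.log 2 * j) := by
    refine e2.le.trans ?_
    have : V (z (2 ^ (j + 1))) * (0.63 * Real.log 2 * j) =
        0.63 * (V (z (2 ^ (j + 1))) * (j * Real.log 2)) := by ring
    rw [this]
    linarith
  exact le_of_mul_le_mul_left h4 hVZ

/-- elementary facts for large `j` -/
structure JOK (c0 ε1 e : ℝ) (j r : ℕ) : Prop where
  j100 : (100 : ℝ) ≤ j
  l1 : 1 ≤ Real.log j
  r1 : (r : ℝ) * Real.log j ≤ ε1 * j
  r2 : ε1 * j / (2 * Real.log j) ≤ r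
  r3 : Real.log j ≤ r
  pe : (j : ℝ) ^ 6 ≤ Real.exp (0.01 * j)
  fin : Real.log 2 ≤ 0.1 * e * j
  cj : 2 * Real.log 2 ≤ (5 - 4 * Real.log 2) * c0 * j

lemma jfacts (c0 ε1 e : ℝ) (hc0 : 0 < c0) (hε1 : 0 < ε1) (he : 0 < e) :
    ∀ᶠ j : ℕ in atTop, JOK c0 ε1 e j ⌊ε1 * j / Real.log j⌋₊ := by
  have hl : Tendsto (fun j : ℕ => Real.log j) atTop atTop :=
    Real.tendsto_log_atTop.comp tendsto_natCast_atTop_atTop
  have hr : Tendsto (fun j : ℕ => (j : ℝ)) atTop atTop := tendsto_natCast_atTop_atTop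
  have h4 : (0 : ℝ) < 5 - 4 * Real.log 2 := by have := Real.log_two_lt_d9; linarith
  filter_upwards [hr.eventually_ge_atTop 100, hl.eventually_ge_atTop 1,
    logpow_small 2 (ε1 / 2) (by positivity), pow_le_exp 6 0.01 (by norm_num),
    hr.eventually_ge_atTop (Real.log 2 / (0.1 * e)),
    hr.eventually_ge_atTop (2 * Real.log 2 / ((5 - 4 * Real.log 2) * c0))] with j e1 e2 e3 e4 e5 e6
  have hj0 : (0 : ℝ) < j := by linarith
  have hl0 : 0 < Real.log j := by linarith
  have hs : Real.sqrt j ≤ j := by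
    rw [Real.sqrt_le_left hj0.le]; nlinarith
  have h5 : Real.log j ^ 2 ≤ ε1 / 2 * j := e3.trans (by gcongr)
  have h6 : Real.log j ≤ Real.log j ^ 2 := by nlinarith
  have h7 : 2 ≤ ε1 * j / Real.log j := by
    rw [le_div_iff₀ hl0]; linarith
  have h8 : ε1 * j / Real.log j - 1 < ⌊ε1 * j / Real.log j⌋₊ := Nat.sub_one_lt_floor _
  have h9 : (⌊ε1 * j / Real.log j⌋₊ : ℝ) ≤ ε1 * j / Real.log j := Nat.floor_le (by linarith)
  have h10 : ε1 * j / (2 * Real.log j) = ε1 * j / Real.log j / 2 := by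
    field_simp
  refine ⟨e1, e2, ?_, ?_, ?_, e4, ?_, ?_⟩
  · calc (⌊ε1 * j / Real.log j⌋₊ : ℝ) * Real.log j ≤ ε1 * j / Real.log j * Real.log j := by gcongr
      _ = ε1 * j := by field_simp
  · rw [h10]; linarith
  · have h11 : Real.log j ≤ ε1 * j / Real.log j / 2 := by
      rw [le_div_iff₀ (by norm_num : (0 : ℝ) < 2), le_div_iff₀ hl0]
      nlinarith
    linarith
  · rw [div_le_iff₀ (by positivity)] at e5
    linarith
  · rw [div_le_iff₀ (by positivity)] at e6
    linarith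

end Pool.Agent.H532.UN
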