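import Mathlib
import Pool.Agent.H532.UN.Block

/-!
Real inequalities for the main estimate.
-/

namespace Pool.Agent.H532.UN

open Finset Filter MeasureTheory Function Pool.Agent.H532.RM
open scoped Topology ENNReal

lemma rl_exp5 {r J lj : ℝ} (h1 : 1 ≤ lj) (h2 : lj ≤ r) (hJ : 100 ≤ J) (hlj : lj = Real.log J) :
    Real.exp (-(5 * r)) ≤ 1 / 100 ∧ Real.exp (-(5 * r)) ≤ 1 / 10 * (1 / J) := by
  have hJ0 : 0 < J := by linarith
  constructor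
  · have h3 : Real.exp (-(5 * r)) ≤ Real.exp (-5) := Real.exp_le_exp.2 (by linarith)
    have h4 : Real.exp (-5) = (Real.exp 1 ^ 5)⁻¹ := by
      rw [← Real.exp_nat_mul, ← Real.exp_neg]; congr 1; norm_num
    have h5 : (100 : ℝ) ≤ Real.exp 1 ^ 5 := by
      have h6 := Real.exp_one_gt_d9
      calc (100 : ℝ) ≤ 2.7182818283 ^ 5 := by norm_num
        _ ≤ Real.exp 1 ^ 5 := by gcongr
    have h6 : (Real.exp 1 ^ 5)⁻¹ ≤ (100 : ℝ)⁻¹ := by gcongr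
    rw [h4] at h3
    calc Real.exp (-(5 * r)) ≤ (Real.exp 1 ^ 5)⁻¹ := h3
      _ ≤ (100 : ℝ)⁻¹ := h6
      _ = 1 / 100 := by norm_num
  · have h3 : Real.exp (-(5 * r)) ≤ Real.exp (-(5 * lj)) := Real.exp_le_exp.2 (by linarith)
    have h4 : Real.exp (-(5 * lj)) = (J ^ 5)⁻¹ := by
      rw [hlj, Real.exp_neg]
      congr 1
      rw [show (5 : ℝ) * Real.log J = (5 : ℕ) * Real.log J by norm_num, Real.exp_nat_mul,
        Real.exp_log hJ0]
    rw [h4] at h3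
    refine h3.trans ?_
    rw [one_div_mul_one_div, ← one_div]
    refine one_div_le_one_div_of_le (by positivity) ?_
    have h5 : J ^ 5 = J ^ 4 * J := by ring
    rw [h5]
    have h6 : (10 : ℝ) ≤ J ^ 4 := by
      calc (10 : ℝ) ≤ 100 ^ 4 := by norm_num
        _ ≤ J ^ 4 := by gcongr
    gcongr

lemma rl_R2 {r : ℕ} {J lj h' C : ℝ} (hJ : 100 ≤ J) (hlj : lj = Real.log J)
    (hr : r * lj ≤ J / 10000) (h0 : 0 ≤ h') (h1 : h' ≤ J) (hC0 : 0 ≤ C) (hC : C ≤ J ^ 40) :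
    (1 + 3 * (h' * C)) ^ r ≤ Real.exp (0.01 * J) := by
  have hJ0 : 0 < J := by linarith
  have h2 : 1 + 3 * (h' * C) ≤ J ^ 42 := by
    have h3 : h' * C ≤ J * J ^ 40 := by gcongr
    have h4 : J ^ 42 = J * (J * J ^ 40) := by ring
    have h5 : (1 : ℝ) ≤ J * J ^ 40 := by
      have h6 : (1 : ℝ) ≤ J := by linarith
      have h7 := one_le_pow₀ h6 (n := 40)
      nlinarith
    rw [h4]
    have h8 : 100 * (J * J ^ 40) ≤ J * (J * J ^ 40) := by gcongr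
    linarith
  calc (1 + 3 * (h' * C)) ^ r ≤ (J ^ 42) ^ r := by gcongr
    _ = Real.exp (42 * (r * lj)) := by
      rw [← pow_mul, hlj]
      rw [show (42 : ℝ) * (r * Real.log J) = ((42 * r : ℕ) : ℝ) * Real.log J by push_cast; ring,
        Real.exp_nat_mul, Real.exp_log hJ0]
    _ ≤ Real.exp (0.01 * J) := Real.exp_le_exp.2 (by norm_num; linarith)

/-- powers and exponentials -/
lemma rl_pe {J : ℝ} (hJ : 100 ≤ J) (hpe : J ^ 6 ≤ Real.exp (0.01 * J)) :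
    1000000 * Real.exp (0.01 * J) ≤ Real.exp (0.02 * J) ∧
    10 * J * Real.exp (0.01 * J) ≤ Real.exp (0.02 * J) ∧
    J ^ 3 ≤ Real.exp (0.01 * J) ∧ J ≤ Real.exp (0.01 * J) ∧ J ^ 2 ≤ Real.exp (0.01 * J) := by
  have e : Real.exp (0.02 * J) = Real.exp (0.01 * J) * Real.exp (0.01 * J) := by
    rw [← Real.exp_add]; congr 1; ring
  have h0 := Real.exp_pos (0.01 * J)
  have h6 : (1000000 : ℝ) ≤ J ^ 6 := by
    calc (1000000 : ℝ) ≤ 100 ^ 6 := by norm_num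
      _ ≤ J ^ 6 := by gcongr
  have h7 : 10 * J ≤ J ^ 6 := by
    have h8 : J ^ 6 = J ^ 5 * J := by ring
    rw [h8]
    have h9 : (10 : ℝ) ≤ J ^ 5 := by
      calc (10 : ℝ) ≤ 100 ^ 5 := by norm_num
        _ ≤ J ^ 5 := by gcongr
    gcongr
  have hJ1 : (1 : ℝ) ≤ J := by linarith
  refine ⟨?_, ?_, ?_, ?_, ?_⟩
  · rw [e]
    exact mul_le_mul_of_nonneg_right (h6.trans hpe) h0.le
  · rw [e]
    exact mul_le_mul_of_nonneg_right (h7.trans hpe) h0.le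
  · exact (pow_le_pow_right₀ hJ1 (by norm_num)).trans hpe
  · refine le_trans ?_ hpe
    calc J = J ^ 1 := (pow_one J).symm
      _ ≤ J ^ 6 := pow_le_pow_right₀ hJ1 (by norm_num)
  · exact (pow_le_pow_right₀ hJ1 (by norm_num)).trans hpe

lemma rl_S1 {card N T v R1 R2 E : ℝ} (h : -(T * R1 + (R2 - 1)) ≤ card - T * v) (hT : 0 ≤ T)
    (hv : 0 ≤ v) (hR1 : R1 ≤ v * E) (hE : E ≤ 1 / 100) (hR2 : R2 ≤ N / 100) (hN : N = T * v) :
    9 / 10 * N ≤ card := by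
  have h1 : T * R1 ≤ T * (v * (1 / 100)) := by
    refine mul_le_mul_of_nonneg_left (hR1.trans ?_) hT
    gcongr
  have h2 : T * (v * (1 / 100)) = N / 100 := by rw [hN]; ring
  rw [← hN] at h
  have h3 : 0 ≤ N := by rw [hN]; positivity
  linarith

lemma rl_S2 {card N T v R1 R2 E p : ℝ} (h : card ≤ (T / p + 1) * (v + R1) + (R2 - 1)) (hT : 0 ≤ T)
    (hv : 0 ≤ v) (hv1 : v ≤ 1) (hR1 : R1 ≤ v * E) (hE : E ≤ 1 / 100) (hp : 0 < p)
    (hR2 : 10 * R2 ≤ N / p) (h2 : 1 ≤ R2) (hN : N = T * v) : card ≤ 3 / 2 * N / p := by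
  have h4 : v + R1 ≤ 1.01 * v := by
    have : v * E ≤ v * (1 / 100) := by gcongr
    linarith
  have h6 : (T / p + 1) * (v + R1) ≤ (T / p + 1) * (1.01 * v) := by
    refine mul_le_mul_of_nonneg_left h4 (by positivity)
  have h7 : (T / p + 1) * (1.01 * v) = 1.01 * (N / p) + 1.01 * v := by
    rw [hN]; field_simp
  have h10 : 3 / 2 * N / p = 3 / 2 * (N / p) := by ring
  rw [h10]
  linarith

lemma rl_S3 {card N T v R1 R2 E J u ρ' : ℝ} (h : card - T * ρ' ≤ T * R1 + (R2 - 1)) (hT : 0 ≤ T)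
    (hv : 0 ≤ v) (hR1 : R1 ≤ v * E) (hE : E ≤ 1 / 10 * (1 / J)) (hρ : ρ' ≤ v * u)
    (hu : 1 / J ≤ u) (hJ : 0 < J) (hR2 : 10 * J * R2 ≤ N) (hN : N = T * v) :
    card ≤ 1.2 * (N * u) := by
  have h5 : T * ρ' ≤ N * u := by
    calc T * ρ' ≤ T * (v * u) := by gcongr
      _ = N * u := by rw [hN]; ring
  have hN0 : 0 ≤ N := by rw [hN]; positivity
  have h6 : T * R1 ≤ 1 / 10 * (N * u) := by
    calc T * R1 ≤ T * (v * (1 / 10 * (1 / J))) := by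
          refine mul_le_mul_of_nonneg_left (hR1.trans ?_) hT
          gcongr
      _ = 1 / 10 * (N * (1 / J)) := by rw [hN]; ring
      _ ≤ 1 / 10 * (N * u) := by gcongr
  have h7 : R2 ≤ 1 / 10 * (N * u) := by
    have h8 : N * (1 / J) ≤ N * u := by gcongr
    have h9 : 10 * R2 ≤ N * (1 / J) := by
      rw [mul_one_div, le_div_iff₀ hJ]
      linarith
    linarith
  norm_num
  linarith

lemma rl_b {J q N u w Es E1 Y b : ℝ} (hq : q = J ^ 2) (hb : b = q + 2 * (1.2 * (N * u) * (E1 * Es)))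
    (hN : 0 ≤ N) (hu : 0 < u) (hE1 : 0 ≤ E1) (hEs : Es ≤ w / u * 1.02) (hY : Y = N * E1) :
    b ≤ J ^ 2 + 2.448 * (Y * w) := by
  have h1 : 1.2 * (N * u) * (E1 * Es) ≤ 1.224 * (Y * w) := by
    calc 1.2 * (N * u) * (E1 * Es) ≤ 1.2 * (N * u) * (E1 * (w / u * 1.02)) := by gcongr
      _ = 1.224 * (Y * w) := by rw [hY]; field_simp; ring
  rw [hb, hq]
  linarith

lemma rl_Ib {I J b Y w k C1 Vk VZ0 : ℝ} (hI0 : 0 ≤ I) (hIJ : I ≤ J) (hJ0 : 0 < J)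
    (hb : b ≤ J ^ 2 + 2.448 * (Y * w)) (hw : w = VZ0 / Vk) (hI : I ≤ C1 * (k * Vk))
    (hVk : 0 < Vk) (hVZ : 0 < VZ0) (hJV : VZ0 * J ≤ 1.6) (hkJ : C1 * k ≤ J / 50) (hY : 0 < Y)
    (hYJ : J ^ 3 ≤ 0.01 * Y) : I * b ≤ 0.11 * Y := by
  have h1 : I * b ≤ I * (J ^ 2 + 2.448 * (Y * w)) := by gcongr
  have h2 : I * J ^ 2 ≤ J ^ 3 := by
    calc I * J ^ 2 ≤ J * J ^ 2 := by gcongr
      _ = J ^ 3 := by ring
  have hw0 : 0 < w := by rw [hw]; positivity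
  have h3 : I * (2.448 * (Y * w)) ≤ 0.1 * Y := by
    calc I * (2.448 * (Y * w)) ≤ C1 * (k * Vk) * (2.448 * (Y * w)) := by gcongr
      _ = 2.448 * Y * (C1 * k * VZ0) := by rw [hw]; field_simp
      _ ≤ 2.448 * Y * (J / 50 * VZ0) := by gcongr
      _ = 2.448 / 50 * Y * (VZ0 * J) := by ring
      _ ≤ 2.448 / 50 * Y * 1.6 := by gcongr
      _ ≤ 0.1 * Y := by nlinarith
  rw [mul_add] at h1
  norm_num at h3 hYJ ⊢
  linarith

lemma rl_rho {h J W : ℝ} {P : Finset ℕ} (hJ : 100 ≤ J) (hh0 : 0 ≤ h) (hh : h ≤ J)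
    (hW : W = J ^ 40) (hs : ∑ q ∈ P, 1 / (q : ℝ) ^ 2 ≤ 1 / W) :
    h ^ 2 * ∑ q ∈ P, 1 / (q : ℝ) ^ 2 ≤ 0.01 := by
  have hJ0 : 0 < J := by linarith
  have hW0 : 0 < W := by rw [hW]; positivity
  calc h ^ 2 * ∑ q ∈ P, 1 / (q : ℝ) ^ 2 ≤ J ^ 2 * (1 / W) := by
        have h0 : 0 ≤ ∑ q ∈ P, 1 / (q : ℝ) ^ 2 := sum_nonneg fun _ _ => by positivity
        gcongr
    _ ≤ 0.01 := by
      rw [mul_one_div, div_le_iff₀ hW0, hW]
      have h4 : J ^ 40 = J ^ 38 * J ^ 2 := by ring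
      have h5 : (100 : ℝ) ≤ J ^ 38 := by
        calc (100 : ℝ) ≤ 100 ^ 38 := by norm_num
          _ ≤ J ^ 38 := by gcongr
      rw [h4]
      have h6 : 100 * J ^ 2 ≤ J ^ 38 * J ^ 2 := by gcongr
      norm_num
      linarith

lemma rl_err1 {J L h W : ℝ} (hJ : 100 ≤ J) (hh0 : 0 ≤ h) (hh : h + 1 ≤ J) (hW : W = J ^ 40)
    (hL : L = Real.log 2) : Real.exp (-(4 * J ^ 2 / 4) + (4 * J ^ 2) ^ 2 * (64 * (h + 1) ^ 2) / W) ≤
      1 / 2 * Real.exp (-(J ^ 2 / 2)) := by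
  have hJ0 : 0 < J := by linarith
  have hW0 : 0 < W := by rw [hW]; positivity
  have h1 : (4 * J ^ 2) ^ 2 * (64 * (h + 1) ^ 2) / W ≤ 1 := by
    rw [div_le_one hW0, hW]
    calc (4 * J ^ 2) ^ 2 * (64 * (h + 1) ^ 2) ≤ (4 * J ^ 2) ^ 2 * (64 * J ^ 2) := by gcongr
      _ = 1024 * J ^ 6 := by ring
      _ ≤ J ^ 2 * J ^ 6 := by
        have : (1024 : ℝ) ≤ J ^ 2 := by nlinarith
        gcongr
      _ = J ^ 8 := by ring
      _ ≤ J ^ 40 := pow_le_pow_right₀ (by linarith) (by norm_num)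
  have h2 : (1 / 2 : ℝ) = Real.exp (-L) := by
    rw [hL, Real.exp_neg, Real.exp_log (by norm_num)]; norm_num
  have hL2 : L < 0.6932 := by rw [hL]; have := Real.log_two_lt_d9; linarith
  rw [h2, ← Real.exp_add]
  refine Real.exp_le_exp.2 ?_
  norm_num at hL2
  nlinarith

lemma rl_err2 {J L S I : ℝ} {j : ℕ} (hJj : J = j) (hJ : 100 ≤ J) (hL : L = Real.log 2)
    (hS : S ≤ Real.exp (0.9 * J)) (hI : I ≤ Real.exp (0.9 * J)) :
    (S + I) * (Real.exp 1 * (1 / 2) ^ (j ^ 2)) ≤ 1 / 2 * Real.exp (-(J ^ 2 / 2)) := by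
  have h2 : (1 / 2 : ℝ) = Real.exp (-L) := by
    rw [hL, Real.exp_neg, Real.exp_log (by norm_num)]; norm_num
  have hL1 : 0.693 < L := by rw [hL]; have := Real.log_two_gt_d9; linarith
  have h3 : (1 / 2 : ℝ) ^ (j ^ 2) = Real.exp (-(L * J ^ 2)) := by
    rw [h2, ← Real.exp_nat_mul]; congr 1; rw [hJj]; push_cast; ring
  have h4 : S + I ≤ Real.exp (0.9 * J + 1) := by
    rw [Real.exp_add]
    have h8 := Real.add_one_le_exp (1 : ℝ)
    have h9 := Real.exp_pos (0.9 * J)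
    nlinarith
  rw [h3, h2]
  calc (S + I) * (Real.exp 1 * Real.exp (-(L * J ^ 2))) ≤
      Real.exp (0.9 * J + 1) * (Real.exp 1 * Real.exp (-(L * J ^ 2))) := by gcongr
    _ = Real.exp (0.9 * J + 1 + 1 + -(L * J ^ 2)) := by
      rw [← Real.exp_add, ← Real.exp_add]; congr 1; ring
    _ ≤ Real.exp (-L + -(J ^ 2 / 2)) := by
      refine Real.exp_le_exp.2 ?_
      have hL2 : L < 0.6932 := by rw [hL]; have := Real.log_two_lt_d9; linarith
      norm_num at hL1 hL2 ⊢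
      nlinarith
    _ = Real.exp (-L) * Real.exp (-(J ^ 2 / 2)) := Real.exp_add _ _

lemma rl_D0 {e L J c0 ε1 Y : ℝ} (hL : L = Real.log 2) (he : 0 < e) (hJ : 100 ≤ J)
    (hfin : L ≤ 0.1 * e * J) (hε1 : ε1 = e / 1000) (hc1 : c0 ≤ e / 100)
    (hY : Real.exp ((L - 5 * c0 - ε1 - e / 100) * J) ≤ Y) :
    Real.exp ((1 - e) * (L * J)) ≤ 0.5 * Y := by
  have hJ0 : 0 < J := by linarith
  have hL1 : 0.693 < L := by rw [hL]; have := Real.log_two_gt_d9; linarith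
  have h1 : Real.exp ((1 - e) * (L * J)) * 2 ≤ Real.exp ((L - 5 * c0 - ε1 - e / 100) * J) := by
    have h2 : (2 : ℝ) = Real.exp L := by rw [hL, Real.exp_log (by norm_num)]
    rw [h2, ← Real.exp_add]
    refine Real.exp_le_exp.2 ?_
    have h4 : 5 * c0 + ε1 + e / 100 ≤ 0.07 * e := by rw [hε1]; norm_num; linarith
    have h5 : (5 * c0 + ε1 + e / 100) * J ≤ 0.07 * e * J := by gcongr
    have h6 : 0.693 * (e * J) ≤ L * (e * J) := by gcongr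
    have h7 : (1 - e) * (L * J) = L * J - L * (e * J) := by ring
    have h8 : (L - 5 * c0 - ε1 - e / 100) * J = L * J - (5 * c0 + ε1 + e / 100) * J := by ring
    rw [h7, h8]
    have h9 : 0 < e * J := by positivity
    have h10 : 0.07 * e * J = 0.07 * (e * J) := by ring
    have h11 : 0.1 * e * J = 0.1 * (e * J) := by ring
    rw [h10] at h5
    rw [h11] at hfin
    norm_num at h5 h6 hfin ⊢
    linarith
  norm_num
  linarith

lemma rl_T {j k : ℕ} {J L c0 T : ℝ} (hJ : J = j) (hL : L = Real.log 2) (hk : 1 ≤ k)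
    (hkj : 1000 * k ≤ j) (hkc : (k : ℝ) ≤ c0 * J) (hcj : 2 * L ≤ (5 - 4 * L) * c0 * J)
    (hT : ((2 ^ (j - 1 - 4 * k) : ℕ) : ℝ) ≤ T) : Real.exp ((L - 5 * c0) * J) ≤ T := by
  refine le_trans ?_ hT
  push_cast
  have h2 : (2 : ℝ) = Real.exp L := by rw [hL, Real.exp_log (by norm_num)]
  rw [h2, ← Real.exp_nat_mul]
  refine Real.exp_le_exp.2 ?_
  have h3 : ((j - 1 - 4 * k : ℕ) : ℝ) = J - 1 - 4 * k := by
    rw [Nat.cast_sub (by omega), Nat.cast_sub (by omega), hJ]; push_cast; ring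
  rw [h3]
  have hL0 : 0 < L := by rw [hL]; exact Real.log_pos (by norm_num)
  have h4 : 4 * (k : ℝ) * L ≤ 4 * (c0 * J) * L := by gcongr
  nlinarith

end Pool.Agent.H532.UN
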