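import Mathlib
import Pool.Agent.H532.UN.Real

/-!
One dyadic block, one pattern: the main estimate.
-/

namespace Pool.Agent.H532.UN

open Finset Filter MeasureTheory Function Pool.Agent.H532.RM
open scoped Topology ENNReal

/-- the number of positions -/
def TT0 (j k : ℕ) : ℕ := (2 ^ j - 4 ^ k - k) / Mk k

lemma TT0_facts {j k : ℕ} (hk : 1 ≤ k) (hkj : 1000 * k ≤ j) :
    Mk k * TT0 j k + 4 ^ k + k ≤ 2 ^ j ∧ 2 ^ (j - 1 - 4 * k) ≤ TT0 j k := by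
  have h1 : k < 4 ^ k := Nat.lt_pow_self (by norm_num)
  have h2 : 4 ^ k = 2 ^ (2 * k) := by rw [pow_mul]; norm_num
  have h3 : 2 * 4 ^ k ≤ 2 ^ (j - 1) := by
    rw [h2, ← pow_succ']
    exact Nat.pow_le_pow_right (by norm_num) (by omega)
  have h4 : 2 ^ j = 2 * 2 ^ (j - 1) := by
    rw [← pow_succ']; congr 1; omega
  have h5 : Mk k * TT0 j k ≤ 2 ^ j - 4 ^ k - k := Nat.mul_div_le _ _
  refine ⟨by omega, ?_⟩
  have h6 : 2 ^ j - 4 ^ k - k < Mk k * (TT0 j k + 1) := Nat.lt_mul_div_succ _ (Mk_pos hk)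
  have h7 : Mk k ≤ 2 ^ (4 * k) := by
    have e : 2 ^ (4 * k) = 4 ^ k * 4 ^ k := by
      rw [h2, ← pow_add]; congr 1; ring
    rw [e]
    exact Nat.mul_le_mul h1.le (primorial_le_four_pow k)
  have h8 : 2 ^ (j - 1) = 2 ^ (4 * k) * 2 ^ (j - 1 - 4 * k) := by
    rw [← pow_add]; congr 1; omega
  have h9 : 2 ^ (4 * k) * 2 ^ (j - 1 - 4 * k) < 2 ^ (4 * k) * (TT0 j k + 1) := by
    rw [← h8]
    calc 2 ^ (j - 1) ≤ 2 ^ j - 4 ^ k - k := by omega
      _ < Mk k * (TT0 j k + 1) := h6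
      _ ≤ 2 ^ (4 * k) * (TT0 j k + 1) := Nat.mul_le_mul_right _ h7
  have h10 := lt_of_mul_lt_mul_left h9 (Nat.zero_le _)
  omega

/-- the numbers of elements of the pattern and of the possible further elements -/
lemma card_A_Ix {A : Finset ℕ} {k : ℕ} (hA : A ⊆ Ioc 0 k) (m : ℕ → ℕ)
    (hm : ∀ p ∈ primesLe k, ∀ i ∈ A, i % p ≠ m p % p) :
    A.card + (Ix A m k).card ≤ T1 m k 0 k := by
  have hdis : Disjoint A (Ix A m k) := by
    rw [Finset.disjoint_left]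
    intro i hi hi'
    exact (mem_sdiff.1 (mem_filter.1 hi').1).2 hi
  have h1 : A ∪ Ix A m k ⊆ TT {0} m (primesLe k) 0 k := by
    intro i hi
    rw [mem_T1]
    rcases mem_union.1 hi with h | h
    · have := mem_Ioc.1 (hA h)
      exact ⟨⟨this.1, by omega⟩, fun p hp => hm p hp i h⟩
    · obtain ⟨h3, h4⟩ := mem_filter.1 h
      have := mem_Ioc.1 (mem_sdiff.1 h3).1
      exact ⟨⟨this.1, by omega⟩, h4⟩
  have h2 := card_le_card h1
  rwa [card_union_of_disjoint hdis] at h2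

/-- the local density -/
lemma dens {h k r : ℕ} {Q : Finset ℕ} (hk : 1 ≤ k) (hhk : h ≤ k) (h2h : 2 * h ≤ k + 1)
    (hQ : ∀ q ∈ Q, q.Prime ∧ k < q) (hx : (h : ℝ) * ss Q + h ≤ r / 3000) :
    Real.exp (-(r / 3000)) ≤ rho h Q ∧ rho h Q ≤ 1 ∧
      Real.exp (-(6 * r)) ≤ rho h Q * Real.exp (-(5 * r)) := by
  have hvge : Real.exp (-((r : ℝ) / 3000)) ≤ rho h Q := by
    have h1 := rho_ge h Q fun q hq => ⟨(hQ q hq).1.pos, by have := (hQ q hq).2; omega⟩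
    refine le_trans (Real.exp_le_exp.2 ?_) h1
    have h2 := sum_inv_sq_le (P := Q) (W := k) (by omega) fun q hq => (hQ q hq).2
    have h3 : (h : ℝ) ^ 2 * ∑ q ∈ Q, 1 / (q : ℝ) ^ 2 ≤ h ^ 2 * (1 / k) := by gcongr
    have h4 : (h : ℝ) ^ 2 * (1 / k) ≤ h := by
      have hk0 : (0 : ℝ) < k := by exact_mod_cast hk
      rw [mul_one_div, div_le_iff₀ hk0]
      have h5 : (h : ℝ) ≤ k := by exact_mod_cast hhk
      have h6 : (0 : ℝ) ≤ h := Nat.cast_nonneg _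
      nlinarith
    linarith
  refine ⟨hvge, ?_, ?_⟩
  · unfold rho
    refine prod_le_one (fun q hq => ?_) fun q hq => ?_
    · have hq0 : (0 : ℝ) < q := by exact_mod_cast (hQ q hq).1.pos
      rw [sub_nonneg, div_le_one hq0]
      have := (hQ q hq).2
      exact_mod_cast (by omega : h ≤ q)
    · have : 0 ≤ (h : ℝ) / q := by positivity
      linarith
  · have h1 : Real.exp (-(6 * r : ℝ)) = Real.exp (-(r : ℝ)) * Real.exp (-(5 * r)) := by
      rw [← Real.exp_add]; congr 1; ring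
    rw [h1]
    have h2 : Real.exp (-(r : ℝ)) ≤ rho h Q := by
      refine le_trans (Real.exp_le_exp.2 ?_) hvge
      have : (0 : ℝ) ≤ r := Nat.cast_nonneg _
      linarith
    gcongr

lemma sumP_le {P : Finset ℕ} {x : ℝ} (hP : ∀ p ∈ P, (p : ℝ) ≤ x ∧ 0 < p) (hx : 0 ≤ x) :
    ∑ p ∈ P, (p : ℝ) ≤ x * x := by
  have h1 : ∑ p ∈ P, (p : ℝ) ≤ ∑ p ∈ P, x := sum_le_sum fun p hp => (hP p hp).1
  rw [sum_const, nsmul_eq_mul] at h1
  have h2 : (P.card : ℝ) ≤ x := by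
    have h3 : P ⊆ Ioc 0 ⌊x⌋₊ := fun p hp => mem_Ioc.2 ⟨(hP p hp).2, Nat.le_floor (hP p hp).1⟩
    have h4 := card_le_card h3
    rw [Nat.card_Ioc, Nat.sub_zero] at h4
    have h5 : (P.card : ℝ) ≤ (⌊x⌋₊ : ℝ) := by exact_mod_cast h4
    exact h5.trans (Nat.floor_le hx)
  refine h1.trans ?_
  gcongr

theorem blockU_core {C1 c0 ε1 e : ℝ} (hC1 : 1 ≤ C1) (hc0 : 0 < c0) (he : 0 < e) (he1 : e ≤ 1 / 10)
    (hε1 : ε1 = e / 1000) (hc1 : c0 ≤ e / 100) (hc2 : c0 ≤ 1 / (50 * C1))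
    (hAI : ∀ k : ℕ, 1 ≤ k → ∀ m : ℕ → ℕ, (T1 m k 0 k : ℝ) ≤ C1 * (k * V k))
    {j k r Z0 Z : ℕ} (hZ : ZOK j (Wj j) Z0 Z) (hJ : JOK c0 ε1 e j r) (hk : 1 ≤ k)
    (hkj : (k : ℝ) ≤ c0 * j)
    (K1 : (C1 * (k * V k) + 1) * (Real.log (V k / V (Wj j)) + 1) ≤
      ε1 * j / (6000 * Real.log j))
    (K2 : C1 * (k * V k) * Real.log j ≤ e / 100 * j)
    (ν : ℕ → Measure ℕ) [∀ p, IsProbabilityMeasure (ν p)]
    (hν : ∀ p ∈ bigP (Wj j) Z, UnifOn (ν p) p) {A : Finset ℕ} (hA : A ⊆ Ioc 0 k) (m : ℕ → ℕ)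
    (hm : ∀ p ∈ primesLe k, ∀ i ∈ A, i % p ≠ m p % p) (x : ℕ → ℕ) :
    lmarginal ν (bigP (Wj j) Z) (fun a => if ((Ex a A j k (Wj j) Z0 Z).card : ℝ) <
      Real.exp ((1 - e) * (Real.log 2 * j)) then 1 else 0) x ≤
      ENNReal.ofReal (Real.exp (-((j : ℝ) ^ 2 / 2))) := by
  obtain ⟨J, hJd⟩ : ∃ J : ℝ, J = j := ⟨_, rfl⟩
  obtain ⟨L, hL⟩ : ∃ L : ℝ, L = Real.log 2 := ⟨_, rfl⟩
  obtain ⟨lj, hlj⟩ : ∃ lj : ℝ, lj = Real.log J := ⟨_, rfl⟩
  obtain ⟨W, hW⟩ : ∃ W, W = Wj j := ⟨_, rfl⟩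
  have hL1 : 0.693 < L := by rw [hL]; have := Real.log_two_gt_d9; linarith
  have hL2 : L < 0.6932 := by rw [hL]; have := Real.log_two_lt_d9; linarith
  obtain ⟨hJ100, hl1, hr1, hr2, hr3, hpe, hfin, hcj⟩ := hJ
  obtain ⟨hWZ0, hZZ, hlZ, hV1, hV2⟩ := hZ
  have hj100 : 100 ≤ j := by exact_mod_cast hJ100
  have hWJ : (W : ℝ) = J ^ 40 := by rw [hW, hJd]; unfold Wj; push_cast; rfl
  have hjW : j ≤ W := by rw [hW]; exact Nat.le_self_pow (by norm_num) j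
  rw [← hW] at hWZ0 K1 hν ⊢
  rw [← hJd] at hJ100 hl1 hr1 hr2 hr3 hpe hfin hcj hlZ hV1 hV2 K1 K2 hkj ⊢
  rw [← hlj] at hl1 hr1 hr2 hr3 K1 K2
  rw [← hL] at hfin hcj hlZ hV1 hV2 ⊢
  clear hW
  have hJ0 : 0 < J := by linarith
  have hε10 : 0 < ε1 := by rw [hε1]; positivity
  have hε1s : ε1 ≤ 1 / 10000 := by rw [hε1]; linarith
  have hc0s : c0 ≤ 1 / 1000 := by linarith
  have hkJ : (k : ℝ) ≤ J / 1000 := by
    calc (k : ℝ) ≤ c0 * J := hkj
      _ ≤ 1 / 1000 * J := by gcongr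
      _ = J / 1000 := by ring
  have hkn : 1000 * k ≤ j := by
    have h1 : (1000 * k : ℝ) ≤ j := by rw [← hJd]; linarith
    exact_mod_cast h1
  have hkW : k ≤ W := by omega
  have hJW : J ≤ W := by rw [hJd]; exact_mod_cast hjW
  have hW0 : (0 : ℝ) < W := by linarith
  obtain ⟨Q, hQ⟩ : ∃ Q, Q = bigP k W := ⟨_, rfl⟩
  obtain ⟨P, hP⟩ : ∃ P, P = bigP W Z := ⟨_, rfl⟩
  have hWZ : W ≤ Z := hWZ0.trans hZZ
  obtain ⟨h, hh⟩ : ∃ h, h = A.card := ⟨_, rfl⟩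
  have h2h : 2 * h ≤ k + 1 := by rw [hh]; exact two_mul_card_le hk hA m hm
  have hhk : h ≤ k := by omega
  obtain ⟨I, hI⟩ : ∃ I : ℝ, I = (Ix A m k).card := ⟨_, rfl⟩
  have hhI : (h : ℝ) + I ≤ C1 * (k * V k) := by
    have h3 : ((A.card + (Ix A m k).card : ℕ) : ℝ) ≤ T1 m k 0 k := by
      exact_mod_cast card_A_Ix hA m hm
    push_cast at h3
    rw [hh, hI]
    exact h3.trans (hAI k hk m)
  have hI0 : 0 ≤ I := by rw [hI]; exact Nat.cast_nonneg _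
  have hh0 : (0 : ℝ) ≤ h := Nat.cast_nonneg _
  have hhJ : (h : ℝ) + 1 ≤ J := by
    have h1 : (h : ℝ) ≤ k := by exact_mod_cast hhk
    linarith
  have hIJ : I ≤ J := by
    have h1 : (Ix A m k).card ≤ (Ioc 0 k).card :=
      card_le_card fun i hi => (mem_sdiff.1 (mem_filter.1 hi).1).1
    rw [Nat.card_Ioc, Nat.sub_zero] at h1
    have h2 : I ≤ k := by rw [hI]; exact_mod_cast h1
    linarith
  have hVk := V_pos k
  have hVW := V_pos W
  have hVZ := V_pos Z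
  have hVZ0 := V_pos Z0
  have hVk1 : V k ≤ 1 := by
    have h1 := V_anti (Nat.zero_le k)
    rwa [V_zero] at h1
  have hVW1 : V W ≤ 1 := by
    have h1 := V_anti (Nat.zero_le W)
    rwa [V_zero] at h1
  have hVZJ : 1 / J ≤ V Z := by
    rw [div_le_iff₀ hJ0]
    have h1 : V Z * (J * L) ≤ V Z * (J * 0.6932) := by gcongr
    norm_num at h1 hV1 ⊢
    linarith
  have hVWJ : 1 / J ≤ V W := hVZJ.trans (V_anti hWZ)
  have hJV : V Z0 * J ≤ 1.6 := by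
    have h1 : V Z0 * (J * 0.693) ≤ V Z0 * (J * L) := by gcongr
    norm_num at h1 hV2 ⊢
    linarith
  have hsQ0 : 0 ≤ ss Q := ss_nonneg Q
  have hsP0 : 0 ≤ ss P := ss_nonneg P
  have hsQle : ss Q ≤ Real.log (V k / V W) := by rw [hQ]; exact ss_le_log hkW
  have hsPle : ss P ≤ lj := by
    rw [hP]
    refine (ss_le_log hWZ).trans ?_
    rw [hlj]
    refine Real.log_le_log (by positivity) ?_
    rw [div_le_iff₀ hVZ]
    rw [div_le_iff₀ hJ0] at hVZJ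
    linarith
  have hr1' : (1 : ℝ) ≤ r := by linarith
  have hrl : (r : ℝ) ≤ ε1 * J := by
    calc (r : ℝ) = r * 1 := (mul_one _).symm
      _ ≤ r * lj := by gcongr
      _ ≤ ε1 * J := hr1
  have hrlJ : (r : ℝ) * lj ≤ J / 10000 := by
    calc (r : ℝ) * lj ≤ ε1 * J := hr1
      _ ≤ 1 / 10000 * J := by gcongr
      _ = J / 10000 := by ring
  have hhC : (h : ℝ) ≤ C1 * (k * V k) := by linarith
  have hIC : I ≤ C1 * (k * V k) := by linarith
  have hhs : ((h : ℝ) + 1) * (ss Q + 1) ≤ r / 3000 := by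
    have h1 : ((h : ℝ) + 1) * (ss Q + 1) ≤
        (C1 * (k * V k) + 1) * (Real.log (V k / V W) + 1) := by gcongr
    have h2 : ε1 * J / (6000 * lj) = ε1 * J / (2 * lj) / 3000 := by
      field_simp; norm_num
    rw [h2] at K1
    linarith
  have e1 : ((h : ℝ) + 1) * (ss Q + 1) = (h : ℝ) * ss Q + h + ss Q + 1 := by ring
  have hx3 : (h : ℝ) * ss Q + h ≤ r / 3000 := by linarith
  have hx1 : (h : ℝ) * ss Q ≤ r / 3000 := by linarith
  have hx2 : ((h + 1 : ℕ) : ℝ) * ss Q ≤ r / 3000 := by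
    have e2 : ((h + 1 : ℕ) : ℝ) * ss Q = (h : ℝ) * ss Q + ss Q := by push_cast; ring
    rw [e2]; linarith
  have hhsP : (h : ℝ) * ss P ≤ e / 100 * J := by
    calc (h : ℝ) * ss P ≤ C1 * (k * V k) * lj := by gcongr
      _ ≤ e / 100 * J := K2
  have hQk : ∀ q ∈ Q, q.Prime ∧ k < q ∧ q ≤ W := fun q hq => by
    rw [hQ] at hq
    exact ⟨(mem_bigP.1 hq).1.2, (mem_bigP.1 hq).2, (mem_bigP.1 hq).1.1⟩
  obtain ⟨hvge, hv1, hR1⟩ := dens (r := r) hk hhk h2h (fun q hq => ⟨(hQk q hq).1, (hQk q hq).2.1⟩) hx3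
  obtain ⟨v, hv⟩ : ∃ v, v = rho h Q := ⟨_, rfl⟩
  rw [← hv] at hvge hv1 hR1
  have hv0 : 0 < v := lt_of_lt_of_le (Real.exp_pos _) hvge
  obtain ⟨he5, he5'⟩ := rl_exp5 hl1 hr3 hJ100 hlj
  obtain ⟨p1, p2, p3, p4, p5⟩ := rl_pe hJ100 hpe
  have hQcard : (Q.card : ℝ) ≤ J ^ 40 := by
    rw [← hWJ]
    have h1 : Q ⊆ Ioc 0 W := fun q hq => mem_Ioc.2 ⟨(hQk q hq).1.pos, (hQk q hq).2.2⟩
    have h2 := card_le_card h1
    rw [Nat.card_Ioc, Nat.sub_zero] at h2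
    exact_mod_cast h2
  have hR2 : ∀ h' : ℝ, 0 ≤ h' → h' ≤ J → (1 + 3 * (h' * Q.card)) ^ r ≤ Real.exp (0.01 * J) :=
    fun h' h0' h1' => rl_R2 hJ100 hlj hrlJ h0' h1' (Nat.cast_nonneg _) hQcard
  obtain ⟨T, hT⟩ : ∃ T, T = TT0 j k := ⟨_, rfl⟩
  obtain ⟨hT1, hT2⟩ := TT0_facts (j := j) hk hkn
  rw [← hT] at hT1 hT2
  have hTge : Real.exp ((L - 5 * c0) * J) ≤ T :=
    rl_T hJd hL hk hkn hkj hcj (by exact_mod_cast hT2)
  obtain ⟨N, hN⟩ : ∃ N : ℝ, N = T * v := ⟨_, rfl⟩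
  have hT0 : (0 : ℝ) < T := lt_of_lt_of_le (Real.exp_pos _) hTge
  have hN0 : 0 < N := by rw [hN]; positivity
  have hNge : Real.exp ((L - 5 * c0 - ε1) * J) ≤ N := by
    rw [hN]
    calc Real.exp ((L - 5 * c0 - ε1) * J) ≤
        Real.exp ((L - 5 * c0) * J) * Real.exp (-(r / 3000)) := by
          rw [← Real.exp_add]
          refine Real.exp_le_exp.2 ?_
          have e2 : (L - 5 * c0 - ε1) * J = (L - 5 * c0) * J - ε1 * J := by ring
          rw [e2]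
          linarith
      _ ≤ T * v := by gcongr
  have hNge' : Real.exp (0.68 * J) ≤ N := by
    refine le_trans (Real.exp_le_exp.2 ?_) hNge
    have h1 : 0.68 ≤ L - 5 * c0 - ε1 := by norm_num at hc0s hε1s hL1 ⊢; linarith
    gcongr
  have hexp68 : Real.exp (0.02 * J) ≤ N := (Real.exp_le_exp.2 (by linarith)).trans hNge'
  have hpZ : ∀ p ∈ P, (p : ℝ) ≤ Real.exp (0.437 * J) ∧ p.Prime ∧ W < p := by
    intro p hp
    rw [hP] at hp
    obtain ⟨⟨h1, h2⟩, h3⟩ := mem_bigP.1 hp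
    refine ⟨?_, h2, h3⟩
    have hp0 : (0 : ℝ) < p := by exact_mod_cast h2.pos
    have h4 : Real.log p ≤ Real.log Z := Real.log_le_log hp0 (by exact_mod_cast h1)
    rw [← Real.exp_log hp0]
    refine Real.exp_le_exp.2 ?_
    have h5 : 0.63 * L * J ≤ 0.63 * 0.6932 * J := by gcongr
    norm_num at h5 hlZ ⊢
    linarith
  have hNp : ∀ p ∈ P, Real.exp (0.24 * J) ≤ N / p := by
    intro p hp
    have hp0 : (0 : ℝ) < p := by exact_mod_cast (hpZ p hp).2.1.pos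
    rw [le_div_iff₀ hp0]
    calc Real.exp (0.24 * J) * p ≤ Real.exp (0.24 * J) * Real.exp (0.437 * J) := by
          have h1 := (hpZ p hp).1
          gcongr
      _ = Real.exp (0.677 * J) := by rw [← Real.exp_add]; congr 1; ring
      _ ≤ Real.exp (0.68 * J) := Real.exp_le_exp.2 (by norm_num; linarith)
      _ ≤ N := hNge'
  have hposOK : PosOK A (Mk k) Q := by
    refine ⟨fun q hq => (hQk q hq).1, fun q hq i hi => ?_, fun q hq =>
      cop_Mk hk (hQk q hq).1 (hQk q hq).2.1⟩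
    have h1 := mem_Ioc.1 (hA hi)
    have h2 := (hQk q hq).2.1
    omega
  have hr0 : ∀ h' : ℕ, (h' : ℝ) * ss Q ≤ r / 3000 →
      ((h' : ℝ) * ss Q) ^ r / r.factorial ≤ v * Real.exp (-(5 * r)) := by
    intro h' hh'
    exact (pow_fact_le _ r (by positivity) hh').trans hR1
  have hE1 : (1 : ℝ) ≤ Real.exp (0.01 * J) := Real.one_le_exp (by positivity)
  -- (S1)
  have hS1 : ∀ a B, 9 / 10 * N ≤ ((Sg A a B (Mk k) Q T).card : ℝ) := by
    intro a B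
    have h1 := (abs_le.1 (Sg_card hposOK a B T r)).1
    rw [← hh, ← hv] at h1
    exact rl_S1 h1 hT0.le hv0.le (hr0 h hx1) he5 ((hR2 h hh0 (by linarith)).trans (by linarith)) hN
  -- (S2)
  have hS2 : ∀ a B, ∀ p ∈ P, ∀ r0, (((Sg A a B (Mk k) Q T).filter
      (fun t => (B + Mk k * t) % p = r0)).card : ℝ) ≤ 3 / 2 * N / p := by
    intro a B p hp r0
    obtain ⟨hp1, hp2, hp3⟩ := hpZ p hp
    have hp0 : (0 : ℝ) < p := by exact_mod_cast hp2.pos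
    have h1 := Sg_class hposOK a B T r p hp2 (fun h' => by have h3 := (hQk p h').2.2; omega)
      (cop_Mk hk hp2 (by omega)) r0
    rw [← hh, ← hv] at h1
    have h8 : Real.exp (0.02 * J) ≤ Real.exp (0.24 * J) :=
      Real.exp_le_exp.2 (by norm_num; linarith)
    have h9 := hNp p hp
    have h3 := hR2 h hh0 (by linarith)
    have h10 : (1 : ℝ) ≤ (1 + 3 * ((h : ℝ) * Q.card)) ^ r := one_le_pow₀ (by
      have : (0 : ℝ) ≤ 3 * ((h : ℝ) * Q.card) := by positivity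
      linarith)
    exact rl_S2 h1 hT0.le hv0.le hv1 (hr0 h hx1) he5 hp0 (by linarith) h10 hN
  -- (S3)
  have hVWk : 0 < V W / V k := by positivity
  have hVWk1 : 1 / J ≤ V W / V k := by
    refine hVWJ.trans ?_
    rw [le_div_iff₀ hVk]
    calc V W * V k ≤ V W * 1 := by gcongr
      _ = V W := mul_one _
  have hS3 : ∀ i ∈ Ix A m k, ∀ a B, ((Sg (insert i A) a B (Mk k) Q T).card : ℝ) ≤
      1.2 * (N * (V W / V k)) := by
    intro i hi a B
    have hi1 := mem_sdiff.1 (mem_filter.1 hi).1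
    have hpos' : PosOK (insert i A) (Mk k) Q := by
      refine ⟨fun q hq => (hQk q hq).1, fun q hq i' hi' => ?_, fun q hq =>
        cop_Mk hk (hQk q hq).1 (hQk q hq).2.1⟩
      have h3 := (hQk q hq).2.1
      rcases mem_insert.1 hi' with rfl | h4
      · have := mem_Ioc.1 hi1.1
        omega
      · have := mem_Ioc.1 (hA h4)
        omega
    have h1 := (abs_le.1 (Sg_card hpos' a B T r)).2
    rw [card_insert_of_notMem hi1.2, ← hh] at h1
    have h3 := hR2 ((h + 1 : ℕ) : ℝ) (by positivity) (by push_cast; exact hhJ)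
    have h4 : rho (h + 1) Q ≤ v * (V W / V k) := by
      have h5 := rho_succ_le h Q fun q hq => ⟨(hQk q hq).1.pos, by
        have := (hQk q hq).2.1
        omega⟩
      have h6 : rho 1 Q = V W / V k := by rw [hQ]; exact rho_bigP hkW
      rw [← hv, h6] at h5
      exact h5
    have h7 : 10 * J * (1 + 3 * (((h + 1 : ℕ) : ℝ) * Q.card)) ^ r ≤ N := by
      calc 10 * J * (1 + 3 * (((h + 1 : ℕ) : ℝ) * Q.card)) ^ r ≤
          10 * J * Real.exp (0.01 * J) := by gcongr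
        _ ≤ Real.exp (0.02 * J) := p2
        _ ≤ N := hexp68
    exact rl_S3 h1 hT0.le hv0.le (hr0 (h + 1) hx2) he5' h4 hVWk1 hJ0 h7 hN
  -- the remaining conditions
  have hq2 : ((j ^ 2 : ℕ) : ℝ) = J ^ 2 := by rw [hJd]; push_cast; rfl
  have he100 : e / 100 * J ≤ 0.001 * J := by
    have h1 : e / 100 ≤ 0.001 := by norm_num at he1 ⊢; linarith
    gcongr
  have hqN : ∀ p ∈ P, ((j ^ 2 : ℕ) : ℝ) ≤ N / p * Real.exp (-(h * ss P)) := by
    intro p hp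
    have h1 := hNp p hp
    rw [hq2]
    calc J ^ 2 ≤ Real.exp (0.01 * J) := p5
      _ ≤ Real.exp (0.24 * J) * Real.exp (-(h * ss P)) := by
        rw [← Real.exp_add]
        refine Real.exp_le_exp.2 ?_
        norm_num at he100 ⊢
        linarith
      _ ≤ N / p * Real.exp (-(h * ss P)) := by gcongr
  have hes0 : Real.exp (-ss (bigP W Z0)) ≤ V Z0 / V W * 1.02 := by
    refine (exp_neg_ss_le (by omega) hWZ0).trans ?_
    have h1 : Real.exp (1 / (W : ℝ)) ≤ 1.02 := by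
      have h2 : 1 / (W : ℝ) ≤ 1 / 100 := one_div_le_one_div_of_le (by norm_num) (by linarith)
      have h5 : (0 : ℝ) ≤ 1 / (W : ℝ) := by positivity
      have h6 := exp_le_one_add_two_mul h5 (by linarith)
      norm_num at h2 h6 ⊢
      linarith
    gcongr
  obtain ⟨Y, hY⟩ : ∃ Y : ℝ, Y = N * Real.exp (-(h * ss P)) := ⟨_, rfl⟩
  have hY0 : 0 < Y := by rw [hY]; positivity
  have hYge : Real.exp ((L - 5 * c0 - ε1 - e / 100) * J) ≤ Y := by
    rw [hY]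
    calc Real.exp ((L - 5 * c0 - ε1 - e / 100) * J) ≤
        Real.exp ((L - 5 * c0 - ε1) * J) * Real.exp (-(h * ss P)) := by
          rw [← Real.exp_add]
          refine Real.exp_le_exp.2 ?_
          have e2 : (L - 5 * c0 - ε1 - e / 100) * J = (L - 5 * c0 - ε1) * J - e / 100 * J := by
            ring
          rw [e2]
          linarith
      _ ≤ N * Real.exp (-(h * ss P)) := by gcongr
  have hYbig : J ^ 3 ≤ 0.01 * Y := by
    have h1 : Real.exp (0.02 * J) ≤ Y := by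
      refine le_trans (Real.exp_le_exp.2 ?_) hYge
      have h2 : 0.02 ≤ L - 5 * c0 - ε1 - e / 100 := by
        norm_num at hc0s hε1s he1 hL1 ⊢; linarith
      gcongr
    norm_num
    linarith
  have hD0 : Real.exp ((1 - e) * (L * J)) ≤ 0.5 * Y := rl_D0 hL he hJ100 hfin hε1 hc1 hYge
  obtain ⟨G, hG⟩ : ∃ G : ℝ, G = 1.2 * (N * (V W / V k)) := ⟨_, rfl⟩
  obtain ⟨b, hb⟩ : ∃ b : ℝ, b = ((j ^ 2 : ℕ) : ℝ) +
      2 * (G * Real.exp (-(h * ss P + ss (bigP W Z0)))) := ⟨_, rfl⟩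
  have hb1 : b ≤ J ^ 2 + 2.448 * (Y * (V Z0 / V k)) := by
    rw [hb, hq2, hG]
    have h2 : Real.exp (-(h * ss P + ss (bigP W Z0))) =
        Real.exp (-(h * ss P)) * Real.exp (-ss (bigP W Z0)) := by
      rw [← Real.exp_add]; congr 1; ring
    rw [h2]
    refine rl_b (u := V W / V k) rfl rfl hN0.le hVWk (Real.exp_pos _).le ?_ hY
    refine hes0.trans (le_of_eq ?_)
    have h3 : V Z0 / V k / (V W / V k) = V Z0 / V W := by field_simp
    rw [h3]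
  have hkC : C1 * k ≤ J / 50 := by
    have hC0 : 0 < C1 := by linarith
    calc C1 * k ≤ C1 * (c0 * J) := by gcongr
      _ ≤ C1 * (1 / (50 * C1) * J) := by gcongr
      _ = J / 50 := by field_simp
  have hIb : I * b ≤ 0.11 * Y :=
    rl_Ib hI0 hIJ hJ0 hb1 rfl hIC hVk hVZ0 hJV hkC hY0 hYbig
  have hρP : Real.exp (-(h * ss P)) * 0.99 ≤ rho h P := by
    have h1 := rho_ge h P fun q hq => ⟨(hpZ q hq).2.1.pos, by
      have := (hpZ q hq).2.2
      omega⟩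
    refine le_trans ?_ h1
    have h2 := sum_inv_sq_le (P := P) (W := W) (by omega) fun q hq => (hpZ q hq).2.2
    have h3 := rl_rho hJ100 hh0 (by linarith) hWJ h2
    have h4 : -((h : ℝ) * ss P) - (h : ℝ) ^ 2 * ∑ q ∈ P, 1 / (q : ℝ) ^ 2 =
        -((h : ℝ) * ss P) + -((h : ℝ) ^ 2 * ∑ q ∈ P, 1 / (q : ℝ) ^ 2) := by ring
    rw [h4, Real.exp_add]
    have h5 := Real.add_one_le_exp (-((h : ℝ) ^ 2 * ∑ q ∈ P, 1 / (q : ℝ) ^ 2))
    have h6 : (0.99 : ℝ) ≤ Real.exp (-((h : ℝ) ^ 2 * ∑ q ∈ P, 1 / (q : ℝ) ^ 2)) := by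
      refine le_trans ?_ h5
      linarith
    gcongr
  have hD : Real.exp ((1 - e) * (L * J)) + I * b ≤ rho h P * (13 / 20 * N) := by
    have h1 : Real.exp (-(h * ss P)) * 0.99 * (13 / 20 * N) ≤ rho h P * (13 / 20 * N) := by gcongr
    have h2 : Real.exp (-(h * ss P)) * 0.99 * (13 / 20 * N) = 0.6435 * Y := by rw [hY]; ring
    rw [h2] at h1
    norm_num at hD0 hIb h1 ⊢
    linarith
  have hJ2W : 200 * J ^ 2 ≤ W := by
    rw [hWJ]
    have h4 : J ^ 40 = J ^ 38 * J ^ 2 := by ring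
    have h5 : (200 : ℝ) ≤ J ^ 38 := by
      calc (200 : ℝ) ≤ 100 ^ 38 := by norm_num
        _ ≤ J ^ 38 := by gcongr
    rw [h4]; gcongr
  have hhW : 200 * (A.card + 1) ^ 2 ≤ W := by
    rw [← hh]
    have h1 : (200 * ((h : ℝ) + 1) ^ 2) ≤ (W : ℝ) := by
      calc 200 * ((h : ℝ) + 1) ^ 2 ≤ 200 * J ^ 2 := by gcongr
        _ ≤ (W : ℝ) := hJ2W
    exact_mod_cast h1
  have hJ1 : (1 : ℝ) ≤ J := by linarith
  have he0 : (((j ^ 2 : ℕ) : ℝ) * (A.card + 1)) ^ 2 * (j + 1) / W ≤ 1 := by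
    rw [← hh, div_le_one hW0, hWJ, hq2, ← hJd]
    calc (J ^ 2 * ((h : ℝ) + 1)) ^ 2 * (J + 1) ≤ (J ^ 2 * J) ^ 2 * (J * J) := by
          have h1 : J + 1 ≤ J * J := by
            calc J + 1 ≤ 100 * J := by linarith
              _ ≤ J * J := by gcongr
          gcongr
      _ = J ^ 8 := by ring
      _ ≤ J ^ 40 := pow_le_pow_right₀ hJ1 (by norm_num)
  have hα1 : 8 * ((A.card : ℝ) + 1) * (4 * J ^ 2) ≤ W := by
    rw [← hh, hWJ]
    calc 8 * ((h : ℝ) + 1) * (4 * J ^ 2) ≤ 8 * J * (4 * J ^ 2) := by gcongr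
      _ = 32 * J ^ 3 := by ring
      _ ≤ J * J ^ 3 := by
        have h1 : (32 : ℝ) ≤ J := by linarith
        gcongr
      _ = J ^ 4 := by ring
      _ ≤ J ^ 40 := pow_le_pow_right₀ hJ1 (by norm_num)
  have hfinal := comb ν (j := j) (k := k) (W := W) (Z0 := Z0) (Z := Z) (T := T) (q := j ^ 2)
    hν hk hkW hZZ hA hm hT1 (Nat.one_le_pow _ _ (by omega)) N G b
    (Real.exp ((1 - e) * (L * J))) (4 * J ^ 2) hN0 hhW he0
    (by rw [← hQ]; exact hS1) (by rw [← hQ, ← hP]; exact hS2)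
    (by rw [← hQ, hG]; exact hS3) (by rw [← hP, ← hh]; exact hqN) (by positivity) hα1
    (by rw [← hP, ← hh, ← hb]) (by rw [← hP, ← hh, ← hI]; exact hD) x
  rw [← hP, ← hh, ← hI] at hfinal
  rw [← hP]
  refine hfinal.trans (ENNReal.ofReal_le_ofReal ?_)
  have hfirst := rl_err1 hJ100 hh0 hhJ hWJ hL
  have hsumP : ∑ p ∈ P, (p : ℝ) ≤ Real.exp (0.9 * J) := by
    refine (sumP_le (fun p hp => ⟨(hpZ p hp).1, (hpZ p hp).2.1.pos⟩) (Real.exp_pos _).le).trans ?_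
    rw [← Real.exp_add]
    exact Real.exp_le_exp.2 (by norm_num; linarith)
  have hI9 : I ≤ Real.exp (0.9 * J) := by
    have h7 : Real.exp (0.01 * J) ≤ Real.exp (0.9 * J) :=
      Real.exp_le_exp.2 (by norm_num; linarith)
    linarith
  have hsecond := rl_err2 hJd hJ100 hL hsumP hI9
  linarith

end Pool.Agent.H532.UN
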