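import Mathlib
import Pool.Agent.H532.UN.Block2
import Pool.Agent.H532.RM.ThmB2

/-!
All patterns at once, almost surely.
-/

namespace Pool.Agent.H532.UN

open Finset Filter MeasureTheory Function Pool.Agent.H532.RM
open scoped Topology ENNReal

lemma dep_Ex (A : Finset ℕ) (j k W Z0 Z : ℕ) (hZ0 : W ≤ Z0) (hZ : Z0 ≤ Z) :
    DepOn (primesLe Z) (fun a => Ex a A j k W Z0 Z) := by
  classical
  intro a b hab
  have h1 : ∀ Z' ≤ Z, W ≤ Z' → ∀ n, (nk a W (bigP W Z') n ↔ nk b W (bigP W Z') n) := by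
    intro Z' hZ' hWZ n
    unfold nk
    refine and_congr (forall₂_congr fun p hp => ?_) (forall₂_congr fun p hp => ?_)
    · rw [hab p (primesLe_mono (hWZ.trans hZ') hp)]
    · rw [hab p (primesLe_mono hZ' (mem_primesLe.2 (mem_bigP.1 hp).1))]
  show Ex a A j k W Z0 Z = Ex b A j k W Z0 Z
  unfold Ex
  refine filter_congr fun n _ => ?_
  refine and_congr (forall₂_congr fun i _ => h1 Z le_rfl (hZ0.trans hZ) _)
    (forall₂_congr fun i _ => not_congr (h1 Z0 hZ hZ0 _))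

/-- admissible patterns in a window of length `k` -/
def AdmP (k : ℕ) (S : Finset ℕ) : Prop :=
  S ⊆ Ioc 0 k ∧ ∀ p : ℕ, p.Prime → p ≤ k → ∃ c, ∀ i ∈ S, ¬ i ≡ c [MOD p]

section
variable {Ω : Type} [MeasurableSpace Ω] {μ : Measure Ω} [IsProbabilityMeasure μ]
  {A : ℕ → Ω → ℕ}

theorem ae_block (e : ℝ) (he : 0 < e) (he1 : e ≤ 1 / 10) : ∃ c0 : ℝ, 0 < c0 ∧ c0 ≤ 1 / 1000 ∧
    ∀ z : ℕ → ℕ, Monotone z → Tendsto (fun n : ℕ => V (z n) * Real.log n) atTop (𝓝 1) →
    ∀ {Ω : Type} [MeasurableSpace Ω] {μ : Measure Ω} [IsProbabilityMeasure μ] {A : ℕ → Ω → ℕ},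
    RandomClasses μ A → ∀ᵐ ω ∂μ, ∀ᶠ j : ℕ in atTop, ∀ k : ℕ, 1 ≤ k → (k : ℝ) ≤ c0 * j →
      ∀ S, AdmP k S → Real.exp ((1 - e) * (Real.log 2 * j)) ≤
        ((Ex (fun p => A p ω) S j k (Wj j) (z (2 ^ j)) (z (2 ^ (j + 1)))).card : ℝ) := by
  classical
  obtain ⟨C1, hC1, hAI⟩ := cardAI
  set ε1 : ℝ := e / 1000 with hε1
  obtain ⟨c1, hc1, hkb⟩ := kbound C1 ε1 (e / 100) hC1 (by positivity) (by positivity)
  set c0 : ℝ := min c1 (min (e / 100) (1 / (50 * C1))) with hc0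
  have hc0p : 0 < c0 := by
    rw [hc0]
    refine lt_min hc1 (lt_min ?_ ?_) <;> positivity
  have hc0a : c0 ≤ c1 := min_le_left _ _
  have hc0b : c0 ≤ e / 100 := (min_le_right _ _).trans (min_le_left _ _)
  have hc0c : c0 ≤ 1 / (50 * C1) := (min_le_right _ _).trans (min_le_right _ _)
  refine ⟨c0, hc0p, by linarith, ?_⟩
  intro z hz hzl Ω _ μ _ A hA
  set E : ℕ → Set Ω := fun j => {ω | ∃ k ∈ range (j + 1), ∃ S ∈ (Ioc 0 k).powerset,
    (1 ≤ k ∧ (k : ℝ) ≤ c0 * j ∧ AdmP k S) ∧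
      ((Ex (fun p => A p ω) S j k (Wj j) (z (2 ^ j)) (z (2 ^ (j + 1)))).card : ℝ) <
        Real.exp ((1 - e) * (Real.log 2 * j))} with hE
  have hBC : ∀ᶠ j : ℕ in atTop, μ (E j) ≤ ENNReal.ofReal (1 / (j : ℝ) ^ 2) := by
    filter_upwards [zfacts z hz hzl, jfacts c0 ε1 e hc0p (by positivity) he, hkb,
      pow_le_exp 3 1 one_pos, eventually_ge_atTop 100] with j hZ hJ hK h3 hj
    have hjr : (100 : ℝ) ≤ j := by exact_mod_cast hj
    have hWZ : Wj j ≤ z (2 ^ (j + 1)) := hZ.WZ.trans hZ.ZZ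
    have hone : ∀ (k : ℕ) (S : Finset ℕ), (1 ≤ k ∧ (k : ℝ) ≤ c0 * j ∧ AdmP k S) →
        μ {ω | ((Ex (fun p => A p ω) S j k (Wj j) (z (2 ^ j)) (z (2 ^ (j + 1)))).card : ℝ) <
          Real.exp ((1 - e) * (Real.log 2 * j))} ≤
        ENNReal.ofReal (Real.exp (-((j : ℝ) ^ 2 / 2))) := by
      intro k S ⟨hk, hkj, hS, hadm⟩
      have hex : ∀ p : ℕ, ∃ c, p ∈ primesLe k → ∀ i ∈ S, i % p ≠ c % p := by
        intro p
        by_cases hp : p ∈ primesLe k
        · obtain ⟨c, hc⟩ := hadm p (mem_primesLe.1 hp).2 (mem_primesLe.1 hp).1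
          exact ⟨c, fun _ i hi h => hc i hi h⟩
        · exact ⟨0, fun h => absurd h hp⟩
      choose m hm using hex
      have hprob := fun p => law_prob hA p
      have hKj := hK k hk (by
        calc (k : ℝ) ≤ c0 * j := hkj
          _ ≤ c1 * j := by gcongr)
      have hx := blockU_core hC1 hc0p he he1 hε1 hc0b hc0c hAI hZ hJ hk hkj hKj.1 hKj.2
        (law μ A) (fun p hp => law_unif hA (mem_bigP.1 hp).1.2) hS m hm
      set f : (ℕ → ℕ) → ℝ≥0∞ := fun a => if ((Ex a S j k (Wj j) (z (2 ^ j))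
        (z (2 ^ (j + 1)))).card : ℝ) < Real.exp ((1 - e) * (Real.log 2 * j)) then 1 else 0 with hf
      have hdep : DepOn (primesLe (z (2 ^ (j + 1)))) f := by
        intro a b hab
        have h1 := dep_Ex S j k (Wj j) (z (2 ^ j)) (z (2 ^ (j + 1))) hZ.WZ hZ.ZZ a b hab
        simp only at h1
        rw [hf]
        simp only
        rw [h1]
      have h4 := lintegral_le_of_lmarginal hA (primesLe (z (2 ^ (j + 1))))
        (bigP (Wj j) (z (2 ^ (j + 1)))) (fun p hp => (mem_primesLe.1 hp).2)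
        (fun p hp => mem_primesLe.2 (mem_bigP.1 hp).1) f hdep _ hx
      have hmA : Measurable (fun ω (p : ℕ) => A p ω) := measurable_pi_lambda _ fun p => hA.meas p
      have hms : MeasurableSet {ω | ((Ex (fun p => A p ω) S j k (Wj j) (z (2 ^ j))
          (z (2 ^ (j + 1)))).card : ℝ) < Real.exp ((1 - e) * (Real.log 2 * j))} := by
        have h5 : {ω | ((Ex (fun p => A p ω) S j k (Wj j) (z (2 ^ j))
          (z (2 ^ (j + 1)))).card : ℝ) < Real.exp ((1 - e) * (Real.log 2 * j))} =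
          (fun ω => f (fun p => A p ω)) ⁻¹' {1} := by
          ext ω
          simp only [Set.mem_setOf_eq, Set.mem_preimage, Set.mem_singleton_iff, hf]
          split_ifs with h6 <;> simp [h6]
        rw [h5]
        exact (hdep.measurable.comp hmA) (measurableSet_singleton 1)
      refine le_trans (le_of_eq ?_) h4
      rw [← lintegral_indicator_one hms]
      refine lintegral_congr fun ω => ?_
      rw [Set.indicator_apply, hf]
      simp only [Set.mem_setOf_eq, Pi.one_apply]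
    have hEsub : E j ⊆ ⋃ k ∈ range (j + 1), ⋃ S ∈ (Ioc 0 k).powerset,
        {ω | (1 ≤ k ∧ (k : ℝ) ≤ c0 * j ∧ AdmP k S) ∧
          ((Ex (fun p => A p ω) S j k (Wj j) (z (2 ^ j)) (z (2 ^ (j + 1)))).card : ℝ) <
          Real.exp ((1 - e) * (Real.log 2 * j))} := by
      rintro ω ⟨k, hk, S, hS, h⟩
      exact Set.mem_biUnion hk (Set.mem_biUnion hS h)
    have hle : ∀ k ∈ range (j + 1), ∀ S ∈ (Ioc 0 k).powerset,
        μ {ω | (1 ≤ k ∧ (k : ℝ) ≤ c0 * j ∧ AdmP k S) ∧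
          ((Ex (fun p => A p ω) S j k (Wj j) (z (2 ^ j)) (z (2 ^ (j + 1)))).card : ℝ) <
          Real.exp ((1 - e) * (Real.log 2 * j))} ≤
          ENNReal.ofReal (Real.exp (-((j : ℝ) ^ 2 / 2))) := by
      intro k _ S _
      by_cases h : (1 ≤ k ∧ (k : ℝ) ≤ c0 * j ∧ AdmP k S)
      · exact (measure_mono fun ω hω => hω.2).trans (hone k S h)
      · have h5 : {ω | (1 ≤ k ∧ (k : ℝ) ≤ c0 * j ∧ AdmP k S) ∧
          ((Ex (fun p => A p ω) S j k (Wj j) (z (2 ^ j)) (z (2 ^ (j + 1)))).card : ℝ) <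
          Real.exp ((1 - e) * (Real.log 2 * j))} = ∅ := by
          ext ω
          simp only [Set.mem_setOf_eq, Set.mem_empty_iff_false, iff_false]
          exact fun h6 => h h6.1
        rw [h5, measure_empty]
        exact zero_le
    calc μ (E j) ≤ _ := measure_mono hEsub
      _ ≤ ∑ k ∈ range (j + 1), μ (⋃ S ∈ (Ioc 0 k).powerset,
        {ω | (1 ≤ k ∧ (k : ℝ) ≤ c0 * j ∧ AdmP k S) ∧
          ((Ex (fun p => A p ω) S j k (Wj j) (z (2 ^ j)) (z (2 ^ (j + 1)))).card : ℝ) <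
          Real.exp ((1 - e) * (Real.log 2 * j))}) := measure_biUnion_finset_le _ _
      _ ≤ ∑ k ∈ range (j + 1), ∑ S ∈ (Ioc 0 k).powerset, μ
        {ω | (1 ≤ k ∧ (k : ℝ) ≤ c0 * j ∧ AdmP k S) ∧
          ((Ex (fun p => A p ω) S j k (Wj j) (z (2 ^ j)) (z (2 ^ (j + 1)))).card : ℝ) <
          Real.exp ((1 - e) * (Real.log 2 * j))} :=
          sum_le_sum fun k _ => measure_biUnion_finset_le _ _
      _ ≤ ∑ k ∈ range (j + 1), ∑ S ∈ (Ioc 0 k).powerset,
          ENNReal.ofReal (Real.exp (-((j : ℝ) ^ 2 / 2))) :=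
          sum_le_sum fun k hk => sum_le_sum fun S hS => hle k hk S hS
      _ ≤ ∑ k ∈ range (j + 1), ENNReal.ofReal (2 ^ j * Real.exp (-((j : ℝ) ^ 2 / 2))) := by
          refine sum_le_sum fun k hk => ?_
          rw [sum_const, card_powerset, Nat.card_Ioc, Nat.sub_zero, nsmul_eq_mul,
            ENNReal.ofReal_mul (by positivity)]
          gcongr
          have h6 : ENNReal.ofReal ((2 : ℝ) ^ j) = ((2 ^ j : ℕ) : ℝ≥0∞) := by
            rw [← ENNReal.ofReal_natCast]; push_cast; rfl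
          rw [h6]
          have h7 : k ≤ j := by have := mem_range.1 hk; omega
          exact_mod_cast Nat.pow_le_pow_right (by norm_num) h7
      _ = ENNReal.ofReal ((j + 1) * (2 ^ j * Real.exp (-((j : ℝ) ^ 2 / 2)))) := by
          rw [sum_const, card_range, nsmul_eq_mul, ENNReal.ofReal_mul (p := ((j : ℝ) + 1)) (by positivity)]
          congr 1
          rw [← ENNReal.ofReal_natCast]; push_cast; rfl
      _ ≤ ENNReal.ofReal (1 / (j : ℝ) ^ 2) := by
          refine ENNReal.ofReal_le_ofReal ?_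
          have hj0 : (0 : ℝ) < j := by linarith
          rw [le_div_iff₀ (by positivity)]
          have h8 : (2 : ℝ) ^ j ≤ Real.exp j := by
            have h9 : (2 : ℝ) ≤ Real.exp 1 := by have := Real.exp_one_gt_d9; linarith
            calc (2 : ℝ) ^ j ≤ Real.exp 1 ^ j := by gcongr
              _ = Real.exp j := by rw [← Real.exp_nat_mul]; simp
          have h10 : ((j : ℝ) + 1) * (j : ℝ) ^ 2 ≤ 2 * Real.exp (1 * j) := by
            have : ((j : ℝ) + 1) ≤ 2 * j := by linarith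
            calc ((j : ℝ) + 1) * (j : ℝ) ^ 2 ≤ (2 * j) * (j : ℝ) ^ 2 := by gcongr
              _ = 2 * (j : ℝ) ^ 3 := by ring
              _ ≤ 2 * Real.exp (1 * j) := by gcongr
          calc (j + 1) * (2 ^ j * Real.exp (-((j : ℝ) ^ 2 / 2))) * (j : ℝ) ^ 2 =
              ((j + 1) * (j : ℝ) ^ 2) * (2 ^ j * Real.exp (-((j : ℝ) ^ 2 / 2))) := by ring
            _ ≤ (2 * Real.exp (1 * j)) * (Real.exp j * Real.exp (-((j : ℝ) ^ 2 / 2))) := by gcongr
            _ = 2 * Real.exp (1 * j + (j + -((j : ℝ) ^ 2 / 2))) := by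
              rw [Real.exp_add, Real.exp_add]; ring
            _ ≤ 2 * Real.exp (-1) := by
              gcongr
              nlinarith
            _ ≤ 1 := by
              have h11 : Real.exp (-1) = (Real.exp 1)⁻¹ := Real.exp_neg 1
              have h12 : (Real.exp 1)⁻¹ ≤ 2⁻¹ := by
                have := Real.exp_one_gt_d9
                gcongr
                linarith
              rw [h11]
              linarith
  have h := borel_cantelli_sq μ E hBC
  filter_upwards [h] with ω hω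
  filter_upwards [hω] with j hj k hk hkj S hS
  by_contra hcon
  push Not at hcon
  refine hj ⟨k, mem_range.2 ?_, S, mem_powerset.2 hS.1, ⟨hk, hkj, hS⟩, hcon⟩
  have h1 : (k : ℝ) ≤ j := by
    have h2 : c0 ≤ 1 := by linarith
    have h3 : (0 : ℝ) ≤ j := Nat.cast_nonneg _
    nlinarith
  have : k ≤ j := by exact_mod_cast h1
  omega

end

/-- the classes are residues -/
lemma ae_lt {Ω : Type} [MeasurableSpace Ω] {μ : Measure Ω} [IsProbabilityMeasure μ]
    {A : ℕ → Ω → ℕ} (hA : RandomClasses μ A) : ∀ᵐ ω ∂μ, ∀ p : ℕ, p.Prime → A p ω < p := by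
  rw [ae_all_iff]
  intro p
  by_cases hpp : p.Prime
  · have h1 : μ {ω | A p ω < p} = 1 := by
      have h2 : {ω | A p ω < p} = ⋃ r ∈ range p, {ω | A p ω = r} := by
        ext ω; simp
      have h3 : μ (⋃ r ∈ range p, {ω | A p ω = r}) = ∑ r ∈ range p, μ {ω | A p ω = r} := by
        refine measure_biUnion_finset ?_ ?_
        · intro r _ r' _ hne
          refine Set.disjoint_left.2 fun ω h h' => hne ?_
          exact (show A p ω = r from h).symm.trans (show A p ω = r' from h')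
        · intro r _
          exact (hA.meas p) (measurableSet_singleton r)
      rw [h2, h3, sum_congr rfl fun r hr => hA.unif p hpp r (mem_range.1 hr), sum_const,
        card_range, nsmul_eq_mul]
      exact ENNReal.mul_inv_cancel (by exact_mod_cast hpp.ne_zero) (ENNReal.natCast_ne_top p)
    have hms : MeasurableSet {ω | A p ω < p} := by
      have : {ω | A p ω < p} = A p ⁻¹' {r | r < p} := rfl
      rw [this]; exact (hA.meas p) MeasurableSet.of_discrete
    have h4 : ∀ᵐ ω ∂μ, A p ω < p := by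
      rw [ae_iff]
      have : {ω | ¬ A p ω < p} = {ω | A p ω < p}ᶜ := rfl
      rw [this, prob_compl_eq_zero_iff hms]; exact h1
    filter_upwards [h4] with ω hω _ using hω
  · exact Filter.Eventually.of_forall fun ω h => absurd h hpp

/-- exact patterns in the random sieve -/
lemma Ex_exact (z : ℕ → ℕ) (hz : Monotone z) (a : ℕ → ℕ) (ha : ∀ p : ℕ, p.Prime → a p < p)
    {S : Finset ℕ} {j k W : ℕ} (hS : S ⊆ Ioc 0 k) (hW : W ≤ z (2 ^ j)) {n : ℕ}
    (hn : n ∈ Ex a S j k W (z (2 ^ j)) (z (2 ^ (j + 1)))) :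
    2 ^ j ≤ n ∧ n + k ≤ 2 ^ (j + 1) ∧ ∀ i, 0 < i → i ≤ k → (n + i ∈ RB z a ↔ i ∈ S) := by
  classical
  obtain ⟨h1, h2, h3⟩ := mem_filter.1 hn
  have h4 := mem_Ico.1 h1
  refine ⟨h4.1, by omega, fun i hi hik => ⟨fun h5 => ?_, fun h5 => ?_⟩⟩
  · by_contra hcon
    refine h3 i (mem_sdiff.2 ⟨mem_Ioc.2 ⟨hi, hik⟩, hcon⟩) ⟨fun p hp h6 => ?_, fun p hp h6 => ?_⟩
    · have hp' := mem_primesLe.1 hp
      exact h5 p hp'.2 ((hp'.1.trans hW).trans (hz (by omega))) h6
    · have hp' := mem_bigP.1 hp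
      refine h5 p hp'.1.2 (hp'.1.1.trans (hz (by omega))) ?_
      show (n + i) % p = a p % p
      rw [← h6, Nat.mod_eq_of_lt (ha p hp'.1.2)]
  · intro p hp hpz h6
    have h7 := h2 i h5
    have h8 : p ≤ z (2 ^ (j + 1)) := hpz.trans (hz (by omega))
    rcases Nat.lt_or_ge W p with h9 | h9
    · refine h7.2 p (mem_bigP.2 ⟨⟨h8, hp⟩, h9⟩) ?_
      have h10 : (n + i) % p = a p % p := h6
      rw [h10, Nat.mod_eq_of_lt (ha p hp)]
    · exact h7.1 p (mem_primesLe.2 ⟨h9, hp⟩) h6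

end Pool.Agent.H532.UN
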