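import Mathlib
import Pool.Agent.H532.UN.Final

/-!
All patterns and the maximal number of elements, for all large `N`.
-/

namespace Pool.Agent.H532.UN

open Finset Filter MeasureTheory Function Pool.Agent.H532.RM
open scoped Topology ENNReal

lemma tendsto_log2 : Tendsto (fun N : ℕ => Nat.log 2 N) atTop atTop := by
  refine tendsto_atTop.2 fun b => ?_
  filter_upwards [eventually_ge_atTop (2 ^ b)] with N hN
  exact Nat.le_log_of_pow_le (by norm_num) hN

/-- windows with the exact pattern `S` -/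
def PatN (R : Set ℕ) (k : ℕ) (S : Finset ℕ) (N : ℕ) : Set ℕ :=
  {x : ℕ | N ≤ x ∧ x + k ≤ 4 * N ∧ ∀ i, 0 < i → i ≤ k → (x + i ∈ R ↔ i ∈ S)}

lemma PatN_finite (R : Set ℕ) (k : ℕ) (S : Finset ℕ) (N : ℕ) : (PatN R k S N).Finite :=
  (Set.finite_Icc 0 (4 * N)).subset fun x hx => ⟨Nat.zero_le _, by have := hx.2.1; omega⟩

theorem patterns (ε : ℝ) (hε : 0 < ε) : ∃ c : ℝ, 0 < c ∧ c ≤ 1 / 1000 ∧
    ∀ {Ω : Type} [MeasurableSpace Ω] {μ : Measure Ω} [IsProbabilityMeasure μ] {A : ℕ → Ω → ℕ},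
    RandomClasses μ A → ∀ z : ℕ → ℕ, Monotone z →
    Tendsto (fun n : ℕ => V (z n) * Real.log n) atTop (𝓝 1) →
    ∀ᵐ ω ∂μ, ∀ᶠ N : ℕ in atTop, ∀ k : ℕ, 1 ≤ k → (k : ℝ) ≤ c * Real.log N →
      ∀ S, AdmP k S → (N : ℝ) ^ (1 - ε) ≤ ((PatN (RB z (fun p => A p ω)) k S N).ncard : ℝ) := by
  classical
  set e : ℝ := min ε (1 / 10) with he
  have he0 : 0 < e := lt_min hε (by norm_num)
  have he1 : e ≤ 1 / 10 := min_le_right _ _
  have heε : e ≤ ε := min_le_left _ _
  obtain ⟨c, hc, hc1, hcc⟩ := ae_block e he0 he1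
  refine ⟨c, hc, hc1, ?_⟩
  intro Ω _ μ _ A hA z hz hzl
  filter_upwards [hcc z hz hzl hA, ae_lt hA] with ω hω hlt
  have hcl : Tendsto (fun N : ℕ => Nat.clog 2 N) atTop atTop := by
    refine tendsto_atTop_mono (fun N => ?_) tendsto_log2
    exact Nat.log_le_clog 2 N
  filter_upwards [hcl.eventually hω, hcl.eventually (zfacts z hz hzl), eventually_ge_atTop 2]
    with N hN hZ hN2 k hk hkN S hS
  set j := Nat.clog 2 N with hj
  have h1 : 2 ^ (j - 1) < N := Nat.pow_pred_clog_lt_self (by norm_num) (by omega)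
  have h2 : N ≤ 2 ^ j := Nat.le_pow_clog (by norm_num) N
  have hj0 : j ≠ 0 := by
    intro h0
    rw [h0] at h2
    omega
  have h3 : 2 ^ j < 2 * N := by
    obtain ⟨i, hi⟩ := Nat.exists_eq_succ_of_ne_zero hj0
    rw [hi] at h1 ⊢
    rw [Nat.succ_sub_one] at h1
    rw [pow_succ]
    omega
  have hN0 : (0 : ℝ) < N := by exact_mod_cast (by omega : 0 < N)
  have h4 : Real.log N ≤ Real.log 2 * j := by
    have : Real.log N ≤ Real.log ((2 : ℝ) ^ j) := Real.log_le_log hN0 (by exact_mod_cast h2)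
    rwa [Real.log_pow, mul_comm] at this
  have h5 : Real.log 2 ≤ 1 := by have := Real.log_two_lt_d9; linarith
  have hkj : (k : ℝ) ≤ c * j := by
    refine hkN.trans ?_
    have : Real.log 2 * j ≤ 1 * j := by gcongr
    gcongr
    linarith
  have h6 := hN k hk hkj S hS
  have h7 : (N : ℝ) ^ (1 - ε) ≤ Real.exp ((1 - e) * (Real.log 2 * j)) := by
    rw [Real.rpow_def_of_pos hN0]
    refine Real.exp_le_exp.2 ?_
    have h8 : 0 ≤ Real.log N := Real.log_natCast_nonneg N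
    rcases le_or_gt (1 - ε) 0 with h9 | h9
    · have h10 : 0 ≤ (1 - e) * (Real.log 2 * j) := by
        have : 0 < Real.log 2 := Real.log_pos (by norm_num)
        have : 0 ≤ 1 - e := by linarith
        positivity
      nlinarith
    · calc Real.log N * (1 - ε) ≤ (Real.log 2 * j) * (1 - ε) := by gcongr
        _ ≤ (Real.log 2 * j) * (1 - e) := by gcongr
        _ = _ := by ring
  refine h7.trans (h6.trans ?_)
  have h8 : (((Ex (fun p => A p ω) S j k (Wj j) (z (2 ^ j)) (z (2 ^ (j + 1)))) : Finset ℕ) : Set ℕ)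
      ⊆ PatN (RB z (fun p => A p ω)) k S N := by
    intro n hn
    have h9 := Ex_exact z hz _ hlt hS.1 hZ.WZ (mem_coe.1 hn)
    refine ⟨h2.trans h9.1, h9.2.1.trans ?_, h9.2.2⟩
    rw [pow_succ]
    omega
  have h10 := Set.ncard_le_ncard h8 (PatN_finite _ _ _ _)
  rw [Set.ncard_coe_finset] at h10
  exact_mod_cast h10

/-- the number of elements of `R` in `(x, x + k]` -/
noncomputable def cnt (R : Set ℕ) (k x : ℕ) : ℕ := {n : ℕ | n ∈ R ∧ x < n ∧ n ≤ x + k}.ncard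

lemma cnt_eq_cn (R : Set ℕ) (k x : ℕ) : (cnt R k x : ℝ) = cn R x k := by
  classical
  unfold cnt cn
  have : {n : ℕ | n ∈ R ∧ x < n ∧ n ≤ x + k} =
      (((Ioc x (x + k)).filter (· ∈ R) : Finset ℕ) : Set ℕ) := by
    ext n
    simp only [Set.mem_ofPred_eq, coe_filter, mem_Ioc]
    tauto
  rw [this, Set.ncard_coe_finset]

/-- the sieving limit is large -/
lemma z_large (z : ℕ → ℕ) (hz : Monotone z)
    (hzl : Tendsto (fun n : ℕ => V (z n) * Real.log n) atTop (𝓝 1)) :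
    ∀ᶠ N : ℕ in atTop, ∀ x, N ≤ x → ∀ k : ℕ, (k : ℝ) ≤ Real.log N → k ≤ z (x + 1) := by
  filter_upwards [tendsto_log2.eventually (zfacts z hz hzl),
    tendsto_log2.eventually_ge_atTop 2,
    eventually_ge_atTop 1] with N hN h2 h1 x hx k hk
  set j := Nat.log 2 N with hj
  have h3 : 2 ^ j ≤ N := Nat.pow_log_le_self 2 (by omega)
  have h4 : N < 2 ^ (j + 1) := Nat.lt_pow_succ_log_self (by norm_num) N
  have hN0 : (0 : ℝ) < N := by exact_mod_cast h1
  have h5 : Real.log N ≤ Real.log 2 * (j + 1) := by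
    have : Real.log N ≤ Real.log ((2 : ℝ) ^ (j + 1)) :=
      Real.log_le_log hN0 (by exact_mod_cast h4.le)
    rw [Real.log_pow] at this
    push_cast at this
    linarith
  have h6 : (k : ℝ) ≤ j + 1 := by
    have : Real.log 2 ≤ 1 := by have := Real.log_two_lt_d9; linarith
    have h7 : Real.log 2 * ((j : ℝ) + 1) ≤ 1 * (j + 1) := by gcongr
    linarith
  have h7 : k ≤ j + 1 := by exact_mod_cast h6
  have h8 : j + 1 ≤ Wj j := by
    unfold Wj
    calc j + 1 ≤ j * 2 := by omega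
      _ ≤ j * j := by gcongr
      _ = j ^ 2 := by ring
      _ ≤ j ^ 40 := Nat.pow_le_pow_right (by omega) (by norm_num)
  exact h7.trans (h8.trans (hN.WZ.trans (hz (by omega))))

lemma cnt_le_smax (z : ℕ → ℕ) (hz : Monotone z) (a : ℕ → ℕ) (k x : ℕ) (h : k ≤ z (x + 1)) :
    cnt (RB z a) k x ≤ smax k k := by
  have h1 := cn_le_T1 z hz a (x + 1) x k le_rfl
  rw [← cnt_eq_cn] at h1
  have h2 : cnt (RB z a) k x ≤ T1 a (z (x + 1)) x k := by exact_mod_cast h1
  exact h2.trans ((T1_anti a h x k).trans (T1_le_smax a k x k))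

/-- all patterns are admissible -/
lemma pat_adm (z : ℕ → ℕ) (hz : Monotone z) (a : ℕ → ℕ) (k x : ℕ) (h : k ≤ z (x + 1))
    (S : Finset ℕ) (hS : S ⊆ Ioc 0 k) (hSx : ∀ i ∈ S, x + i ∈ RB z a) : AdmP k S := by
  refine ⟨hS, fun p hp hpk => ⟨a p + (p * x - x), fun i hi hcon => ?_⟩⟩
  have h1 := hSx i hi
  have h2 := mem_Ioc.1 (hS hi)
  refine h1 p hp ((hpk.trans h).trans (hz (by omega))) ?_
  have h3 : x + i ≡ x + (a p + (p * x - x)) [MOD p] := hcon.add_left x
  have h4 : x ≤ p * x := Nat.le_mul_of_pos_left x hp.pos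
  have h5 : x + (a p + (p * x - x)) = a p + p * x := by omega
  rw [h5] at h3
  refine h3.trans ?_
  simp [Nat.ModEq]

/-- the extremal pattern -/
lemma max_pattern (k : ℕ) : ∃ S, AdmP k S ∧ S.card = smax k k := by
  classical
  obtain ⟨m, hm⟩ := exists_smax k k
  refine ⟨(Ioc 0 k).filter (fun i => ∀ p ∈ primesLe k, ¬ p ∣ m + i), ⟨filter_subset _ _, ?_⟩, ?_⟩
  · intro p hp hpk
    refine ⟨p * m - m, fun i hi hcon => ?_⟩
    have h1 := (mem_filter.1 hi).2 p (mem_primesLe.2 ⟨hpk, hp⟩)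
    refine h1 ?_
    have h3 : m + i ≡ m + (p * m - m) [MOD p] := hcon.add_left m
    have h4 : m ≤ p * m := Nat.le_mul_of_pos_left m hp.pos
    have h5 : m + (p * m - m) = p * m := by omega
    rw [h5] at h3
    have h6 : m + i ≡ 0 [MOD p] := h3.trans (by simp [Nat.ModEq])
    exact (Nat.modEq_zero_iff_dvd).1 h6
  · rw [← hm]
    unfold T1
    refine card_bij (fun i _ => m + i) ?_ ?_ ?_
    · intro i hi
      obtain ⟨h1, h2⟩ := mem_filter.1 hi
      have h3 := mem_Ioc.1 h1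
      refine mem_T1.2 ⟨⟨by omega, by omega⟩, fun p hp h4 => h2 p hp ?_⟩
      rw [Nat.zero_mod] at h4
      exact Nat.dvd_of_mod_eq_zero h4
    · intro i _ i' _ h
      omega
    · intro n hn
      obtain ⟨⟨h1, h2⟩, h3⟩ := mem_T1.1 hn
      refine ⟨n - m, mem_filter.2 ⟨mem_Ioc.2 ⟨by omega, by omega⟩, fun p hp h4 => ?_⟩, by omega⟩
      have h5 : m + (n - m) = n := by omega
      rw [h5] at h4
      exact h3 p hp (by rw [Nat.zero_mod]; exact Nat.mod_eq_zero_of_dvd h4)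

lemma cnt_of_pat (R : Set ℕ) {k : ℕ} {S : Finset ℕ} (hS : S ⊆ Ioc 0 k) {x : ℕ}
    (h : ∀ i, 0 < i → i ≤ k → (x + i ∈ R ↔ i ∈ S)) : cnt R k x = S.card := by
  classical
  unfold cnt
  have : {n : ℕ | n ∈ R ∧ x < n ∧ n ≤ x + k} = ((S.image (fun i => x + i) : Finset ℕ) : Set ℕ) := by
    ext n
    simp only [Set.mem_ofPred_eq, coe_image, Set.mem_image, mem_coe]
    constructor
    · rintro ⟨h1, h2, h3⟩
      refine ⟨n - x, (h (n - x) (by omega) (by omega)).1 ?_, by omega⟩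
      have : x + (n - x) = n := by omega
      rwa [this]
    · rintro ⟨i, hi, rfl⟩
      have h2 := mem_Ioc.1 (hS hi)
      exact ⟨(h i h2.1 h2.2).2 hi, by omega, by omega⟩
  rw [this, Set.ncard_coe_finset, card_image_of_injective _ (fun i i' h => by simpa using h)]

/-- the `limsup` is the maximum -/
lemma limsup_eq {f : ℕ → ℕ} {H : ℕ} (h1 : ∀ᶠ x in atTop, f x ≤ H) (h2 : ∃ᶠ x in atTop, H ≤ f x) :
    limsup f atTop = H := by
  refine le_antisymm ?_ ?_
  · exact limsup_le_of_le ⟨0, fun a _ => Nat.zero_le _⟩ h1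
  · exact le_limsup_of_frequently_le h2 ⟨H, h1⟩

end Pool.Agent.H532.UN
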