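import Mathlib
import Pool.Agent.H532.UN.Final2
import Pool.Graph.R_pool_sql_team_seeded_b0a926ef.R528.RM.RoughCount

/-!
Windows of length `(1 + ε) log x` and more never contain the maximal number of elements.
-/

namespace Pool.Agent.H532.UN

open Finset Filter MeasureTheory Function Pool.Agent.H532.RM
open scoped Topology ENNReal

lemma smax_ge_primes (k : ℕ) : (Nat.primeCounting (2 * k) : ℝ) - Nat.primeCounting k ≤
    smax k k := by
  have h1 : Nat.primeCounting (2 * k) ≤ Nat.primeCounting k + smax k k := by
    have h2 := le_smax k k k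
    refine le_trans ?_ (Nat.add_le_add_left h2 _)
    have h3 : (Iic (2 * k)).filter Nat.Prime ⊆ (Iic k).filter Nat.Prime ∪
        TT {0} (fun _ => 0) (primesLe k) k k := by
      intro p hp
      obtain ⟨h4, h5⟩ := mem_filter.1 hp
      have h4' := mem_Iic.1 h4
      rw [mem_union]
      rcases Nat.lt_or_ge k p with h6 | h6
      · right
        refine mem_T1.2 ⟨⟨h6, by omega⟩, fun q hq h7 => ?_⟩
        rw [Nat.zero_mod] at h7
        have h8 := mem_primesLe.1 hq
        have h9 := (Nat.prime_dvd_prime_iff_eq h8.2 h5).1 (Nat.dvd_of_mod_eq_zero h7)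
        omega
      · left
        exact mem_filter.2 ⟨mem_Iic.2 h6, h5⟩
    have h10 := (card_le_card h3).trans (card_union_le _ _)
    have e : ∀ n, Nat.primeCounting n = ((Iic n).filter Nat.Prime).card := by
      intro n
      rw [Nat.primeCounting, Nat.primeCounting', Nat.count_eq_card_filter_range]
      congr 1
      ext p
      simp
    rw [e, e]
    exact h10
  have h2 : (Nat.primeCounting (2 * k) : ℝ) ≤ Nat.primeCounting k + smax k k := by
    exact_mod_cast h1
  linarith

lemma smax_lower (δ : ℝ) (hδ : 0 < δ) : ∀ᶠ k : ℕ in atTop,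
    (1 - δ) * (k / Real.log k) ≤ smax k k := by
  have h1 := Pool.Agent.R528.RM.pnt_nat
  have h2 : Tendsto (fun k : ℕ => 2 * k) atTop (atTop : Filter ℕ) :=
    tendsto_id.const_mul_atTop' (by norm_num)
  have hl : Tendsto (fun k : ℕ => Real.log k) atTop atTop :=
    Real.tendsto_log_atTop.comp tendsto_natCast_atTop_atTop
  filter_upwards [h1.eventually (gt_mem_nhds (show (1 : ℝ) < 1 + δ / 8 by linarith)),
    (h1.comp h2).eventually (lt_mem_nhds (show (1 : ℝ) - δ / 8 < 1 by linarith)),
    hl.eventually_ge_atTop (8 * Real.log 2 / δ), hl.eventually_ge_atTop 1,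
    eventually_ge_atTop 2] with k e1 e2 e3 e4 e5
  refine le_trans ?_ (smax_ge_primes k)
  simp only [Function.comp] at e2
  have hk : (0 : ℝ) < k := by exact_mod_cast (by omega : 0 < k)
  have hl0 : 0 < Real.log k := by linarith
  have hl2 : 0 < Real.log 2 := Real.log_pos (by norm_num)
  push_cast at e2
  rw [Real.log_mul (by norm_num) hk.ne'] at e2
  rw [div_lt_iff₀ hk] at e1
  rw [lt_div_iff₀ (by positivity)] at e2
  set P2 : ℝ := (Nat.primeCounting (2 * k) : ℝ) with hP2
  set P1 : ℝ := (Nat.primeCounting k : ℝ) with hP1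
  -- `P1 ≤ (1 + δ/8) k / log k`
  have h3 : P1 ≤ (1 + δ / 8) * (k / Real.log k) := by
    rw [← mul_div_assoc, le_div_iff₀ hl0]; linarith
  rw [div_le_iff₀ hδ] at e3
  -- `log 2 + log k ≤ (1 + δ/8) log k`
  have h4 : Real.log 2 + Real.log k ≤ (1 + δ / 8) * Real.log k := by linarith
  have hP20 : 0 ≤ P2 := Nat.cast_nonneg _
  have h5 : (1 - δ / 8) * (2 * k) ≤ P2 * ((1 + δ / 8) * Real.log k) := by
    refine e2.le.trans ?_
    gcongr
  have h6 : (1 - δ / 4) * (2 * (k / Real.log k)) ≤ P2 := by
    have h7 : (1 - δ / 8) * (2 * k) / ((1 + δ / 8) * Real.log k) ≤ P2 := by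
      rw [div_le_iff₀ (by positivity)]; exact h5
    refine le_trans ?_ h7
    rw [le_div_iff₀ (by positivity)]
    have e : (1 - δ / 4) * (2 * (k / Real.log k)) * ((1 + δ / 8) * Real.log k) =
        (1 - δ / 4) * (1 + δ / 8) * (2 * k) := by
      field_simp
    rw [e]
    gcongr
    nlinarith
  have h7 : 0 < k / Real.log k := by positivity
  nlinarith

lemma UT_card {S : Finset ℕ} {m U p : ℕ} (hS : InWin m U S) (hU : U ≤ p) :
    (UT (OmD {0}) S p).card = S.card := by
  unfold UT
  have : S.biUnion (fun x => OmD {0} x p) = S.image (fun x => x % p) := by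
    ext r
    simp only [mem_biUnion, mem_Om0, mem_image]
    exact ⟨fun ⟨x, h1, h2⟩ => ⟨x, h1, h2.symm⟩, fun ⟨x, h1, h2⟩ => ⟨x, h1, h2.symm⟩⟩
  rw [this, card_image_of_injOn]
  intro x hx y hy hxy
  have h1 := hS x hx
  have h2 := hS y hy
  have hxy' : x % p = y % p := hxy
  rcases le_total x y with h | h
  · have h3 : p ∣ y - x := (Nat.modEq_iff_dvd' h).1 hxy'
    rcases Nat.eq_zero_or_pos (y - x) with h4 | h4
    · omega
    · have := Nat.le_of_dvd h4 h3
      omega
  · have h3 : p ∣ x - y := (Nat.modEq_iff_dvd' h).1 hxy'.symm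
    rcases Nat.eq_zero_or_pos (x - y) with h4 | h4
    · omega
    · have := Nat.le_of_dvd h4 h3
      omega

section
variable {Ω : Type} [MeasurableSpace Ω] {μ : Measure Ω} [IsProbabilityMeasure μ]
  {A : ℕ → Ω → ℕ}

/-- the probability that a window contains the maximal number of elements -/
theorem full_prob (hA : RandomClasses μ A) {k Z : ℕ} (hkZ : k ≤ Z) (m : ℕ) :
    μ {ω | smax k k ≤ T1 (fun p => A p ω) Z m k} ≤
      ENNReal.ofReal (Real.exp (-(smax k k * ss (bigP k Z)))) := by
  classical
  have := fun p => law_prob hA p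
  set P := bigP k Z with hP
  have hPW : ∀ p ∈ P, k < p := fun p hp => (mem_bigP.1 hp).2
  have hpos : ∀ p ∈ P, 0 < p := fun p hp => by have := hPW p hp; omega
  set f : (ℕ → ℕ) → ℝ≥0∞ := fun a =>
    if smax k k ≤ (surv (OmD {0}) P a (TT {0} a (primesLe k) m k)).card then 1 else 0 with hf
  have hdep : DepOn (primesLe Z) f := by
    intro a a' h
    have h2 : surv (OmD {0}) P a (TT {0} a (primesLe k) m k) =
      surv (OmD {0}) P a' (TT {0} a' (primesLe k) m k) := dep_surv k Z m k hkZ a a' h
    rw [hf]
    simp only
    rw [h2]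
  have hle := lintegral_le_of_lmarginal hA (primesLe Z) P (fun p hp => (mem_primesLe.1 hp).2)
    (filter_subset _ _) f hdep
    (ENNReal.ofReal (Real.exp (-(smax k k * ss (bigP k Z))))) (fun x => by
      set S := TT {0} x (primesLe k) m k with hS
      have hSc : S.card ≤ smax k k := T1_le_smax x k m k
      have e1 : lmarginal (law μ A) P f x = lmarginal (law μ A) P (fun a =>
          if smax k k ≤ (surv (OmD {0}) P a S).card then 1 else 0) x := by
        unfold lmarginal
        refine lintegral_congr fun y => ?_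
        rw [hf]
        simp only
        rw [TT_update x k Z m k y]
      rw [e1]
      have hsub : ∀ a : ℕ → ℕ, (surv (OmD {0}) P a S).card ≤ S.card := fun a =>
        card_le_card (filter_subset _ _)
      by_cases hn : S.card = smax k k
      · refine le_trans (lmarginal_mono (g := fun a =>
          if ∀ p ∈ P, a p ∉ UT (OmD {0}) S p then (1 : ℝ≥0∞) else 0) (fun a => ?_) x) ?_
        · simp only
          split_ifs with h1 h2
          · exact le_rfl
          · exfalso
            apply h2
            refine (subset_surv_iff (OmD {0}) P a S S Subset.rfl).1 ?_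
            have h3 : surv (OmD {0}) P a S = S :=
              eq_of_subset_of_card_le (filter_subset _ _) (by rw [hn]; exact h1)
            rw [h3]
          · exact zero_le_one
          · exact le_rfl
        · have hb := box_bound (law μ A) (UT (OmD {0}) S) P
            (fun p hp => law_unif hA (mem_bigP.1 hp).1.2) hpos (fun p hp => by
              unfold UT
              exact biUnion_subset.2 fun n _ => OmD_subset _ _ _ (hpos p hp)) x
          refine hb.trans (ENNReal.ofReal_le_ofReal (Real.exp_le_exp.2 ?_))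
          have h4 : ∑ p ∈ P, ((UT (OmD {0}) S p).card : ℝ) / p = smax k k * ss (bigP k Z) := by
            rw [← sum_div_eq, ← hP]
            refine sum_congr rfl fun p hp => ?_
            rw [UT_card (inWin_TT x (primesLe k) m k) (hPW p hp).le, hn]
          rw [h4]
      · have : lmarginal (law μ A) P (fun a =>
            if smax k k ≤ (surv (OmD {0}) P a S).card then (1 : ℝ≥0∞) else 0) x = 0 := by
          unfold lmarginal
          have h5 : ∀ a : ℕ → ℕ, ¬ smax k k ≤ (surv (OmD {0}) P a S).card := by
            intro a h6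
            have := hsub a
            omega
          simp [h5]
        rw [this]
        exact bot_le)
  refine le_trans ?_ hle
  have hms : MeasurableSet {ω | smax k k ≤
      (surv (OmD {0}) P (fun p => A p ω) (TT {0} (fun p => A p ω) (primesLe k) m k)).card} := by
    have hA' : Measurable (fun ω (p : ℕ) => A p ω) := measurable_pi_lambda _ hA.meas
    have h1 : Measurable (fun a : ℕ → ℕ =>
        (surv (OmD {0}) P a (TT {0} a (primesLe k) m k)).card) := by
      refine DepOn.measurable (s := primesLe Z) ?_
      intro a a' h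
      have h2 : surv (OmD {0}) P a (TT {0} a (primesLe k) m k) =
        surv (OmD {0}) P a' (TT {0} a' (primesLe k) m k) := dep_surv k Z m k hkZ a a' h
      simp only [h2]
    have h2 := h1.comp hA'
    exact h2 (MeasurableSet.of_discrete (s := {n : ℕ | smax k k ≤ n}))
  have hrw : ∫⁻ ω, f (fun p => A p ω) ∂μ = μ {ω | smax k k ≤
      (surv (OmD {0}) P (fun p => A p ω) (TT {0} (fun p => A p ω) (primesLe k) m k)).card} := by
    rw [← lintegral_indicator_one hms]
    refine lintegral_congr fun ω => ?_
    rw [Set.indicator_apply]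
    rfl
  rw [hrw]
  refine measure_mono_ae ?_
  filter_upwards [ae_lt hA] with ω hω h
  show smax k k ≤ _
  rw [surv_TT hkZ m k _ hω]
  exact h

end

end Pool.Agent.H532.UN
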