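import Mathlib
import Pool.Agent.H532.UN.Strict

/-!
Windows of length `(1 + ε) log x` and more: the union bound.
-/

namespace Pool.Agent.H532.UN

open Finset Filter MeasureTheory Function Pool.Agent.H532.RM
open scoped Topology ENNReal

lemma exp_neg_gamma_gt : (1 / 2 : ℝ) < Real.exp (-Real.eulerMascheroniConstant) := by
  have h1 := Real.eulerMascheroniConstant_lt_two_thirds
  have h2 : Real.exp (-(2 / 3)) ≤ Real.exp (-Real.eulerMascheroniConstant) :=
    Real.exp_le_exp.2 (by linarith)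
  refine lt_of_lt_of_le ?_ h2
  by_contra hcon
  push Not at hcon
  have h3 : Real.exp (-(2 / 3)) ^ 3 ≤ (1 / 2) ^ 3 := by gcongr
  have h4 : Real.exp (-(2 / 3)) ^ 3 = (Real.exp 1 ^ 2)⁻¹ := by
    rw [← Real.exp_nat_mul, ← Real.exp_nat_mul, ← Real.exp_neg]; congr 1; norm_num
  have h5 := Real.exp_one_lt_d9
  have h6 : Real.exp 1 ^ 2 < 7.4 := by
    have : Real.exp 1 ^ 2 ≤ 2.7182818286 ^ 2 := by gcongr
    norm_num at this ⊢
    linarith
  have h7 : (7.4 : ℝ)⁻¹ < (Real.exp 1 ^ 2)⁻¹ := by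
    have := Real.exp_pos 1
    gcongr
  rw [h4] at h3
  norm_num at h3 h7
  linarith

/-- the quantity in the exponent -/
lemma one_window (j k Z0 H : ℕ) (hj : 1 ≤ j) (hk : 2 ≤ k) (hkZ : k ≤ Z0)
    (hV2 : V Z0 * (j * Real.log 2) ≤ 1.1) (hVk : 1 / 2 ≤ V k * Real.log k) (hk1 : 1 / (k : ℝ) ≤ 0.09) :
    Real.exp (-(H * ss (bigP k Z0))) ≤
      Real.exp (-(H * Real.log (j * Real.log 2 / (2.42 * Real.log k)))) := by
  have hl2 : 0 < Real.log 2 := Real.log_pos (by norm_num)
  have hj0 : (0 : ℝ) < j := by exact_mod_cast hj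
  have hk0 : (1 : ℝ) < k := by exact_mod_cast hk
  have hlk : 0 < Real.log k := Real.log_pos hk0
  have h1 := exp_neg_ss_le hk hkZ
  have hVZ := V_pos Z0
  have hVk0 := V_pos k
  have h2 : Real.exp (1 / (k : ℝ)) ≤ 1.1 := by
    refine (Real.exp_le_exp.2 hk1).trans ?_
    rw [← Real.le_log_iff_exp_le (by norm_num)]
    have h3 := Real.one_sub_inv_le_log_of_pos (show (0 : ℝ) < 1.1 by norm_num)
    refine le_trans ?_ h3
    norm_num
  have h3 : V Z0 / V k * Real.exp (1 / (k : ℝ)) ≤ 2.42 * Real.log k / (j * Real.log 2) := by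
    have h4 : V Z0 ≤ 1.1 / (j * Real.log 2) := by rw [le_div_iff₀ (by positivity)]; exact hV2
    have h5 : 1 / V k ≤ 2 * Real.log k := by
      rw [div_le_iff₀ hVk0]; nlinarith
    calc V Z0 / V k * Real.exp (1 / (k : ℝ)) = V Z0 * (1 / V k) * Real.exp (1 / (k : ℝ)) := by ring
      _ ≤ (1.1 / (j * Real.log 2)) * (2 * Real.log k) * 1.1 := by gcongr
      _ = _ := by field_simp; ring
  have h6 : Real.log (j * Real.log 2 / (2.42 * Real.log k)) ≤ ss (bigP k Z0) := by
    have h7 := h1.trans h3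
    have h8 : -ss (bigP k Z0) ≤ Real.log (2.42 * Real.log k / (j * Real.log 2)) :=
      (Real.le_log_iff_exp_le (by positivity)).2 h7
    have h9 : Real.log (j * Real.log 2 / (2.42 * Real.log k)) =
        -Real.log (2.42 * Real.log k / (j * Real.log 2)) := by
      rw [← Real.log_inv, inv_div]
    linarith
  refine Real.exp_le_exp.2 ?_
  have : (H : ℝ) * Real.log (j * Real.log 2 / (2.42 * Real.log k)) ≤ H * ss (bigP k Z0) := by gcongr
  linarith

/-- facts on `k` -/
lemma kfacts (δ : ℝ) (hδ : 0 < δ) : ∀ᶠ k : ℕ in atTop, 1 / 2 ≤ V k * Real.log k ∧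
    1 / (k : ℝ) ≤ 0.09 ∧ (1 - δ) * (k / Real.log k) ≤ smax k k ∧
    2 * Real.sqrt k + 2 * Real.log k ≤ 1 / 2 * (k / Real.log k) ∧ 3 ≤ k ∧
    1 / 2 * (k / Real.log k) ≤ smax k k := by
  have h1 : ∀ᶠ k : ℕ in atTop, 4 ≤ Real.sqrt k := by
    have h1 : Tendsto (fun j : ℕ => Real.sqrt j) atTop atTop :=
      Real.tendsto_sqrt_atTop.comp tendsto_natCast_atTop_atTop
    exact h1.eventually_ge_atTop 4
  filter_upwards [V_log.eventually (lt_mem_nhds exp_neg_gamma_gt), smax_lower δ hδ,
    logpow_small 1 (1 / 16) (by norm_num), smax_lower (1 / 2) (by norm_num),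
    eventually_ge_atTop 12, h1] with k e1 e2 e3 e4 e5 e6
  have hk : (12 : ℝ) ≤ k := by exact_mod_cast e5
  have hlk : 0 < Real.log k := Real.log_pos (by linarith)
  refine ⟨e1.le, ?_, e2, ?_, by omega, ?_⟩
  · rw [div_le_iff₀ (by linarith)]; linarith
  · rw [pow_one] at e3
    have h2 : Real.sqrt k * Real.sqrt k = k := Real.mul_self_sqrt (by linarith)
    rw [← mul_div_assoc, le_div_iff₀ hlk]
    have h3 : 0 < Real.sqrt k := by linarith
    have h4 : Real.log k ≤ Real.sqrt k := by linarith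
    calc (2 * Real.sqrt k + 2 * Real.log k) * Real.log k ≤ (4 * Real.sqrt k) * (1 / 16 * Real.sqrt k) := by
          gcongr
          linarith
      _ = 1 / 4 * (Real.sqrt k * Real.sqrt k) := by ring
      _ ≤ 1 / 2 * k := by rw [h2]; linarith
  · have : (1 - 1 / 2 : ℝ) = 1 / 2 := by norm_num
    rwa [this] at e4

/-- the exponent is large -/
lemma expo (ε : ℝ) (hε : 0 < ε) (hε1 : ε ≤ 1) : ∀ᶠ j : ℕ in atTop, ∀ k : ℕ,
    (1 + ε) * (Real.log 2 * j) ≤ k → k ^ 10 ≤ 2 ^ j →
    (1 / 2 ≤ V k * Real.log k ∧ 1 / (k : ℝ) ≤ 0.09 ∧ 3 ≤ k) ∧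
    (1 + ε / 4) * (Real.log 2 * j) + 2 * Real.log k ≤
      smax k k * Real.log (j * Real.log 2 / (2.42 * Real.log k)) := by
  have hl2 : 0 < Real.log 2 := Real.log_pos (by norm_num)
  have hl2' := Real.log_two_gt_d9
  have hl2'' := Real.log_two_lt_d9
  set δ : ℝ := ε / 16 with hδ
  have hδ0 : 0 < δ := by positivity
  obtain ⟨k0, hk0⟩ := eventually_atTop.1 (kfacts δ hδ0)
  have hl : Tendsto (fun j : ℕ => Real.log j) atTop atTop :=
    Real.tendsto_log_atTop.comp tendsto_natCast_atTop_atTop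
  have hr : Tendsto (fun j : ℕ => (j : ℝ)) atTop atTop := tendsto_natCast_atTop_atTop
  -- `log (7.26 log j / log 2) ≤ δ log j`
  have hll : ∀ᶠ j : ℕ in atTop, Real.log (7.26 * Real.log j / Real.log 2) ≤ δ * Real.log j := by
    have h1 : Tendsto (fun j : ℕ => 7.26 * Real.log j / Real.log 2) atTop atTop := by
      have h2 := hl.const_mul_atTop (show (0 : ℝ) < 7.26 / Real.log 2 by positivity)
      refine h2.congr fun j => ?_
      ring
    have h2 := (Real.isLittleO_log_id_atTop).comp_tendsto h1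
    have h3 := h2.bound (show 0 < δ * Real.log 2 / 7.26 by positivity)
    filter_upwards [h3, h1.eventually_ge_atTop 1] with j h4 h5
    simp only [Function.comp, id, Real.norm_eq_abs] at h4
    rw [abs_of_nonneg (Real.log_nonneg h5), abs_of_nonneg (by linarith)] at h4
    refine h4.trans (le_of_eq ?_)
    field_simp
  filter_upwards [hr.eventually_ge_atTop (2 * k0), hr.eventually_ge_atTop 100, hll,
    hl.eventually_ge_atTop (Real.log 2 / δ), hl.eventually_ge_atTop 1,
    logpow_small 1 (ε / 4 * Real.log 2 / 6) (by positivity)] with j j1 j2 j3 j4 j5 j6 k hk1 hk2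
  have hj0 : (0 : ℝ) < j := by linarith
  have hlj : 0 < Real.log j := by linarith
  have hkj : (j : ℝ) / 2 ≤ k := by
    refine le_trans ?_ hk1
    calc (j : ℝ) / 2 ≤ 1 * (Real.log 2 * j) := by nlinarith
      _ ≤ (1 + ε) * (Real.log 2 * j) := by gcongr; linarith
  have hkk0 : k0 ≤ k := by
    have : (k0 : ℝ) ≤ k := by linarith
    exact_mod_cast this
  obtain ⟨f1, f2, f3, f4, f5, f6⟩ := hk0 k hkk0
  refine ⟨⟨f1, f2, f5⟩, ?_⟩
  have hk3 : (3 : ℝ) ≤ k := by exact_mod_cast f5
  have hk0' : (0 : ℝ) < k := by linarith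
  have hlk1 : 1 ≤ Real.log k := by
    rw [Real.le_log_iff_exp_le hk0']
    have := Real.exp_one_lt_d9
    linarith
  have hlk : 0 < Real.log k := by linarith
  -- `log k ≤ j log 2 / 10`
  have h10 : 10 * Real.log k ≤ j * Real.log 2 := by
    have h1 : Real.log ((k : ℝ) ^ 10) ≤ Real.log ((2 : ℝ) ^ j) :=
      Real.log_le_log (by positivity) (by exact_mod_cast hk2)
    rw [Real.log_pow, Real.log_pow] at h1
    push_cast at h1
    exact h1
  set H : ℝ := (smax k k : ℝ) with hH
  rcases le_or_gt (j ^ 3) k with hc | hc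
  · -- large `k`
    have h1 : 1 ≤ Real.log (j * Real.log 2 / (2.42 * Real.log k)) := by
      rw [Real.le_log_iff_exp_le (by positivity), le_div_iff₀ (by positivity)]
      have := Real.exp_one_lt_d9
      calc Real.exp 1 * (2.42 * Real.log k) ≤ 3 * (2.42 * Real.log k) := by gcongr; linarith
        _ ≤ 10 * Real.log k := by nlinarith
        _ ≤ _ := h10
    have h2 : (j : ℝ) ≤ Real.sqrt k := by
      refine Real.le_sqrt_of_sq_le ?_
      have : ((j : ℝ)) ^ 3 ≤ k := by exact_mod_cast hc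
      nlinarith [sq_nonneg (j : ℝ)]
    have h3 : (1 + ε / 4) * (Real.log 2 * j) ≤ 2 * Real.sqrt k := by
      calc (1 + ε / 4) * (Real.log 2 * j) ≤ 2 * (1 * j) := by gcongr <;> linarith
        _ ≤ 2 * Real.sqrt k := by linarith
    have hH0 : 0 ≤ H := Nat.cast_nonneg _
    calc (1 + ε / 4) * (Real.log 2 * j) + 2 * Real.log k ≤ 2 * Real.sqrt k + 2 * Real.log k := by
          linarith
      _ ≤ H := f4.trans f6
      _ = H * 1 := (mul_one H).symm
      _ ≤ _ := by gcongr
  · -- small `k`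
    have hkj3 : Real.log k ≤ 3 * Real.log j := by
      have : Real.log k ≤ Real.log ((j : ℝ) ^ 3) :=
        Real.log_le_log hk0' (by exact_mod_cast hc.le)
      rw [Real.log_pow] at this
      exact_mod_cast this
    -- the logarithm
    have h1 : (1 - δ) * Real.log j ≤ Real.log (j * Real.log 2 / (2.42 * Real.log k)) := by
      have h2 : j * Real.log 2 / (2.42 * (3 * Real.log j)) ≤
          j * Real.log 2 / (2.42 * Real.log k) := by gcongr
      have h3 : j / (7.26 * Real.log j / Real.log 2) = j * Real.log 2 / (2.42 * (3 * Real.log j)) := by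
        field_simp
        norm_num
      have h4 : Real.log (j / (7.26 * Real.log j / Real.log 2)) =
          Real.log j - Real.log (7.26 * Real.log j / Real.log 2) :=
        Real.log_div hj0.ne' (by positivity)
      have h5 : Real.log (j / (7.26 * Real.log j / Real.log 2)) ≤
          Real.log (j * Real.log 2 / (2.42 * Real.log k)) := by
        rw [h3]
        exact Real.log_le_log (by positivity) h2
      linarith
    -- `k / log k`
    set K : ℝ := (1 + ε) * (Real.log 2 * j) with hK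
    have hKe : Real.exp 1 ≤ K := by
      have := Real.exp_one_lt_d9
      rw [hK]
      nlinarith
    have hK0 : 0 < K := lt_of_lt_of_le (Real.exp_pos 1) hKe
    have hlK : 0 < Real.log K := by
      have : 1 ≤ Real.log K := by rw [Real.le_log_iff_exp_le hK0]; exact hKe
      linarith
    have h6 : K / Real.log K ≤ k / Real.log k := by
      have h7 := Real.log_div_self_antitoneOn (show K ∈ {x | Real.exp 1 ≤ x} from hKe)
        (show (k : ℝ) ∈ {x | Real.exp 1 ≤ x} from hKe.trans hk1) hk1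
      simp only at h7
      rw [div_le_div_iff₀ hk0' hK0] at h7
      rw [div_le_div_iff₀ hlK hlk]
      linarith
    have h7 : Real.log K ≤ (1 + δ) * Real.log j := by
      have h8 : K ≤ 2 * j := by
        rw [hK]
        nlinarith
      have h9 := Real.log_le_log hK0 h8
      rw [Real.log_mul (by norm_num) hj0.ne'] at h9
      rw [div_le_iff₀ hδ0] at j4
      linarith
    have h8 : (1 - δ) * (K / ((1 + δ) * Real.log j)) ≤ H := by
      refine le_trans ?_ f3
      have : K / ((1 + δ) * Real.log j) ≤ K / Real.log K := by gcongr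
      have h1δ : 0 ≤ 1 - δ := by rw [hδ]; linarith
      have := this.trans h6
      gcongr
    have hH0 : 0 ≤ H := Nat.cast_nonneg _
    have h1δ : 0 ≤ 1 - δ := by rw [hδ]; linarith
    have h9 : (1 - δ) * (K / ((1 + δ) * Real.log j)) * ((1 - δ) * Real.log j) ≤
        H * Real.log (j * Real.log 2 / (2.42 * Real.log k)) := by
      gcongr
    refine le_trans ?_ h9
    have e1 : (1 - δ) * (K / ((1 + δ) * Real.log j)) * ((1 - δ) * Real.log j) =
        (1 - δ) ^ 2 * (1 + ε) / (1 + δ) * (Real.log 2 * j) := by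
      rw [hK]; field_simp
    rw [e1]
    have h11 : 1 + ε / 2 ≤ (1 - δ) ^ 2 * (1 + ε) / (1 + δ) := by
      rw [le_div_iff₀ (by linarith), hδ]
      nlinarith [sq_nonneg ε, mul_pos hε hε, mul_nonneg (mul_pos hε hε).le (show 0 ≤ 1 - ε by linarith)]
    have h12 : (1 + ε / 2) * (Real.log 2 * j) ≤
        (1 - δ) ^ 2 * (1 + ε) / (1 + δ) * (Real.log 2 * j) := by gcongr
    refine le_trans ?_ h12
    rw [pow_one] at j6
    have hs : Real.sqrt j ≤ j := by
      rw [Real.sqrt_le_left hj0.le]; nlinarith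
    have h13 : Real.log j ≤ ε / 4 * Real.log 2 / 6 * j := j6.trans (by gcongr)
    nlinarith

end Pool.Agent.H532.UN
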