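import Mathlib
import Pool.Agent.H532.UN.Strict2

/-!
Windows of length `(1 + ε) log x` and more: conclusion.
-/

namespace Pool.Agent.H532.UN

open Finset Filter MeasureTheory Function Pool.Agent.H532.RM
open scoped Topology ENNReal

theorem strict (ε : ℝ) (hε : 0 < ε) {Ω : Type} [MeasurableSpace Ω] {μ : Measure Ω}
    [IsProbabilityMeasure μ] {A : ℕ → Ω → ℕ} (hA : RandomClasses μ A) (z : ℕ → ℕ)
    (hz : Monotone z) (hzl : Tendsto (fun n : ℕ => V (z n) * Real.log n) atTop (𝓝 1)) :
    ∀ᵐ ω ∂μ, ∀ᶠ x : ℕ in atTop, ∀ k : ℕ, (1 + ε) * Real.log x ≤ k → k ^ 20 ≤ x →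
      cnt (RB z (fun p => A p ω)) k x < smax k k := by
  classical
  set e : ℝ := min ε 1 with he
  have he0 : 0 < e := lt_min hε one_pos
  have he1 : e ≤ 1 := min_le_right _ _
  have heε : e ≤ ε := min_le_left _ _
  have hl2 : 0 < Real.log 2 := Real.log_pos (by norm_num)
  set E : ℕ → Set Ω := fun j => {ω | ∃ k ∈ (range (2 ^ j + 1)).filter (fun k : ℕ =>
    (1 + e) * (Real.log 2 * j) ≤ (k : ℝ) ∧ k ^ 10 ≤ 2 ^ j), ∃ x ∈ range (2 ^ (j + 1)),
      smax k k ≤ T1 (fun p => A p ω) (z (2 ^ j)) x k} with hE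
  have hBC : ∀ᶠ j : ℕ in atTop, μ (E j) ≤ ENNReal.ofReal (1 / (j : ℝ) ^ 2) := by
    filter_upwards [zfacts z hz hzl, expo e he0 he1, pow_le_exp 2 (e / 8 * Real.log 2) (by positivity),
      pow_le_exp 0 (e / 8 * Real.log 2) (by positivity), eventually_ge_atTop 1,
      (tendsto_natCast_atTop_atTop (R := ℝ)).eventually_ge_atTop (8 / e)] with j hZ hx h3 h4 hj h8
    have hj0 : (0 : ℝ) < j := by exact_mod_cast hj
    set F := (range (2 ^ j + 1)).filter (fun k : ℕ => (1 + e) * (Real.log 2 * j) ≤ (k : ℝ) ∧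
      k ^ 10 ≤ 2 ^ j) with hF
    have hEsub : E j ⊆ ⋃ k ∈ F, ⋃ x ∈ range (2 ^ (j + 1)),
        {ω | smax k k ≤ T1 (fun p => A p ω) (z (2 ^ j)) x k} := by
      rintro ω ⟨k, hk, x, hx, h⟩
      exact Set.mem_biUnion hk (Set.mem_biUnion hx h)
    have hle : ∀ k ∈ F, ∀ x ∈ range (2 ^ (j + 1)),
        μ {ω | smax k k ≤ T1 (fun p => A p ω) (z (2 ^ j)) x k} ≤
        ENNReal.ofReal (Real.exp (-((1 + e / 4) * (Real.log 2 * j))) * (1 / (k : ℝ) ^ 2)) := by
      intro k hk x _
      obtain ⟨hk1, hk2⟩ := (mem_filter.1 hk).2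
      obtain ⟨⟨f1, f2, f3⟩, f4⟩ := hx k hk1 hk2
      have hk0 : (0 : ℝ) < k := by exact_mod_cast (by omega : 0 < k)
      have hk3 : (3 : ℝ) ≤ k := by exact_mod_cast f3
      have hlk : 0 < Real.log k := Real.log_pos (by linarith)
      have hkZ : k ≤ z (2 ^ j) := by
        by_contra hcon
        have h5 := V_anti (not_le.1 hcon).le
        have h10 : 10 * Real.log k ≤ j * Real.log 2 := by
          have h1 : Real.log ((k : ℝ) ^ 10) ≤ Real.log ((2 : ℝ) ^ j) :=
            Real.log_le_log (by positivity) (by exact_mod_cast hk2)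
          rw [Real.log_pow, Real.log_pow] at h1
          push_cast at h1
          exact h1
        have hV0 := V_pos k
        have h6 : V k * (10 * Real.log k) ≤ 1.1 := by
          calc V k * (10 * Real.log k) ≤ V (z (2 ^ j)) * (j * Real.log 2) := by
                gcongr
                exact (V_pos _).le
            _ ≤ 1.1 := hZ.V2
        linarith
      refine (full_prob hA hkZ x).trans (ENNReal.ofReal_le_ofReal ?_)
      refine (one_window j k (z (2 ^ j)) (smax k k) hj (by omega) hkZ hZ.V2 f1 f2).trans ?_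
      have h6 : 1 / (k : ℝ) ^ 2 = Real.exp (-(2 * Real.log k)) := by
        rw [Real.exp_neg, ← Real.exp_log (show (0 : ℝ) < (k : ℝ) ^ 2 by positivity), Real.log_pow]
        simp
      rw [h6, ← Real.exp_add]
      exact Real.exp_le_exp.2 (by linarith)
    calc μ (E j) ≤ _ := measure_mono hEsub
      _ ≤ ∑ k ∈ F, μ (⋃ x ∈ range (2 ^ (j + 1)),
        {ω | smax k k ≤ T1 (fun p => A p ω) (z (2 ^ j)) x k}) := measure_biUnion_finset_le _ _
      _ ≤ ∑ k ∈ F, ∑ x ∈ range (2 ^ (j + 1)), μ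
        {ω | smax k k ≤ T1 (fun p => A p ω) (z (2 ^ j)) x k} :=
          sum_le_sum fun k _ => measure_biUnion_finset_le _ _
      _ ≤ ∑ k ∈ F, ∑ x ∈ range (2 ^ (j + 1)),
          ENNReal.ofReal (Real.exp (-((1 + e / 4) * (Real.log 2 * j))) * (1 / (k : ℝ) ^ 2)) :=
          sum_le_sum fun k hk => sum_le_sum fun x hx => hle k hk x hx
      _ = ENNReal.ofReal (∑ k ∈ F, ∑ x ∈ range (2 ^ (j + 1)),
          (Real.exp (-((1 + e / 4) * (Real.log 2 * j))) * (1 / (k : ℝ) ^ 2))) := by
          rw [ENNReal.ofReal_sum_of_nonneg fun k _ => sum_nonneg fun x _ => by positivity]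
          refine sum_congr rfl fun k _ => ?_
          rw [ENNReal.ofReal_sum_of_nonneg fun x _ => by positivity]
      _ ≤ ENNReal.ofReal (1 / (j : ℝ) ^ 2) := by
          refine ENNReal.ofReal_le_ofReal ?_
          have h5 : ∑ k ∈ F, ∑ x ∈ range (2 ^ (j + 1)),
              (Real.exp (-((1 + e / 4) * (Real.log 2 * j))) * (1 / (k : ℝ) ^ 2)) =
              2 ^ (j + 1) * Real.exp (-((1 + e / 4) * (Real.log 2 * j))) *
                ∑ k ∈ F, 1 / (k : ℝ) ^ 2 := by
            rw [mul_sum]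
            refine sum_congr rfl fun k _ => ?_
            rw [sum_const, card_range, nsmul_eq_mul]
            push_cast
            ring
          have h6 : ∑ k ∈ F, 1 / (k : ℝ) ^ 2 ≤ 1 / ((1 : ℕ) : ℝ) :=
            sum_inv_sq_le (by norm_num) fun k hk => by
              obtain ⟨hk1, hk2⟩ := (mem_filter.1 hk).2
              have := (hx k hk1 hk2).1.2.2
              omega
          have h7 : (2 : ℝ) ^ (j + 1) = Real.exp (Real.log 2 * j + Real.log 2) := by
            have : Real.log 2 * j + Real.log 2 = ((j + 1 : ℕ) : ℝ) * Real.log 2 := by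
              push_cast; ring
            rw [this, Real.exp_nat_mul, Real.exp_log (by norm_num)]
          rw [h5, h7]
          have h9 : Real.exp (Real.log 2 * j + Real.log 2) *
              Real.exp (-((1 + e / 4) * (Real.log 2 * j))) ≤
              Real.exp (-(e / 8 * Real.log 2 * j)) := by
            rw [← Real.exp_add]
            refine Real.exp_le_exp.2 ?_
            rw [div_le_iff₀ he0] at h8
            nlinarith
          calc Real.exp (Real.log 2 * j + Real.log 2) *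
              Real.exp (-((1 + e / 4) * (Real.log 2 * j))) * ∑ k ∈ F, 1 / (k : ℝ) ^ 2 ≤
              Real.exp (-(e / 8 * Real.log 2 * j)) * (1 / ((1 : ℕ) : ℝ)) := by gcongr
            _ = (Real.exp (e / 8 * Real.log 2 * j))⁻¹ := by rw [Real.exp_neg]; simp
            _ ≤ ((j : ℝ) ^ 2)⁻¹ := by gcongr
            _ = _ := by rw [one_div]
  have h := borel_cantelli_sq μ E hBC
  filter_upwards [h] with ω hω
  filter_upwards [tendsto_log2.eventually hω, tendsto_log2.eventually_ge_atTop 1,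
    eventually_ge_atTop 1] with x hx hj1 hx1 k hk hkx
  set j := Nat.log 2 x with hj
  have h3 : 2 ^ j ≤ x := Nat.pow_log_le_self 2 (by omega)
  have h4 : x < 2 ^ (j + 1) := Nat.lt_pow_succ_log_self (by norm_num) x
  by_contra hcon
  push Not at hcon
  have h5 := cn_le_T1 z hz (fun p => A p ω) (2 ^ j) x k (by omega)
  rw [← cnt_eq_cn] at h5
  have h6 : cnt (RB z (fun p => A p ω)) k x ≤ T1 (fun p => A p ω) (z (2 ^ j)) x k := by
    exact_mod_cast h5
  have h7 : k ^ 10 ≤ 2 ^ j := by
    have h8 : (k ^ 10) ^ 2 < (2 ^ j) ^ 2 := by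
      calc (k ^ 10) ^ 2 = k ^ 20 := by ring
        _ ≤ x := hkx
        _ < 2 ^ (j + 1) := h4
        _ ≤ 2 ^ (j * 2) := Nat.pow_le_pow_right (by norm_num) (by omega)
        _ = (2 ^ j) ^ 2 := by rw [pow_mul]
    exact (lt_of_pow_lt_pow_left₀ 2 (Nat.zero_le _) h8).le
  have h8 : (1 + e) * (Real.log 2 * j) ≤ k := by
    refine le_trans ?_ hk
    have h9 : Real.log 2 * j ≤ Real.log x := by
      have : Real.log ((2 : ℝ) ^ j) ≤ Real.log x :=
        Real.log_le_log (by positivity) (by exact_mod_cast h3)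
      rw [Real.log_pow] at this
      linarith
    have h10 : 0 ≤ Real.log x := Real.log_natCast_nonneg x
    calc (1 + e) * (Real.log 2 * j) ≤ (1 + e) * Real.log x := by gcongr
      _ ≤ (1 + ε) * Real.log x := by gcongr
  refine hx ⟨k, mem_filter.2 ⟨mem_range.2 ?_, h8, h7⟩, x, mem_range.2 h4, hcon.trans h6⟩
  have : k ≤ k ^ 10 := Nat.le_self_pow (by norm_num) k
  omega

end Pool.Agent.H532.UN
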